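import Pool.Agent.H114.MF.Defs

/-!
# An abelian normal subgroup centralized by the commutator subgroup is a module
-/

set_option autoImplicit false

namespace H114MF

/-- the module attached to the subgroup `A` -/
def ACT_M {G : Type} [Group G] (A : Subgroup G) : Type := Additive A

noncomputable instance ACT_addGroup {G : Type} [Group G] (A : Subgroup G) :
    AddGroup (ACT_M A) := inferInstanceAs (AddGroup (Additive A))

/-- the group structure -/
@[reducible] noncomputable def ACT_grp {G : Type} [Group G] (A : Subgroup G)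
    (h : ∀ a ∈ A, ∀ b ∈ A, a * b = b * a) : AddCommGroup (ACT_M A) :=
  { (ACT_addGroup A) with
    add_comm := fun x y => by
      have h1 : (Additive.toMul x : A) * (Additive.toMul y : A)
          = (Additive.toMul y : A) * (Additive.toMul x : A) :=
        Subtype.ext (h _ (Additive.toMul x : A).2 _ (Additive.toMul y : A).2)
      exact congrArg Additive.ofMul h1 }

/-- identity map to the module -/
def ACT_f {G : Type} [Group G] (A : Subgroup G) (a : A) : ACT_M A := Additive.ofMul a

/-- identity map from the module -/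
def ACT_u {G : Type} [Group G] (A : Subgroup G) (m : ACT_M A) : A := Additive.toMul m

theorem ACT_fu {G : Type} [Group G] (A : Subgroup G) (m : ACT_M A) : ACT_f A (ACT_u A m) = m := rfl

theorem ACT_uf {G : Type} [Group G] (A : Subgroup G) (a : A) : ACT_u A (ACT_f A a) = a := rfl

theorem ACT_fadd {G : Type} [Group G] (A : Subgroup G) (a b : A) :
    ACT_f A (a * b) = ACT_f A a + ACT_f A b := rfl

theorem ACT_uadd {G : Type} [Group G] (A : Subgroup G) (a b : ACT_M A) :
    ACT_u A (a + b) = ACT_u A a * ACT_u A b := rfl

theorem ACT_uzero {G : Type} [Group G] (A : Subgroup G) : ACT_u A 0 = 1 := rfl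

theorem ACT_uneg {G : Type} [Group G] (A : Subgroup G) (a : ACT_M A) :
    ACT_u A (-a) = (ACT_u A a)⁻¹ := rfl

theorem t_ACT : S_ACT := by
  intro G _ A hA hG hab hc
  let _ : AddCommGroup (ACT_M A) := ACT_grp A hab
  have := hA
  -- the action of `G`
  let cj : G → ACT_M A → ACT_M A := fun g m =>
    ACT_f A ⟨g * (ACT_u A m : G) * g⁻¹, hA.conj_mem _ (ACT_u A m).2 g⟩
  have hcj : ∀ g m, (ACT_u A (cj g m) : G) = g * (ACT_u A m : G) * g⁻¹ := fun _ _ => rfl
  have hext : ∀ m n : ACT_M A, (ACT_u A m : G) = (ACT_u A n : G) → m = n := fun m n h =>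
    (Subtype.ext h : ACT_u A m = ACT_u A n)
  let ψ : G →* AddMonoid.End (ACT_M A) :=
    { toFun := fun g =>
        { toFun := cj g
          map_zero' := by
            apply hext
            rw [hcj, ACT_uzero]
            simp
          map_add' := fun x y => by
            apply hext
            rw [hcj, ACT_uadd, ACT_uadd, Subgroup.coe_mul, Subgroup.coe_mul, hcj, hcj]
            group }
      map_one' := by
        ext m
        apply hext
        show (ACT_u A (cj 1 m) : G) = _
        rw [hcj]
        simp
      map_mul' := fun g h => by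
        ext m
        apply hext
        show (ACT_u A (cj (g * h) m) : G) = (ACT_u A (cj g (cj h m)) : G)
        rw [hcj, hcj, hcj]
        group }
  have hψ : ∀ g m, ψ g m = cj g m := fun _ _ => rfl
  have hker : ∀ g ∈ commutator G, ψ g = 1 := by
    intro g hg
    ext m
    apply hext
    show (ACT_u A (cj g m) : G) = (ACT_u A m : G)
    rw [hcj, hc g hg _ (ACT_u A m).2]
    group
  let ρ : Abelianization G →* AddMonoid.End (ACT_M A) :=
    QuotientGroup.lift (commutator G) ψ hker
  have hρ : ∀ g : G, ρ (Abelianization.of g) = ψ g := fun g => rfl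
  let Φ : MonoidAlgebra ℤ (Abelianization G) →+* AddMonoid.End (ACT_M A) :=
    (MonoidAlgebra.lift ℤ (AddMonoid.End (ACT_M A)) (Abelianization G) ρ).toRingHom
  let _ : Module (MonoidAlgebra ℤ (Abelianization G)) (ACT_M A) := Module.compHom (ACT_M A) Φ
  have hsm : ∀ (r : MonoidAlgebra ℤ (Abelianization G)) (m : ACT_M A), r • m = Φ r m :=
    fun _ _ => rfl
  have hΦ : ∀ g : G, Φ (MonoidAlgebra.of ℤ (Abelianization G) (Abelianization.of g)) = ψ g := by
    intro g
    show (MonoidAlgebra.lift ℤ (AddMonoid.End (ACT_M A)) (Abelianization G) ρ) _ = ψ g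
    rw [MonoidAlgebra.lift_of, hρ]
  have hfg : Monoid.FG (Abelianization G) := by
    rw [← Group.fg_iff_monoid_fg]
    have := hG
    exact Group.fg_of_surjective (f := Abelianization.of) (QuotientGroup.mk'_surjective _)
  refine ⟨MonoidAlgebra ℤ (Abelianization G), ACT_M A, inferInstance, inferInstance,
    inferInstance, ACT_f A, MonoidAlgebra.finiteType_of_fg, ?_, ACT_fadd A, ?_, ?_⟩
  · exact ⟨fun x y h => h, fun m => ⟨ACT_u A m, rfl⟩⟩
  · intro K hK hKA
    let S : AddSubgroup (ACT_M A) :=
      { carrier := {m | (ACT_u A m : G) ∈ K}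
        add_mem' := fun {x y} hx hy => by
          show (ACT_u A (x + y) : G) ∈ K
          rw [ACT_uadd, Subgroup.coe_mul]
          exact K.mul_mem hx hy
        zero_mem' := by
          show (ACT_u A 0 : G) ∈ K
          rw [ACT_uzero]
          exact K.one_mem
        neg_mem' := fun {x} hx => by
          show (ACT_u A (-x) : G) ∈ K
          rw [ACT_uneg, Subgroup.coe_inv]
          exact K.inv_mem hx }
    refine ⟨{ carrier := {m | (ACT_u A m : G) ∈ K}
              add_mem' := ?_
              zero_mem' := ?_
              smul_mem' := ?_ }, fun a => Iff.rfl⟩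
    · intro x y hx hy
      show (ACT_u A (x + y) : G) ∈ K
      rw [ACT_uadd, Subgroup.coe_mul]
      exact K.mul_mem hx hy
    · show (ACT_u A 0 : G) ∈ K
      rw [ACT_uzero]
      exact K.one_mem
    · intro r m hm
      induction r using MonoidAlgebra.induction_on with
      | of g =>
        obtain ⟨g, rfl⟩ : ∃ g' : G, Abelianization.of g' = g := QuotientGroup.mk'_surjective _ g
        show (ACT_u A (_ • m) : G) ∈ K
        rw [hsm, hΦ, hψ, hcj]
        exact hK.conj_mem _ hm g
      | add r s hr hs =>
        show (ACT_u A ((r + s) • m) : G) ∈ K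
        rw [add_smul, ACT_uadd, Subgroup.coe_mul]
        exact K.mul_mem hr hs
      | smul n r hr =>
        have h1 : (n • r) • m = n • (r • m) := by
          rw [hsm, hsm, map_zsmul]
          rfl
        have h2 : r • m ∈ S := hr
        have h3 : n • (r • m) ∈ S := S.zsmul_mem h2 n
        rw [← h1] at h3
        exact h3
  · intro N
    refine ⟨{ carrier := {g | ∃ h : g ∈ A, ACT_f A ⟨g, h⟩ ∈ N}
              mul_mem' := ?_
              one_mem' := ?_
              inv_mem' := ?_ }, ?_, ?_, ?_⟩
    · rintro x y ⟨hx, hx'⟩ ⟨hy, hy'⟩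
      exact ⟨A.mul_mem hx hy, N.add_mem hx' hy'⟩
    · exact ⟨A.one_mem, N.zero_mem⟩
    · rintro x ⟨hx, hx'⟩
      exact ⟨A.inv_mem hx, N.neg_mem hx'⟩
    · constructor
      rintro x ⟨hx, hx'⟩ g
      refine ⟨hA.conj_mem x hx g, ?_⟩
      have h1 := N.smul_mem (MonoidAlgebra.of ℤ (Abelianization G) (Abelianization.of g)) hx'
      rw [hsm, hΦ, hψ] at h1
      exact h1
    · rintro x ⟨hx, _⟩
      exact hx
    · intro a
      constructor
      · intro h
        exact ⟨a.2, h⟩
      · rintro ⟨_, h⟩
        exact h

end H114MF
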