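import Pool.Agent.H114.MF.Defs2
import Pool.Agent.H114.MB.AMA

set_option autoImplicit false

/-! Task AMAS: the commutator subgroup of a finitely presented solvable group is carried by a half
space. -/

namespace H114MF

open H114MB

namespace AMASaux

theorem alt_map {G : Type} [Group G] (U V D : Subgroup G) (l : List D) : ∀ b : Bool,
    Alt (U.subgroupOf D) (V.subgroupOf D) b l → Alt U V b (l.map (fun x : D => (x : G))) := by
  induction l with
  | nil => intro b _; cases b <;> trivial
  | cons x l ih =>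
    intro b h
    cases b
    · obtain ⟨h1, h2, h3⟩ := h
      exact ⟨Subgroup.mem_subgroupOf.1 h1, fun hh => h2 (Subgroup.mem_subgroupOf.2 hh), ih _ h3⟩
    · obtain ⟨h1, h2, h3⟩ := h
      exact ⟨Subgroup.mem_subgroupOf.1 h1, fun hh => h2 (Subgroup.mem_subgroupOf.2 hh), ih _ h3⟩

theorem alt_mem {G : Type} [Group G] (U V : Subgroup G) (l : List G) : ∀ b : Bool,
    Alt U V b l → ∀ x ∈ l, x ∈ U ∨ x ∈ V := by
  induction l with
  | nil => intro b _ x hx; exact absurd hx (by simp)
  | cons y l ih =>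
    intro b h x hx
    rw [List.mem_cons] at hx
    cases b
    · obtain ⟨h1, h2, h3⟩ := h
      rcases hx with rfl | hx
      · exact Or.inr h1
      · exact ih _ h3 x hx
    · obtain ⟨h1, h2, h3⟩ := h
      rcases hx with rfl | hx
      · exact Or.inl h1
      · exact ih _ h3 x hx

end AMASaux

open AMAaux in
theorem t_AMAS (hCOC : S_COC) (hPATH : S_PATH) (hPUSHA : S_PUSHA) (hSOLV : S_SOLV) : S_AMAS := by
  classical
  intro G _ n g R hR hker hg hsol X hX
  obtain ⟨C₀, hC₀⟩ := hPATH G n g hg X hX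
  set c : ℝ := ∑ i, |ht X (g i)| with hcdef
  have hc : ∀ i, |ht X (g i)| ≤ c := fun i =>
    Finset.single_le_sum (f := fun i => |ht X (g i)|) (fun _ _ => abs_nonneg _) (Finset.mem_univ i)
  have hc0 : 0 ≤ c := Finset.sum_nonneg (fun _ _ => abs_nonneg _)
  obtain ⟨L, hL⟩ : ∃ L : ℕ, ∀ r ∈ R, r.toWord.length ≤ L := by
    obtain ⟨L, hL⟩ := (hR.image (fun r => r.toWord.length)).bddAbove
    exact ⟨L, fun r hr => hL ⟨r, hr, rfl⟩⟩
  set C : ℝ := max C₀ (c * (L + 1)) + 1 with hCdef
  have hC1 : C₀ ≤ C := by have := le_max_left C₀ (c * (L + 1)); linarith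
  have hC2 : c * (L + 1) ≤ C := by have := le_max_right C₀ (c * (L + 1)); linarith
  have hcL : 0 ≤ c * L := by positivity
  have hC3 : c ≤ C := by linarith
  have hC4 : c * L ≤ C := by linarith
  have hCpos : 0 < C := by
    have h1 := le_max_right C₀ (c * (L + 1))
    have h2 : 0 ≤ c * (L + 1) := by positivity
    linarith
  -- words for the classes
  have hmk : ∀ x y : G, (QuotientGroup.mk x : G ⧸ commutator G) = QuotientGroup.mk y →
      ht X x = ht X y := by
    intro x y h
    have h1 := ht_comm X _ (QuotientGroup.eq.1 h)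
    rw [ht_mul, ht_inv] at h1
    linarith
  have hs : ∀ q : G ⧸ commutator G, ∃ w : List (Fin n × Bool),
      (QuotientGroup.mk (ev g w) : G ⧸ commutator G) = q ∧
      (∀ x : G, (QuotientGroup.mk x : G ⧸ commutator G) = q → ∀ p, p <+: w →
        min (-C) (ht X x) ≤ ht X (ev g p) ∧ ht X (ev g p) ≤ max C (ht X x)) ∧
      (q = 1 → w = []) := by
    intro q
    by_cases hq : q = 1
    · refine ⟨[], by rw [ev_nil, hq]; rfl, ?_, fun _ => rfl⟩
      intro x hx p hp
      rw [List.prefix_nil] at hp
      rw [hp, ev_nil, ht_one]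
      exact ⟨(min_le_left _ _).trans (by linarith), le_trans hCpos.le (le_max_left _ _)⟩
    · obtain ⟨w, hw1, hw2⟩ := hC₀ C hC1 q.out
      refine ⟨w, ?_, ?_, fun h => absurd h hq⟩
      · rw [QuotientGroup.eq.2 hw1]
        exact QuotientGroup.out_eq' q
      · intro x hx p hp
        have h1 : ht X x = ht X q.out := hmk _ _ (by rw [hx]; exact (QuotientGroup.out_eq' q).symm)
        rw [h1]
        exact hw2 p hp
  choose s hs1 hs2 hs3 using hs
  set cc : G → G := fun x => ev g (s (QuotientGroup.mk x)) with hcc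
  have hccmk : ∀ x, (QuotientGroup.mk (cc x) : G ⧸ commutator G) = QuotientGroup.mk x :=
    fun x => hs1 _
  have hccht : ∀ x, ht X (cc x) = ht X x := fun x => hmk _ _ (hccmk x)
  have hcc1 : ∀ x ∈ commutator G, cc x = 1 := by
    intro x hx
    have h1 : (QuotientGroup.mk x : G ⧸ commutator G) = 1 := (QuotientGroup.eq_one_iff x).2 hx
    change ev g (s (QuotientGroup.mk x)) = 1
    rw [hs3 _ h1, ev_nil]
  have hcceq : ∀ x y : G, (QuotientGroup.mk x : G ⧸ commutator G) = QuotientGroup.mk y →
      cc x = cc y := by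
    intro x y h
    change ev g (s (QuotientGroup.mk x)) = ev g (s (QuotientGroup.mk y))
    rw [h]
  -- edge elements
  have key : ∀ (I : Set ℝ) (h0 : (0 : ℝ) ∈ I),
      (∀ x : G, ht X x ∈ I → ∀ p, p <+: s (QuotientGroup.mk x) → ht X (ev g p) ∈ I) →
      ∀ (x : G) (i : Fin n), ht X x ∈ I → ht X (x * g i) ∈ I →
      cc x * g i * (cc (x * g i))⁻¹ ∈ Sb X g I h0 := by
    intro I h0 hI x i hx hy
    refine ⟨?_, s (QuotientGroup.mk x) ++ [(i, true)] ++ wi (s (QuotientGroup.mk (x * g i))), ?_, ?_⟩
    · rw [← QuotientGroup.eq_one_iff, QuotientGroup.mk_mul, QuotientGroup.mk_inv,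
        QuotientGroup.mk_mul, hccmk, hccmk, QuotientGroup.mk_mul, mul_inv_cancel]
    · rw [ev_append, ev_append, ev_wi, ev_cons, ev_nil, mul_one]
      rfl
    · rintro p ⟨t, ht'⟩
      rcases List.append_eq_append_iff.1 ht' with ⟨q, h1, h2⟩ | ⟨q, h1, h2⟩
      · rcases List.append_eq_append_iff.1 h1.symm with ⟨q', h3, h4⟩ | ⟨q', h3, h4⟩
        · exact hI x hx p ⟨q', h3.symm⟩
        · cases q' with
          | nil =>
            rw [List.append_nil] at h3
            rw [h3]
            exact hI x hx _ (List.prefix_rfl)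
          | cons z q' =>
            simp only [List.cons_append, List.cons.injEq, List.nil_eq,
              List.append_eq_nil_iff] at h4
            obtain ⟨h5, h6, h7⟩ := h4
            rw [h3, h6, ← h5, ev_append, ht_mul, ev_cons, ev_nil, mul_one]
            have e1 : ht X (ev g (s (QuotientGroup.mk x))) = ht X x := hccht x
            rw [e1]
            have e2 : ht X x + ht X (pw (g (i, true).1) (i, true).2) = ht X (x * g i) := by
              rw [ht_mul]; rfl
            rw [e2]
            exact hy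
      · obtain ⟨p', s', h3, h4⟩ := prefix_wi _ q ⟨t, h2.symm⟩
        have h5 := hI (x * g i) hy p' ⟨s', h3.symm⟩
        have h6 : ht X (ev g p') + ht X (ev g s') = ht X (x * g i) := by
          rw [← ht_mul, ← ev_append, ← h3]
          exact hccht (x * g i)
        have e1 : ht X (ev g (s (QuotientGroup.mk x))) = ht X x := hccht x
        rw [h1, ev_append, ev_append, ev_cons, ev_nil, mul_one, h4, ev_wi, ht_mul, ht_mul, ht_inv,
          e1]
        have e2 : ht X x + ht X (pw (g (i, true).1) (i, true).2) = ht X (x * g i) := by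
          rw [ht_mul]; rfl
        rw [e2]
        have e3 : ht X (x * g i) + - ht X (ev g s') = ht X (ev g p') := by linarith
        rw [e3]
        exact h5
  have h0U : (0 : ℝ) ∈ Set.Ici (-C) := by
    rw [Set.mem_Ici]; linarith
  have h0V : (0 : ℝ) ∈ Set.Iic C := hCpos.le
  set U := Sb X g (Set.Ici (-C)) h0U with hU
  set V := Sb X g (Set.Iic C) h0V with hV
  have keyU : ∀ (x : G) (i : Fin n), -C ≤ ht X x → -C ≤ ht X (x * g i) →
      cc x * g i * (cc (x * g i))⁻¹ ∈ U := by
    apply key (Set.Ici (-C)) h0U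
    intro x hx p hp
    have := (hs2 _ x rfl p hp).1
    rw [Set.mem_Ici] at hx ⊢
    rwa [min_eq_left hx] at this
  have keyV : ∀ (x : G) (i : Fin n), ht X x ≤ C → ht X (x * g i) ≤ C →
      cc x * g i * (cc (x * g i))⁻¹ ∈ V := by
    apply key (Set.Iic C) h0V
    intro x hx p hp
    have := (hs2 _ x rfl p hp).2
    rw [Set.mem_Iic] at hx ⊢
    rwa [max_eq_left hx] at this
  obtain ⟨P, instP, iU, iV, io, hioU, hioV, hnf⟩ := hPUSHA G U V
  have hag : ∀ (a : G) (hu : a ∈ U) (hv : a ∈ V), iU ⟨a, hu⟩ = iV ⟨a, hv⟩ := by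
    intro a hu hv
    rw [← hioU ⟨a, hu⟩, ← hioV ⟨a, hv⟩]
  set f : G → Fin n → P := fun x i =>
    if 0 ≤ ht X x then
      (if h : cc x * g i * (cc (x * g i))⁻¹ ∈ U then iU ⟨_, h⟩ else 1)
    else (if h : cc x * g i * (cc (x * g i))⁻¹ ∈ V then iV ⟨_, h⟩ else 1) with hf
  have hstep : ∀ (x : G) (i : Fin n), |ht X (x * g i) - ht X x| ≤ c := by
    intro x i
    rw [ht_mul, add_sub_cancel_left]
    exact hc i
  have hEU : ∀ (x : G) (i : Fin n), -C ≤ ht X x → -C ≤ ht X (x * g i) →
      ∃ h : cc x * g i * (cc (x * g i))⁻¹ ∈ U, f x i = iU ⟨_, h⟩ := by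
    intro x i hx hy
    have h := keyU x i hx hy
    refine ⟨h, ?_⟩
    by_cases h0 : 0 ≤ ht X x
    · simp only [hf, if_pos h0, dif_pos h]
    · rw [not_le] at h0
      have h1 := abs_le.1 (hstep x i)
      have h' := keyV x i (by linarith) (by linarith [h1.2])
      simp only [hf, if_neg (not_le.2 h0), dif_pos h']
      exact (hag _ h h').symm
  have hEV : ∀ (x : G) (i : Fin n), ht X x ≤ C → ht X (x * g i) ≤ C →
      ∃ h : cc x * g i * (cc (x * g i))⁻¹ ∈ V, f x i = iV ⟨_, h⟩ := by
    intro x i hx hy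
    have h := keyV x i hx hy
    refine ⟨h, ?_⟩
    by_cases h0 : 0 ≤ ht X x
    · have h1 := abs_le.1 (hstep x i)
      have h' := keyU x i (by linarith) (by linarith [h1.1])
      simp only [hf, if_pos h0, dif_pos h']
      exact hag _ h' h
    · simp only [hf, if_neg h0, dif_pos h]
  have rU := region g f cc U iU (fun x => -C ≤ ht X x) hEU
  have rV := region g f cc V iV (fun x => ht X x ≤ C) hEV
  -- relators
  have hrel : ∀ x : G, ∀ r ∈ R, pp g f x r.toWord = 1 := by
    intro x r hr
    have hev : ev g r.toWord = 1 := by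
      rw [ev_toWord]
      have : r ∈ (FreeGroup.lift g).ker := by
        rw [hker]
        exact Subgroup.subset_normalClosure hr
      exact this
    have hlen : ∀ p, p <+: r.toWord → |ht X (ev g p)| ≤ C := by
      intro p hp
      have h1 := ht_len X g c hc p
      have h2 : (p.length : ℝ) ≤ L := by exact_mod_cast hp.length_le.trans (hL r hr)
      have h3 : c * p.length ≤ c * L := mul_le_mul_of_nonneg_left h2 hc0
      linarith
    have h1 : cc x * ev g r.toWord * (cc (x * ev g r.toWord))⁻¹ = 1 := by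
      rw [hev, mul_one, mul_one, mul_inv_cancel]
    rcases le_or_gt 0 (ht X x) with hx | hx
    · obtain ⟨h, h2⟩ := rU r.toWord x (by
        intro p hp
        have h3 := (abs_le.1 (hlen p hp)).1
        show -C ≤ ht X (x * ev g p)
        rw [ht_mul]; linarith)
      rw [h2]
      have e : (⟨_, h⟩ : U) = 1 := Subtype.ext h1
      rw [e, map_one]
    · obtain ⟨h, h2⟩ := rV r.toWord x (by
        intro p hp
        have h3 := (abs_le.1 (hlen p hp)).2
        show ht X (x * ev g p) ≤ C
        rw [ht_mul]; linarith)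
      rw [h2]
      have e : (⟨_, h⟩ : V) = 1 := Subtype.ext h1
      rw [e, map_one]
  have hcoc := hCOC G P n g R hker f hrel
  have hUc : ∀ u ∈ U, u ∈ commutator G := fun u hu => hu.1
  have hVc : ∀ v ∈ V, v ∈ commutator G := fun v hv => hv.1
  -- shift invariance
  have hshift : ∀ u ∈ commutator G, ∀ (x : G) (i : Fin n), f (u * x) i = f x i := by
    intro u hu x i
    have e1 : ht X (u * x) = ht X x := by rw [ht_mul, ht_comm X u hu, zero_add]
    have m : ∀ y : G, (QuotientGroup.mk (u * y) : G ⧸ commutator G) = QuotientGroup.mk y := by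
      intro y
      rw [QuotientGroup.mk_mul, (QuotientGroup.eq_one_iff u).2 hu, one_mul]
    have e2 : cc (u * x) = cc x := hcceq _ _ (m x)
    have e3 : cc (u * x * g i) = cc (x * g i) := by
      rw [mul_assoc]; exact hcceq _ _ (m _)
    simp only [hf, e1, e2, e3]
  -- values of the loops
  have hloopU : ∀ (u : U) (w : List (Fin n × Bool)), ev g w = u →
      (∀ p, p <+: w → ht X (ev g p) ∈ Set.Ici (-C)) → pp g f 1 w = iU u := by
    intro u w hw hp
    obtain ⟨h, h2⟩ := rU w 1 (by
      intro p hpw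
      show -C ≤ ht X (1 * ev g p)
      rw [one_mul]
      exact hp p hpw)
    rw [h2]
    congr 1
    apply Subtype.ext
    change cc 1 * ev g w * (cc (1 * ev g w))⁻¹ = u
    rw [hcc1 1 (Subgroup.one_mem _), one_mul, hw, hcc1 _ (hUc _ u.2), inv_one, mul_one]
  have hloopV : ∀ (v : V) (w : List (Fin n × Bool)), ev g w = v →
      (∀ p, p <+: w → ht X (ev g p) ∈ Set.Iic C) → pp g f 1 w = iV v := by
    intro v w hw hp
    obtain ⟨h, h2⟩ := rV w 1 (by
      intro p hpw
      show ht X (1 * ev g p) ≤ C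
      rw [one_mul]
      exact hp p hpw)
    rw [h2]
    congr 1
    apply Subtype.ext
    change cc 1 * ev g w * (cc (1 * ev g w))⁻¹ = v
    rw [hcc1 1 (Subgroup.one_mem _), one_mul, hw, hcc1 _ (hVc _ v.2), inv_one, mul_one]
  -- products of elements of the two subgroups
  have hword : ∀ (l : List G), (∀ x ∈ l, x ∈ U ∨ x ∈ V) → ∀ w, ev g w = l.prod →
      pp g f 1 w = (l.map io).prod := by
    intro l
    induction l with
    | nil =>
      intro _ w hw
      have h1 : ev g w = ev g [] := by rw [hw, ev_nil]; rfl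
      rw [hcoc 1 w [] h1]
      rfl
    | cons x l ih =>
      intro hl w hw
      obtain ⟨wl, hwl⟩ := ev_surj g hg l.prod
      have hx : ∃ wx, ev g wx = x ∧ x ∈ commutator G ∧ pp g f 1 wx = io x := by
        rcases hl x (List.mem_cons_self) with hx | hx
        · obtain ⟨hxc, wx, hwx, hwx'⟩ := hx
          refine ⟨wx, hwx, hxc, ?_⟩
          have h1 := hloopU ⟨x, hxc, wx, hwx, hwx'⟩ wx hwx hwx'
          rw [h1]
          exact (hioU ⟨x, hxc, wx, hwx, hwx'⟩).symm
        · obtain ⟨hxc, wx, hwx, hwx'⟩ := hx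
          refine ⟨wx, hwx, hxc, ?_⟩
          have h1 := hloopV ⟨x, hxc, wx, hwx, hwx'⟩ wx hwx hwx'
          rw [h1]
          exact (hioV ⟨x, hxc, wx, hwx, hwx'⟩).symm
      obtain ⟨wx, hwx, hxc, hpx⟩ := hx
      have h1 : ev g w = ev g (wx ++ wl) := by
        rw [hw, ev_append, hwx, hwl, List.prod_cons]
      have s1 : pp g f (1 * ev g wx) wl = pp g f 1 wl := by
        rw [one_mul, hwx]
        have := pp_shift g f x (hshift _ hxc) wl 1
        rwa [mul_one] at this
      rw [hcoc 1 w _ h1, pp_append, s1, hpx,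
        ih (fun y hy => hl y (List.mem_cons_of_mem _ hy)) wl hwl, List.map_cons, List.prod_cons]
  -- the commutator subgroup is generated by both
  have hgen : ∀ (w : List (Fin n × Bool)) (x : G),
      cc x * ev g w * (cc (x * ev g w))⁻¹ ∈ U ⊔ V := by
    have hE : ∀ (x : G) (i : Fin n), cc x * g i * (cc (x * g i))⁻¹ ∈ U ⊔ V := by
      intro x i
      have h1 := abs_le.1 (hstep x i)
      rcases le_or_gt 0 (ht X x) with hx | hx
      · exact Subgroup.mem_sup_left (keyU x i (by linarith) (by linarith [h1.1]))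
      · exact Subgroup.mem_sup_right (keyV x i (by linarith) (by linarith [h1.2]))
    have r := region g (fun x i => (⟨_, hE x i⟩ : (U ⊔ V : Subgroup G))) cc (U ⊔ V)
      (MonoidHom.id _) (fun _ => True) (fun x i _ _ => ⟨hE x i, rfl⟩)
    intro w x
    exact (r w x (fun _ _ => trivial)).1
  have hall : ∀ a ∈ commutator G, a ∈ U ⊔ V := by
    intro a ha
    obtain ⟨w, hw⟩ := ev_surj g hg a
    have := hgen w 1
    rwa [hcc1 1 (Subgroup.one_mem _), one_mul, hw, hcc1 a ha, inv_one, mul_one] at this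
  have hnc : ∀ (b : Bool) (l : List (commutator G)), l ≠ [] →
      Alt (U.subgroupOf (commutator G)) (V.subgroupOf (commutator G)) b l →
      l.prod ∉ U.subgroupOf (commutator G) ⊓ V.subgroupOf (commutator G) := by
    intro b l hl ha hp
    have ha' := AMASaux.alt_map U V (commutator G) l b ha
    have hp1 : (l.map (fun x : commutator G => (x : G))).prod = ((l.prod : commutator G) : G) := by
      have := map_list_prod (commutator G).subtype l
      exact this.symm
    have hpU : ((l.prod : commutator G) : G) ∈ U := Subgroup.mem_subgroupOf.1 hp.1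
    have hpV : ((l.prod : commutator G) : G) ∈ V := Subgroup.mem_subgroupOf.1 hp.2
    have hne : l.map (fun x : commutator G => (x : G)) ≠ [] := by
      intro h
      exact hl (List.map_eq_nil_iff.1 h)
    obtain ⟨w, hw⟩ := ev_surj g hg ((l.prod : commutator G) : G)
    have e1 := hword _ (AMASaux.alt_mem U V _ b ha') w (by rw [hw, hp1])
    have e2 := hword [((l.prod : commutator G) : G)] (by
      intro x hx
      rw [List.mem_singleton] at hx
      rw [hx]
      exact Or.inl hpU) w (by rw [hw, List.prod_singleton])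
    rw [List.map_singleton, List.prod_singleton] at e2
    exact hnf b _ hne ha' _ ⟨hpU, hpV⟩ (e1.symm.trans e2)
  have htop : U.subgroupOf (commutator G) ⊔ V.subgroupOf (commutator G) = ⊤ := by
    rw [← Subgroup.subgroupOf_sup hUc hVc]
    rw [Subgroup.subgroupOf_eq_top]
    exact hall
  have hsolD : Group.IsSolvable (commutator G) := by
    haveI := hsol
    infer_instance
  -- right alternative from the absorption of `U`
  have hfin : ∀ C' : ℝ, C ≤ C' → (∀ x ∈ U, ∃ w, ev g w = x ∧
      ∀ p, p <+: w → ht X (ev g p) ≤ C') → ∃ C : ℝ,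
      (∀ a ∈ commutator G, ∃ w, ev g w = a ∧ ∀ p, p <+: w → -C ≤ ht X (ev g p)) ∨
      (∀ a ∈ commutator G, ∃ w, ev g w = a ∧ ∀ p, p <+: w → ht X (ev g p) ≤ C) := by
    intro C' hC' hU'
    have h0' : (0 : ℝ) ∈ Set.Iic C' := hCpos.le.trans hC'
    have h1 : U ≤ Sb X g (Set.Iic C') h0' := fun x hx => ⟨hUc x hx, hU' x hx⟩
    have h2 : V ≤ Sb X g (Set.Iic C') h0' := by
      rintro x ⟨hxc, w, hw, hw'⟩
      exact ⟨hxc, w, hw, fun p hp => (show ht X (ev g p) ≤ C from hw' p hp).trans hC'⟩
    refine ⟨C', Or.inr ?_⟩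
    intro a ha
    exact ((sup_le h1 h2) (hall a ha)).2
  rcases hSOLV (commutator G) (U.subgroupOf (commutator G)) (V.subgroupOf (commutator G)) hsolD
    htop hnc with h | h | ⟨h, -⟩
  · have h' : U ≤ V := by
      intro x hx
      have := @h ⟨x, hUc x hx⟩ (Subgroup.mem_subgroupOf.2 hx)
      exact Subgroup.mem_subgroupOf.1 this
    exact hfin C le_rfl (fun x hx => (h' hx).2)
  · have h' : V ≤ U := by
      intro x hx
      have := @h ⟨x, hVc x hx⟩ (Subgroup.mem_subgroupOf.2 hx)
      exact Subgroup.mem_subgroupOf.1 this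
    refine ⟨C, Or.inl ?_⟩
    rw [sup_eq_left.2 h'] at hall
    intro a ha
    exact (hall a ha).2
  · by_cases hUV : U ≤ V
    · exact hfin C le_rfl (fun x hx => (hUV hx).2)
    · rw [SetLike.not_le_iff_exists] at hUV
      obtain ⟨u, hu, hu'⟩ := hUV
      obtain ⟨wu, hwu⟩ := ev_surj g hg u
      have hC' : C ≤ max C (c * wu.length) := le_max_left _ _
      apply hfin _ hC'
      intro x hx
      by_cases hxV : x ∈ V
      · obtain ⟨-, w, hw, hw'⟩ := hxV
        exact ⟨w, hw, fun p hp => (show ht X (ev g p) ≤ C from hw' p hp).trans hC'⟩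
      · have h1 := h ⟨u, hUc u hu⟩ (Subgroup.mem_subgroupOf.2 hu)
          (fun hh => hu' (Subgroup.mem_subgroupOf.1 hh)) ⟨x, hUc x hx⟩
          (Subgroup.mem_subgroupOf.2 hx) (fun hh => hxV (Subgroup.mem_subgroupOf.1 hh))
        have h2 : u⁻¹ * x ∈ V := Subgroup.mem_subgroupOf.1 h1
        obtain ⟨-, w, hw, hw'⟩ := h2
        refine ⟨wu ++ w, by rw [ev_append, hwu, hw, mul_inv_cancel_left], ?_⟩
        rintro p ⟨t, htp⟩
        rcases List.append_eq_append_iff.1 htp with ⟨q, h3, h4⟩ | ⟨q, h3, h4⟩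
        · have h5 := ht_len X g c hc p
          have h6 : (p.length : ℝ) ≤ wu.length := by
            rw [h3, List.length_append]; push_cast; linarith [Nat.cast_nonneg (α := ℝ) q.length]
          have h7 : c * p.length ≤ c * wu.length := mul_le_mul_of_nonneg_left h6 hc0
          exact ((le_abs_self _).trans (h5.trans h7)).trans (le_max_right _ _)
        · rw [h3, ev_append, ht_mul, hwu, ht_comm X u (hUc u hu), zero_add]
          exact (show ht X (ev g q) ≤ C from hw' q ⟨t, h4.symm⟩).trans hC'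

end H114MF
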