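import Pool.Agent.H114.MF.Defs2
import Pool.Agent.H114.MB.CMPW

set_option autoImplicit false

/-! Task BS: the second derived subgroup of a finitely presented solvable group is finitely
generated as a normal subgroup. -/

namespace H114MF

open H114MB
open scoped commutatorElement

theorem BS_evw_map {G H : Type} [Group G] [Group H] (φ : G →* H) (f : ℕ → G) (w : Wd) :
    evw (fun i => φ (f i)) w = φ (evw f w) := by
  induction w with
  | nil => simp [evw]
  | cons y w ih =>
    rw [CMPWaux.evw_cons, CMPWaux.evw_cons, ih, map_mul]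
    congr 1
    unfold pw
    split_ifs <;> simp

theorem BS_comm_map {G H : Type} [Group G] [Group H] (φ : G →* H) (hφ : Function.Surjective φ) :
    commutator H = (commutator G).map φ := by
  rw [commutator_def, commutator_def, Subgroup.map_commutator, Subgroup.map_top_of_surjective φ hφ]

theorem t_BS (hCENS : S_CENS) (hCMPS : S_CMPS) (hSNDW : S_SNDW) : S_BS := by
  classical
  intro G _ n g R hR hker hgen hsol
  set f : ℕ → G := fun i => if h : i < n then g ⟨i, h⟩ else 1 with hf
  have hf1 : ∀ i, n ≤ i → f i = 1 := by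
    intro i hi
    rw [hf]
    dsimp only
    rw [dif_neg (by omega)]
  have hfi : ∀ i : Fin n, f i = g i := by
    intro i
    rw [hf]
    dsimp only
    rw [dif_pos i.2]
  have hfgen : Subgroup.closure (Set.range f) = ⊤ := by
    rw [eq_top_iff, ← hgen, Subgroup.closure_le]
    rintro _ ⟨i, rfl⟩
    exact Subgroup.subset_closure ⟨(i : ℕ), hfi i⟩
  have hnD : (D2 G).Normal := inferInstance
  -- the metabelian quotient
  have htame := hCENS G n g R hR hker hgen hsol
  set π : G →* G ⧸ D2 G := QuotientGroup.mk' (D2 G) with hπ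
  have hπs : Function.Surjective π := QuotientGroup.mk'_surjective _
  have hclπ : Subgroup.closure (Set.range fun i => π (f i)) = ⊤ := by
    have h1 : Set.range (fun i => π (f i)) = π '' Set.range f := by
      rw [← Set.range_comp]
      rfl
    rw [h1, ← MonoidHom.map_closure, hfgen, Subgroup.map_top_of_surjective π hπs]
  have habQ : ∀ x ∈ commutator (G ⧸ D2 G), ∀ y ∈ commutator (G ⧸ D2 G), x * y = y * x := by
    rw [BS_comm_map π hπs]
    rintro _ ⟨a, ha, rfl⟩ _ ⟨b, hb, rfl⟩
    rw [← map_mul, ← map_mul]
    refine QuotientGroup.eq.2 ?_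
    have h1 : ⁅b⁻¹, a⁻¹⁆ ∈ D2 G :=
      Subgroup.commutator_mem_commutator (inv_mem hb) (inv_mem ha)
    have h2 : (a * b)⁻¹ * (b * a) = ⁅b⁻¹, a⁻¹⁆ := by
      rw [commutatorElement_def]
      group
    rw [h2]
    exact h1
  obtain ⟨T, K, Λ, A, N, U, hcheck, hT⟩ := hCMPS (G ⧸ D2 G) n (fun i => π (f i))
    (fun i hi => by simp only [hf1 i hi, map_one]) hclπ habQ (by
      have e : (fun i : Fin n => (fun i => π (f i)) (i : ℕ)) =
          fun i => (QuotientGroup.mk (g i) : G ⧸ D2 G) := by
        funext i
        simp only [hfi]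
        rfl
      rw [e]
      exact htame)
  have hTD : ∀ w ∈ T, evw f w ∈ D2 G := by
    intro w hw
    have h1 := hT w hw
    rw [BS_evw_map π f w] at h1
    exact (QuotientGroup.eq_one_iff _).1 h1
  refine ⟨(T.map (evw f)).toFinset, ?_⟩
  set M : Subgroup G := Subgroup.normalClosure ((T.map (evw f)).toFinset : Set G) with hM
  apply le_antisymm
  · -- D2 G ≤ M
    have hnM : M.Normal := Subgroup.normalClosure_normal
    set ρ : G →* G ⧸ M := QuotientGroup.mk' M with hρ
    have hρs : Function.Surjective ρ := QuotientGroup.mk'_surjective _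
    have hclρ : Subgroup.closure (Set.range fun i => ρ (f i)) = ⊤ := by
      have h1 : Set.range (fun i => ρ (f i)) = ρ '' Set.range f := by
        rw [← Set.range_comp]
        rfl
      rw [h1, ← MonoidHom.map_closure, hfgen, Subgroup.map_top_of_surjective ρ hρs]
    have hS := hSNDW n T K Λ A N U hcheck (G ⧸ M) (fun i => ρ (f i))
      (fun i hi => by simp only [hf1 i hi, map_one]) hclρ (by
        intro w hw
        rw [BS_evw_map ρ f w]
        refine (QuotientGroup.eq_one_iff _).2 ?_
        refine Subgroup.subset_normalClosure ?_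
        rw [List.coe_toFinset]
        exact List.mem_map_of_mem hw)
    rw [BS_comm_map ρ hρs] at hS
    rw [Subgroup.commutator_le]
    intro a ha b hb
    have h1 := hS (ρ a) (Subgroup.mem_map_of_mem ρ ha) (ρ b) (Subgroup.mem_map_of_mem ρ hb)
    refine (QuotientGroup.eq_one_iff _).1 ?_
    change ρ ⁅a, b⁆ = 1
    rw [map_commutatorElement, commutatorElement_eq_one_iff_mul_comm]
    exact h1
  · -- M ≤ D2 G
    refine Subgroup.normalClosure_le_normal ?_
    intro x hx
    rw [List.coe_toFinset] at hx
    obtain ⟨w, hw, rfl⟩ := List.mem_map.1 hx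
    exact hTD w hw

end H114MF
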