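import Pool.Agent.H114.MF.Defs

/-!
# MP_faf39d_al: CENQ, centralizers modulo the second derived subgroup
-/

set_option autoImplicit false

namespace H114MF

open H114MB
open scoped commutatorElement

theorem cenq_pw {G H : Type} [Group G] [Group H] (π : G →* H) (x : G) (c : Bool) :
    pw (π x) c = π (pw x c) := by
  cases c <;> simp [pw]

theorem cenq_mono {G H : Type} [Group G] [Group H] (π : G →* H) {n : ℕ} (g : Fin n → G)
    (u : Vec n) : mono (fun i => π (g i)) u = π (mono g u) := by
  unfold mono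
  rw [map_list_prod, List.map_ofFn]
  congr 1
  congr 1
  funext i
  simp

theorem cenq_prod {G H : Type} [Group G] [Group H] (π : G →* H) {n : ℕ} (g : Fin n → G)
    (l : List (Vec n × Bool)) (a : G) :
    (l.map fun x => (mono (fun i => π (g i)) x.1)⁻¹ * pw (π a) x.2 *
      mono (fun i => π (g i)) x.1).prod =
    π (l.map fun x => (mono g x.1)⁻¹ * pw a x.2 * mono g x.1).prod := by
  rw [map_list_prod, List.map_map]
  congr 1
  refine List.map_congr_left fun x _ => ?_
  rw [Function.comp_apply, cenq_mono, cenq_pw, map_mul, map_mul, map_inv]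

theorem cenq_comm_map {G : Type} [Group G] (D : Subgroup G) [D.Normal] :
    (commutator G).map (QuotientGroup.mk' D) = commutator (G ⧸ D) := by
  rw [commutator_def, commutator_def, Subgroup.map_commutator, ← MonoidHom.range_eq_map,
    MonoidHom.range_eq_top.2 (QuotientGroup.mk'_surjective D)]

theorem cenq_ker {G : Type} [Group G] {n : ℕ} (g : Fin n → G)
    (R : Set (FreeGroup (Fin n))) (hk : (FreeGroup.lift g).ker = Subgroup.normalClosure R)
    (hs : Function.Surjective (FreeGroup.lift g)) (D : Subgroup G) [D.Normal] (T : Set G)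
    (hT : D = Subgroup.normalClosure T) (σ : G → FreeGroup (Fin n))
    (hσ : ∀ x, FreeGroup.lift g (σ x) = x) :
    (FreeGroup.lift fun i => QuotientGroup.mk' D (g i)).ker =
      Subgroup.normalClosure (R ∪ σ '' T) := by
  have h1 : (FreeGroup.lift fun i => QuotientGroup.mk' D (g i)) =
      (QuotientGroup.mk' D).comp (FreeGroup.lift g) := by
    ext i
    simp
  rw [h1, ← MonoidHom.comap_ker, QuotientGroup.ker_mk']
  apply le_antisymm
  · intro w hw
    have hw' : FreeGroup.lift g w ∈ D := hw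
    have hN : ((Subgroup.normalClosure (R ∪ σ '' T)).map (FreeGroup.lift g)).Normal :=
      Subgroup.Normal.map inferInstance _ hs
    have hDN : D ≤ (Subgroup.normalClosure (R ∪ σ '' T)).map (FreeGroup.lift g) := by
      rw [hT]
      refine Subgroup.normalClosure_le_normal ?_
      intro t ht
      exact ⟨σ t, Subgroup.subset_normalClosure (Or.inr ⟨t, ht, rfl⟩), hσ t⟩
    obtain ⟨w', hw1, hw2⟩ := hDN hw'
    have h2 : w'⁻¹ * w ∈ (FreeGroup.lift g).ker := by
      rw [MonoidHom.mem_ker, map_mul, map_inv, hw2, inv_mul_cancel]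
    rw [hk] at h2
    have h3 : w'⁻¹ * w ∈ Subgroup.normalClosure (R ∪ σ '' T) :=
      Subgroup.normalClosure_mono Set.subset_union_left h2
    have h4 := mul_mem hw1 h3
    rwa [mul_inv_cancel_left] at h4
  · refine Subgroup.normalClosure_le_normal ?_
    rintro w (hw | ⟨t, ht, rfl⟩)
    · show FreeGroup.lift g w ∈ D
      have h5 : w ∈ (FreeGroup.lift g).ker := by
        rw [hk]
        exact Subgroup.subset_normalClosure hw
      rw [MonoidHom.mem_ker] at h5
      rw [h5]
      exact one_mem _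
    · show FreeGroup.lift g (σ t) ∈ D
      rw [hσ, hT]
      exact Subgroup.subset_normalClosure ht

/-- CENQ: centralizers modulo the second derived subgroup -/
theorem t_CENQ (h1 : S_CENT) (h2 : S_CPT) (h3 : S_GEO) : S_CENQ := by
  intro G _ n g R hR hk hcl hT
  obtain ⟨T, hT⟩ := hT
  have hs : Function.Surjective (FreeGroup.lift g) := by
    rw [← MonoidHom.range_eq_top, FreeGroup.range_lift_eq_closure]
    exact hcl
  choose σ hσ using hs
  have hs : Function.Surjective (FreeGroup.lift g) := fun x => ⟨σ x, hσ x⟩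
  have hker := cenq_ker g R hk hs (D2 G) (T : Set G) hT σ hσ
  have hfin : (R ∪ σ '' (T : Set G)).Finite := hR.union (T.finite_toSet.image σ)
  have hclq : Subgroup.closure (Set.range fun i => QuotientGroup.mk' (D2 G) (g i)) = ⊤ := by
    have h4 : (Set.range fun i => QuotientGroup.mk' (D2 G) (g i)) =
        QuotientGroup.mk' (D2 G) '' Set.range g := by
      rw [← Set.range_comp]
      rfl
    rw [h4, ← MonoidHom.map_closure, hcl, ← MonoidHom.range_eq_map,
      MonoidHom.range_eq_top.2 (QuotientGroup.mk'_surjective _)]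
  have hcomm : ∀ x ∈ commutator (G ⧸ D2 G), ∀ y ∈ commutator (G ⧸ D2 G), x * y = y * x := by
    intro x hx y hy
    rw [← cenq_comm_map] at hx hy
    obtain ⟨a, ha, rfl⟩ := hx
    obtain ⟨b, hb, rfl⟩ := hy
    have h5 : ⁅a, b⁆ ∈ D2 G := Subgroup.commutator_mem_commutator ha hb
    have h6 : QuotientGroup.mk' (D2 G) ⁅a, b⁆ = 1 := by
      rw [← MonoidHom.mem_ker, QuotientGroup.ker_mk']
      exact h5
    rw [map_commutatorElement] at h6
    exact commutatorElement_eq_one_iff_mul_comm.1 h6
  set L : Set (List (Vec n × Bool)) := {l | ∀ a ∈ commutator (G ⧸ D2 G),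
    a = (l.map fun x => (mono (fun i => QuotientGroup.mk' (D2 G) (g i)) x.1)⁻¹ * pw a x.2 *
      mono (fun i => QuotientGroup.mk' (D2 G) (g i)) x.1).prod} with hL
  obtain ⟨Λ, N, U, hN, hU, hΛ, hbd, hdir⟩ := h2 n L (by
    intro χ hχ
    obtain ⟨l, hl1, hl2⟩ := h1 (G ⧸ D2 G) n (fun i => QuotientGroup.mk' (D2 G) (g i))
      (R ∪ σ '' (T : Set G)) hfin hker hclq hcomm χ hχ
    exact ⟨l, hl2, hl1⟩)
  refine ⟨{l | l ∈ Λ}, _, h3 n N U {l | l ∈ Λ} hN hU hbd hdir, ?_⟩
  intro l hl a ha
  have h7 : QuotientGroup.mk' (D2 G) a ∈ commutator (G ⧸ D2 G) := by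
    rw [← cenq_comm_map]
    exact ⟨a, ha, rfl⟩
  have h8 := hΛ l hl _ h7
  rw [cenq_prod] at h8
  refine ⟨((l.map fun x => (mono g x.1)⁻¹ * pw a x.2 * mono g x.1).prod)⁻¹ * a, ?_, ?_⟩
  · rw [← QuotientGroup.eq]
    exact h8.symm
  · rw [mul_inv_cancel_left]

end H114MF
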