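import Pool.Agent.H114.MF.Defs2
import Pool.Agent.H114.MB.CENT

set_option autoImplicit false

/-! # MP_faf39d_al: the metabelian quotient is tame (task CENS) -/

namespace H114MF

open H114MB

theorem CENS_core (hHALF : S_HALF) (hNAK : S_NAK) (G : Type) [Group G] (n : ℕ) (g : Fin n → G)
    (hgen : Subgroup.closure (Set.range g) = ⊤)
    (hmet : ∀ x ∈ commutator G, ∀ y ∈ commutator G, x * y = y * x)
    (χ : Fin n → ℝ) (hχ : χ ≠ 0)
    (hAM : ∀ X : G →* Multiplicative ℝ, (∃ x, ht X x ≠ 0) → ∃ C : ℝ,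
      (∀ a ∈ commutator G, ∃ w, ev g w = a ∧ ∀ p, p <+: w → -C ≤ ht X (ev g p)) ∨
      (∀ a ∈ commutator G, ∃ w, ev g w = a ∧ ∀ p, p <+: w → ht X (ev g p) ≤ C)) :
    ∃ l : List (Vec n × Bool),
      ((∀ x ∈ l, 0 < ∑ i, χ i * (x.1 i : ℝ)) ∨ (∀ x ∈ l, ∑ i, χ i * (x.1 i : ℝ) < 0)) ∧
      ∀ a ∈ commutator G,
        a = (l.map fun x => (mono g x.1)⁻¹ * pw a x.2 * mono g x.1).prod := by
  by_cases hcase : ∃ u : Vec n, mono g u ∈ commutator G ∧ ∑ i, χ i * (u i : ℝ) ≠ 0
  · obtain ⟨u, hu, hne⟩ := hcase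
    refine ⟨[(u, true)], ?_, ?_⟩
    · rcases lt_or_gt_of_ne hne with h | h
      · right
        intro x hx
        rw [List.mem_singleton] at hx
        subst hx
        exact h
      · left
        intro x hx
        rw [List.mem_singleton] at hx
        subst hx
        exact h
    · intro a ha
      simp only [List.map_cons, List.map_nil, List.prod_cons, List.prod_nil, mul_one, pw, if_true]
      rw [mul_assoc, hmet a ha _ hu, inv_mul_cancel_left]
  · push Not at hcase
    have hsurj : Function.Surjective (FreeGroup.lift g) := by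
      rw [← MonoidHom.range_eq_top, FreeGroup.range_lift_eq_closure, hgen]
    have hle : (FreeGroup.lift g).ker ≤
        (FreeGroup.lift (fun i => Multiplicative.ofAdd (χ i))).ker := by
      intro w hw
      rw [MonoidHom.mem_ker] at hw ⊢
      have h1 : mono g (Multiplicative.toAdd (CENT_e n w)) ∈ commutator G := by
        rw [← Abelianization.ker_of, MonoidHom.mem_ker, CENT_mono, ofAdd_toAdd, ← CENT_A, hw,
          map_one]
      have h2 := hcase _ h1
      rw [CENT_B]
      show Multiplicative.ofAdd (∑ i, χ i * ((Multiplicative.toAdd (CENT_e n w) i : ℤ) : ℝ)) = 1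
      rw [h2, ofAdd_zero]
    let X : G →* Multiplicative ℝ := (FreeGroup.lift g).liftOfSurjective hsurj
      ⟨FreeGroup.lift (fun i => Multiplicative.ofAdd (χ i)), hle⟩
    have hX : ∀ w, X (FreeGroup.lift g w) =
        FreeGroup.lift (fun i => Multiplicative.ofAdd (χ i)) w := by
      intro w
      exact MonoidHom.liftOfRightInverse_comp_apply _ _ (Function.rightInverse_surjInv hsurj) _ w
    have hXg : ∀ i, ht X (g i) = χ i := by
      intro i
      have h := hX (FreeGroup.of i)
      rw [FreeGroup.lift_apply_of, FreeGroup.lift_apply_of] at h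
      unfold ht
      rw [h]
      rfl
    have hXne : ∃ x, ht X x ≠ 0 := by
      obtain ⟨i, hi⟩ := Function.ne_iff.1 hχ
      exact ⟨g i, by rw [hXg i]; exact hi⟩
    obtain ⟨C, hC | hC⟩ := hAM X hXne
    · obtain ⟨E, hE1, hE2⟩ := hHALF G n g hgen hmet X C hXne hC
      exact hNAK G n g hgen hmet X χ hXg hXne E hE1 hE2
    · have hinv : ∀ x, ht X⁻¹ x = - ht X x := by
        intro x
        unfold ht
        rw [MonoidHom.inv_apply]
        rfl
      have hXne' : ∃ x, ht X⁻¹ x ≠ 0 := by
        obtain ⟨x, hx⟩ := hXne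
        exact ⟨x, by rw [hinv]; exact neg_ne_zero.2 hx⟩
      have hC' : ∀ a ∈ commutator G, ∃ w, ev g w = a ∧ ∀ p, p <+: w → -C ≤ ht X⁻¹ (ev g p) := by
        intro a ha
        obtain ⟨w, hw, hp⟩ := hC a ha
        refine ⟨w, hw, fun p hpw => ?_⟩
        rw [hinv]
        have := hp p hpw
        linarith
      obtain ⟨E, hE1, hE2⟩ := hHALF G n g hgen hmet X⁻¹ C hXne' hC'
      obtain ⟨l, hl1, hl2⟩ := hNAK G n g hgen hmet X⁻¹ (-χ) (fun i => by
        rw [hinv, hXg]; rfl) hXne' E hE1 hE2
      refine ⟨l, ?_, hl2⟩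
      have hneg : ∀ x : Vec n × Bool, ∑ i, (-χ) i * (x.1 i : ℝ) = - ∑ i, χ i * (x.1 i : ℝ) := by
        intro x
        rw [← Finset.sum_neg_distrib]
        apply Finset.sum_congr rfl
        intro i _
        simp
      rcases hl1 with h | h
      · right
        intro x hx
        have := h x hx
        rw [hneg] at this
        linarith
      · left
        intro x hx
        have := h x hx
        rw [hneg] at this
        linarith

theorem CENS_ev {G H : Type} [Group G] [Group H] (φ : G →* H) {n : ℕ} (g : Fin n → G)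
    (w : List (Fin n × Bool)) : ev (fun i => φ (g i)) w = φ (ev g w) := by
  unfold ev
  rw [map_list_prod, List.map_map]
  congr 1
  apply List.map_congr_left
  intro y _
  simp only [Function.comp_apply, pw]
  split_ifs <;> simp

theorem CENS_comm {G H : Type} [Group G] [Group H] (φ : G →* H) (hφ : Function.Surjective φ)
    (q : H) (hq : q ∈ commutator H) : ∃ a ∈ commutator G, φ a = q := by
  have h : commutator H = (commutator G).map φ := by
    rw [commutator_def, commutator_def, Subgroup.map_commutator, Subgroup.map_top_of_surjective φ hφ]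
  rw [h] at hq
  obtain ⟨a, ha, rfl⟩ := hq
  exact ⟨a, ha, rfl⟩

theorem t_CENS (hAMAS : S_AMAS) (hHALF : S_HALF) (hNAK : S_NAK) : S_CENS := by
  intro G _ n g R hR hker hgen hsol χ hχ
  have hsurj : Function.Surjective (QuotientGroup.mk' (D2 G)) := QuotientGroup.mk'_surjective _
  have hgenQ : Subgroup.closure (Set.range fun i => (QuotientGroup.mk (g i) : G ⧸ D2 G)) = ⊤ := by
    have h1 : (Set.range fun i => (QuotientGroup.mk (g i) : G ⧸ D2 G)) =
        (QuotientGroup.mk' (D2 G)) '' Set.range g := by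
      rw [← Set.range_comp]
      rfl
    rw [h1, ← MonoidHom.map_closure, hgen]
    exact Subgroup.map_top_of_surjective _ hsurj
  have hmetQ : ∀ x ∈ commutator (G ⧸ D2 G), ∀ y ∈ commutator (G ⧸ D2 G), x * y = y * x := by
    intro x hx y hy
    obtain ⟨a, ha, rfl⟩ := CENS_comm _ hsurj x hx
    obtain ⟨b, hb, rfl⟩ := CENS_comm _ hsurj y hy
    have h1 : (a * b) * (b * a)⁻¹ ∈ D2 G := by
      have h2 := Subgroup.commutator_mem_commutator ha hb
      rw [commutatorElement_def] at h2
      simpa [mul_assoc] using h2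
    rw [← map_mul, ← map_mul]
    rw [← mul_inv_eq_one, ← map_inv, ← map_mul]
    exact (QuotientGroup.eq_one_iff _).2 h1
  refine CENS_core hHALF hNAK (G ⧸ D2 G) n _ hgenQ hmetQ χ hχ ?_
  intro X hX
  have hX' : ∃ x, ht (X.comp (QuotientGroup.mk' (D2 G))) x ≠ 0 := by
    obtain ⟨q, hq⟩ := hX
    obtain ⟨a, rfl⟩ := hsurj q
    exact ⟨a, hq⟩
  obtain ⟨C, hC⟩ := hAMAS G n g R hR hker hgen hsol (X.comp (QuotientGroup.mk' (D2 G))) hX'
  refine ⟨C, ?_⟩
  rcases hC with hC | hC
  · left
    intro q hq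
    obtain ⟨a, ha, rfl⟩ := CENS_comm _ hsurj q hq
    obtain ⟨w, hw, hp⟩ := hC a ha
    refine ⟨w, ?_, fun p hpw => ?_⟩
    · rw [← hw]; exact CENS_ev (QuotientGroup.mk' (D2 G)) g w
    · have h := hp p hpw
      have h2 : ev (fun i => (QuotientGroup.mk (g i) : G ⧸ D2 G)) p =
        QuotientGroup.mk' (D2 G) (ev g p) := CENS_ev (QuotientGroup.mk' (D2 G)) g p
      rw [h2]
      exact h
  · right
    intro q hq
    obtain ⟨a, ha, rfl⟩ := CENS_comm _ hsurj q hq
    obtain ⟨w, hw, hp⟩ := hC a ha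
    refine ⟨w, ?_, fun p hpw => ?_⟩
    · rw [← hw]; exact CENS_ev (QuotientGroup.mk' (D2 G)) g w
    · have h := hp p hpw
      have h2 : ev (fun i => (QuotientGroup.mk (g i) : G ⧸ D2 G)) p =
        QuotientGroup.mk' (D2 G) (ev g p) := CENS_ev (QuotientGroup.mk' (D2 G)) g p
      rw [h2]
      exact h

end H114MF
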