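import Pool.Agent.H114.MF.Defs2
import Pool.Agent.H114.MB.CMPW

set_option autoImplicit false

/-! Task CMPS: certificates from tameness. The proof is the one of `H114MB.t_CMPW` (helper269). -/

namespace H114MF

open H114MB

open CMPWaux in
theorem t_CMPS (hCPT : S_CPT) : S_CMPS := by
  classical
  intro G _ n f hf hgen hab htame
  set g : Fin n → G := fun i => f i with hg
  let L : Set (List (Vec n × Bool)) := {l | ∀ a ∈ commutator G,
    a = (l.map fun x => (mono g x.1)⁻¹ * pw a x.2 * mono g x.1).prod}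
  obtain ⟨Λ0, N, U, hN, hU, hL, hlen, hdir⟩ := hCPT n L (by
    intro χ hχ
    obtain ⟨l, h1, h2⟩ := htame χ hχ
    exact ⟨l, h2, h1⟩)
  set s : ℤ := (n : ℤ) * ((N : ℤ) * (U : ℤ) ^ 2) ^ 2 + 1 with hs
  have hspos : 0 < s := by positivity
  let K : List Wd := (ball_finite n s).toFinset.toList.map mw
  have hKmem : ∀ w, w ∈ K ↔ ∃ e : Vec n, ip e e < s ∧ mw e = w := by
    intro w
    simp only [K, List.mem_map, Finset.mem_toList, Set.Finite.mem_toFinset, Set.mem_ofPred_eq]
  have hKlt : ∀ w ∈ K, ∀ y ∈ w, y.1 < n := by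
    intro w hw
    obtain ⟨e, _, rfl⟩ := (hKmem w).1 hw
    exact mw_lt e
  let A : List Wd := Aw n
  let Λ : List (List (Wd × Bool)) := Λ0.map (List.map fun x => (mw x.1, x.2))
  let B1 : List Wd := K.flatMap fun w => K.flatMap fun w' => A.map fun a =>
    cw a w ++ winv (cw a w')
  let B2 : List Wd := K.flatMap fun w => K.flatMap fun w' => (List.range n).flatMap fun i =>
    [true, false].flatMap fun c => A.map fun a => cw a (w ++ [(i, c)]) ++ winv (cw a w')
  let B3 : List Wd := K.flatMap fun w => A.flatMap fun a => A.map fun b =>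
    a ++ cw b w ++ winv a ++ winv (cw b w)
  let B4 : List Wd := Λ.flatMap fun l => A.map fun a =>
    winv a ++ (l.flatMap fun x => cw (if x.2 = true then a else winv a) x.1)
  let T : List Wd := (B1 ++ B2 ++ B3 ++ B4).filter fun w => decide (evw f w = 1)
  have hTmem : ∀ w, w ∈ T ↔ (w ∈ B1 ∨ w ∈ B2 ∨ w ∈ B3 ∨ w ∈ B4) ∧ evw f w = 1 := by
    intro w
    simp only [T, List.mem_filter, List.mem_append, decide_eq_true_eq, or_assoc]
  have hsame : ∀ (w w' : Wd), (∀ y ∈ w, y.1 < n) → (∀ y ∈ w', y.1 < n) → abeq n w w' →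
      ∀ a ∈ A, evw f (cw a w ++ winv (cw a w')) = 1 := by
    intro w w' hw hw' h a ha
    rw [evw_append, evw_winv, evw_cw, evw_cw,
      conj_eq hab (evw_Aw f ha) (same_class n f w w' hw hw' h), mul_inv_cancel]
  refine ⟨T, K, Λ, A, N, U, ⟨⟨hN, hU, ?_⟩, hKlt, ?_, ?_, ?_, ?_, ?_, ?_, ?_, ?_⟩, ?_⟩
  · -- the empty word
    refine (hKmem _).2 ⟨0, ?_, mw_zero⟩
    have : ip (0 : Vec n) 0 = 0 := by simp [ip]
    rw [this]
    exact hspos
  · -- lengths
    intro l hl x hx
    simp only [Λ, List.mem_map] at hl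
    obtain ⟨l0, hl0, rfl⟩ := hl
    rw [List.mem_map] at hx
    obtain ⟨x0, hx0, rfl⟩ := hx
    refine ⟨?_, mw_lt x0.1⟩
    have h1 := hlen l0 hl0 x0 hx0
    rw [← mw_length] at h1
    exact_mod_cast h1
  · -- commutators
    intro i hi j hj c _ d _
    exact mem_Aw.2 ⟨i, hi, j, hj, c, d, rfl⟩
  · -- neighbours
    intro w hw i hi c _
    have hw' : ∀ y ∈ w ++ [(i, c)], y.1 < n := by
      intro y hy
      rw [List.mem_append, List.mem_singleton] at hy
      rcases hy with hy | rfl
      · exact hKlt w hw y hy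
      · exact hi
    have h1 := nrm_eq n _ hw'
    by_cases h : ip (wvec n (w ++ [(i, c)])) (wvec n (w ++ [(i, c)])) < s
    · right
      refine ⟨mw (wvec n (w ++ [(i, c)])), (hKmem _).2 ⟨_, h, rfl⟩, ?_⟩
      apply abeq_of
      rw [wvec_mw]
    · left
      rw [← h1] at h
      rw [not_lt, hs] at h
      exact_mod_cast h
  · -- equal vectors
    intro w hw w' hw' h a ha
    refine (hTmem _).2 ⟨Or.inl ?_, hsame w w' (hKlt w hw) (hKlt w' hw') h a ha⟩
    simp only [B1, List.mem_flatMap, List.mem_map]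
    exact ⟨w, hw, w', hw', a, ha, rfl⟩
  · -- steps
    intro w hw w' hw' i hi c hc h a ha
    have hw'' : ∀ y ∈ w ++ [(i, c)], y.1 < n := by
      intro y hy
      rw [List.mem_append, List.mem_singleton] at hy
      rcases hy with hy | rfl
      · exact hKlt w hw y hy
      · exact hi
    refine (hTmem _).2 ⟨Or.inr (Or.inl ?_), hsame _ w' hw'' (hKlt w' hw') h a ha⟩
    simp only [B2, List.mem_flatMap, List.mem_map, List.mem_range]
    exact ⟨w, hw, w', hw', i, hi, c, hc, a, ha, rfl⟩
  · -- commuting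
    intro w hw a ha b hb
    refine (hTmem _).2 ⟨Or.inr (Or.inr (Or.inl ?_)), ?_⟩
    · simp only [B3, List.mem_flatMap, List.mem_map]
      exact ⟨w, hw, a, ha, b, hb, rfl⟩
    · rw [evw_append, evw_append, evw_append, evw_winv, evw_winv, evw_cw,
        hab _ (evw_Aw f ha) _ (conj_mem' (evw_Aw f hb) (evw f w))]
      group
  · -- centralizers
    intro l hl a ha
    refine (hTmem _).2 ⟨Or.inr (Or.inr (Or.inr ?_)), ?_⟩
    · simp only [B4, List.mem_flatMap, List.mem_map]
      exact ⟨l, hl, a, ha, rfl⟩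
    · simp only [Λ, List.mem_map] at hl
      obtain ⟨l0, hl0, rfl⟩ := hl
      have h1 := hL l0 hl0 (evw f a) (evw_Aw f ha)
      have h2 : evw f ((l0.map fun x => (mw x.1, x.2)).flatMap fun x =>
          cw (if x.2 = true then a else winv a) x.1) =
          (l0.map fun x => (mono g x.1)⁻¹ * pw (evw f a) x.2 * mono g x.1).prod := by
        rw [List.flatMap_def, evw_flatten, List.map_map, List.map_map]
        congr 1
        apply List.map_congr_left
        intro x _
        simp only [Function.comp_apply]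
        rw [evw_cw, evw_mw]
        congr 2
        obtain ⟨x1, x2⟩ := x
        cases x2 <;> simp [pw, evw_winv]
      rw [evw_append, evw_winv, h2, ← h1, inv_mul_cancel]
  · -- directions
    intro w hw h1 h2
    have hwlt := hKlt w hw
    obtain ⟨l0, hl0, h3⟩ := hdir (wvec n w) (by
      intro i
      have := h1 i i.2
      rw [abs_le]
      unfold wvec
      omega) (by
      obtain ⟨i, hi, h⟩ := h2
      have h4 := h1 i hi
      refine ⟨⟨i, hi⟩, ?_⟩
      unfold wvec
      simp only
      rcases h with h | h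
      · rw [abs_of_nonneg (by omega)]
        omega
      · rw [abs_of_nonpos (by omega)]
        omega)
    refine ⟨l0.map fun x => (mw x.1, x.2), ?_, ?_⟩
    · simp only [Λ, List.mem_map]
      exact ⟨l0, hl0, rfl⟩
    · rcases h3 with h3 | h3
      · left
        intro x hx
        rw [List.mem_map] at hx
        obtain ⟨x0, hx0, rfl⟩ := hx
        have h4 := h3 x0 hx0
        have h5 := ip_words n (mw x0.1) w (mw_lt x0.1)
        rw [wvec_mw] at h5
        simp only
        omega
      · right
        intro x hx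
        rw [List.mem_map] at hx
        obtain ⟨x0, hx0, rfl⟩ := hx
        have h4 := h3 x0 hx0
        have h5 := ip_words n (mw x0.1) w (mw_lt x0.1)
        rw [wvec_mw] at h5
        simp only
        omega
  · intro w hw
    exact ((hTmem w).1 hw).2

end H114MF
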