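import Mathlib
import Pool.Agent.H114.MB.Defs

/-!
# MP_faf39d_al: recognising metabelian groups

Definitions and statements (`S_...`) of the parts of the proof.
-/

set_option autoImplicit false

namespace H114MF

open H114MB

/-- the second derived subgroup -/
abbrev D2 (G : Type) [Group G] : Subgroup G := ⁅commutator G, commutator G⁆

/-- commutator of two elements -/
def cm {G : Type} [Group G] (a b : G) : G := a * b * a⁻¹ * b⁻¹

/-- `x` survives in a finite quotient -/
def Fat (G : Type) [Group G] (x : G) : Prop :=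
  ∃ K : Subgroup G, K.Normal ∧ K.index ≠ 0 ∧ x ∉ K

/-! ### residual finiteness -/

/-- NUL: a field which is finitely generated as a ring is finite -/
def S_NUL : Prop := ∀ (K : Type) [Field K], Algebra.FiniteType ℤ K → Finite K

/-- RFM: finitely generated modules over finitely generated commutative rings are residually
finite -/
def S_RFM : Prop := ∀ (R M : Type) [CommRing R] [AddCommGroup M] [Module R M],
  Algebra.FiniteType ℤ R → Module.Finite R M → ∀ x : M, x ≠ 0 →
  ∃ N : Submodule R M, x ∉ N ∧ Finite (M ⧸ N)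

/-- FBA: finitely generated finite-by-abelian groups are residually finite -/
def S_FBA : Prop := ∀ (G : Type) [Group G], Group.FG G → Finite (commutator G) →
  ∀ x : G, x ≠ 1 → Fat G x

/-- ACT: an abelian normal subgroup centralized by the commutator subgroup is a module over a
finitely generated commutative ring -/
def S_ACT : Prop := ∀ (G : Type) [Group G] (A : Subgroup G), A.Normal → Group.FG G →
  (∀ a ∈ A, ∀ b ∈ A, a * b = b * a) → (∀ g ∈ commutator G, ∀ a ∈ A, g * a = a * g) →
  ∃ (R M : Type) (_ : CommRing R) (_ : AddCommGroup M) (_ : Module R M) (f : A → M),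
    Algebra.FiniteType ℤ R ∧ Function.Bijective f ∧ (∀ a b, f (a * b) = f a + f b) ∧
    (∀ K : Subgroup G, K.Normal → K ≤ A → ∃ N : Submodule R M, ∀ a : A, f a ∈ N ↔ (a : G) ∈ K) ∧
    (∀ N : Submodule R M, ∃ K : Subgroup G, K.Normal ∧ K ≤ A ∧ ∀ a : A, f a ∈ N ↔ (a : G) ∈ K)

/-- HALL: finitely generated metabelian groups are residually finite -/
def S_HALL : Prop := ∀ (G : Type) [Group G], Group.FG G →
  (∀ x ∈ commutator G, ∀ y ∈ commutator G, x * y = y * x) → ∀ x : G, x ≠ 1 → Fat G x

/-- FI: residual finiteness passes to finite extensions -/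
def S_FI : Prop := ∀ (G : Type) [Group G] (H : Subgroup G), H.index ≠ 0 →
  (∀ x : H, x ≠ 1 → Fat H x) → ∀ x : G, x ≠ 1 → Fat G x

/-- SIMP: minimal normal subgroups centralized by the commutator subgroup are finite -/
def S_SIMP : Prop := ∀ (E : Type) [Group E] (S : Subgroup E), Group.FG E → S.Normal →
  (∀ a ∈ S, ∀ b ∈ S, a * b = b * a) → (∀ g ∈ commutator E, ∀ a ∈ S, g * a = a * g) →
  (∀ K : Subgroup E, K.Normal → K ≤ S → K = ⊥ ∨ K = S) → Finite S

/-- MAXN: existence of maximal proper normal subgroups -/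
def S_MAXN : Prop := ∀ (E : Type) [Group E] (A : Subgroup E), A.Normal →
  (∃ T : Finset E, A = Subgroup.normalClosure (T : Set E)) → ∀ B : Subgroup E, B.Normal → B < A →
  ∃ M : Subgroup E, M.Normal ∧ B ≤ M ∧ M < A ∧
    ∀ K : Subgroup E, K.Normal → M < K → K ≤ A → K = A

/-! ### periodicity of the commutator form -/

/-- PER: the action on the commutator form is periodic -/
def S_PER : Prop := ∀ (E : Type) [Group E] (n : ℕ) (g : Fin n → E) (s : ℤ)
  (Λ : Set (List (Vec n × Bool))), Subgroup.closure (Set.range g) = ⊤ → Geo n s Λ →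
  (∀ z ∈ D2 E, ∀ a ∈ commutator E, z * a = a * z) → Finite (D2 E) →
  (∀ l ∈ Λ, ∀ a ∈ commutator E, ∃ z ∈ D2 E,
    a = (l.map fun x => (mono g x.1)⁻¹ * pw a x.2 * mono g x.1).prod * z) →
  ∃ N : ℕ, 0 < N ∧ ∀ (i : Fin n), ∀ a ∈ commutator E, ∀ b ∈ commutator E,
    cm a ((g i ^ N)⁻¹ * b * g i ^ N) = cm a b

/-- FINQ: the centre of the commutator subgroup has finite index -/
def S_FINQ : Prop := ∀ (E : Type) [Group E] (n : ℕ) (g : Fin n → E),
  Subgroup.closure (Set.range g) = ⊤ →
  (∀ z ∈ D2 E, ∀ a ∈ commutator E, z * a = a * z) → Finite (D2 E) →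
  (∃ N : ℕ, 0 < N ∧ ∀ (i : Fin n), ∀ a ∈ commutator E, ∀ b ∈ commutator E,
    cm a ((g i ^ N)⁻¹ * b * g i ^ N) = cm a b) →
  (commutator E ⊓ Subgroup.centralizer (commutator E : Set E)).relIndex (commutator E) ≠ 0

/-- MVI: a finitely generated group is residually finite if the centre of its commutator subgroup
has finite index in the commutator subgroup -/
def S_MVI : Prop := ∀ (E : Type) [Group E], Group.FG E →
  (commutator E ⊓ Subgroup.centralizer (commutator E : Set E)).relIndex (commutator E) ≠ 0 →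
  ∀ x : E, x ≠ 1 → Fat E x

/-- CENQ: centralizers modulo the second derived subgroup -/
def S_CENQ : Prop := ∀ (G : Type) [Group G] (n : ℕ) (g : Fin n → G)
  (R : Set (FreeGroup (Fin n))), R.Finite → (FreeGroup.lift g).ker = Subgroup.normalClosure R →
  Subgroup.closure (Set.range g) = ⊤ →
  (∃ T : Finset G, D2 G = Subgroup.normalClosure (T : Set G)) →
  ∃ (Λ : Set (List (Vec n × Bool))) (s : ℤ), Geo n s Λ ∧
    ∀ l ∈ Λ, ∀ a ∈ commutator G, ∃ z ∈ D2 G,
      a = (l.map fun x => (mono g x.1)⁻¹ * pw a x.2 * mono g x.1).prod * z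

/-- FINQUO: a non-metabelian finite quotient -/
def S_MAIN : Prop := ∀ (G : Type) [Group G] (n : ℕ) (g : Fin n → G)
  (R : Set (FreeGroup (Fin n))), R.Finite → (FreeGroup.lift g).ker = Subgroup.normalClosure R →
  Subgroup.closure (Set.range g) = ⊤ →
  (∃ T : Finset G, D2 G = Subgroup.normalClosure (T : Set G)) →
  ⁅D2 G, commutator G⁆ ≠ D2 G →
  ∃ K : Subgroup G, K.Normal ∧ K.index ≠ 0 ∧ ¬ D2 G ≤ K

/-! ### the algorithm -/

/-- action of the letter `y` on the point `k`; `σ` lists the permutations and their inverses -/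
def act (n : ℕ) (σ : List (List ℕ × List ℕ)) (y : ℕ × Bool) (k : ℕ) : ℕ :=
  if y.1 < n then
    (if y.2 = true then (σ.getD y.1 ([], [])).1.getD k k else (σ.getD y.1 ([], [])).2.getD k k)
  else k

/-- action of a word on the point `k` -/
def run (n : ℕ) (σ : List (List ℕ × List ℕ)) (w : Wd) (k : ℕ) : ℕ :=
  w.foldr (fun y j => act n σ y j) k

/-- commutator of words -/
def wcom (u v : Wd) : Wd := u ++ v ++ winv u ++ winv v

/-- certificates for non-metabelian finite quotients -/
abbrev FC := (ℕ × List (List ℕ × List ℕ)) × ((Wd × Wd) × (Wd × Wd))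

/-- `c` describes a finite permutation representation of the group presented by `p` whose image
is not metabelian -/
def FQ (p : ℕ × List Wd) (c : FC) : Prop :=
  (∀ i < p.1, ∀ k < c.1.1, act p.1 c.1.2 (i, true) k < c.1.1 ∧ act p.1 c.1.2 (i, false) k < c.1.1 ∧
    act p.1 c.1.2 (i, false) (act p.1 c.1.2 (i, true) k) = k ∧
    act p.1 c.1.2 (i, true) (act p.1 c.1.2 (i, false) k) = k) ∧
  (∀ r ∈ p.2, ∀ k < c.1.1, run p.1 c.1.2 r k = k) ∧
  ∃ k < c.1.1, run p.1 c.1.2 (wcom (wcom c.2.1.1 c.2.1.2) (wcom c.2.2.1 c.2.2.2)) k ≠ k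

/-- FQP: checking is primitive recursive -/
def S_FQP : Prop := PrimrecPred fun q : (ℕ × List Wd) × FC => FQ q.1 q.2

/-- SEM: meaning of the certificates -/
def S_SEM : Prop := ∀ p : ℕ × List Wd, (∃ c, FQ p c) ↔
  ∃ K : Subgroup (PresentedGroup (relset p)), K.Normal ∧ K.index ≠ 0 ∧
    ¬ D2 (PresentedGroup (relset p)) ≤ K

/-- MRG: running two semi-decision procedures in parallel -/
def S_MRG : Prop := ∀ (α : Type) [Primcodable α] (P Q : α → Prop), REPred P → REPred Q →
  (∀ a, ¬ (P a ∧ Q a)) → ∃ Φ : α →. Bool, Partrec Φ ∧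
    (∀ a, true ∈ Φ a ↔ P a) ∧ (∀ a, false ∈ Φ a ↔ Q a)

/-- FPR: the presented group is generated by its generators and presented by its relators -/
def S_FPR : Prop := ∀ p : ℕ × List Wd, ∃ (g : Fin p.1 → PresentedGroup (relset p)),
  (relset p).Finite ∧ (FreeGroup.lift g).ker = Subgroup.normalClosure (relset p) ∧
  Subgroup.closure (Set.range g) = ⊤

end H114MF
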