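import Mathlib
import Pool.Agent.H114.MB.Defs
import Pool.Agent.H114.MF.Defs

/-!
# MP_faf39d_al: recognising metabelian groups, second part

The theorem of Bieri and Strebel: the metabelian quotient `G/G''` of a finitely presented solvable
group is finitely presented.
-/

set_option autoImplicit false

namespace H114MF

open H114MB

/-- alternating lists of elements of `U \ V` and `V \ U`; `b = true` if the first one is in `U` -/
def Alt {G : Type} [Group G] (U V : Subgroup G) : Bool → List G → Prop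
  | _, [] => True
  | true, x :: l => x ∈ U ∧ x ∉ V ∧ Alt U V false l
  | false, x :: l => x ∈ V ∧ x ∉ U ∧ Alt U V true l

/-- PUSHA: normal forms in the amalgam -/
def S_PUSHA : Prop := ∀ (G : Type) [Group G] (U V : Subgroup G),
  ∃ (P : Type) (_ : Group P) (iU : U →* P) (iV : V →* P) (ι : G → P),
    (∀ u : U, ι u = iU u) ∧ (∀ v : V, ι v = iV v) ∧
    ∀ (b : Bool) (l : List G), l ≠ [] → Alt U V b l → ∀ w ∈ U ⊓ V, (l.map ι).prod ≠ ι w

/-- SOLV: solvable amalgams -/
def S_SOLV : Prop := ∀ (G : Type) [Group G] (U V : Subgroup G), Group.IsSolvable G → U ⊔ V = ⊤ →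
  (∀ (b : Bool) (l : List G), l ≠ [] → Alt U V b l → l.prod ∉ U ⊓ V) →
  U ≤ V ∨ V ≤ U ∨ ((∀ x ∈ U, x ∉ V → ∀ y ∈ U, y ∉ V → x⁻¹ * y ∈ V) ∧
    (∀ x ∈ V, x ∉ U → ∀ y ∈ V, y ∉ U → x⁻¹ * y ∈ U))

/-- AMAS: the commutator subgroup of a finitely presented solvable group is carried by a half
space -/
def S_AMAS : Prop := ∀ (G : Type) [Group G] (n : ℕ) (g : Fin n → G)
  (R : Set (FreeGroup (Fin n))), R.Finite → (FreeGroup.lift g).ker = Subgroup.normalClosure R →
  Subgroup.closure (Set.range g) = ⊤ → Group.IsSolvable G →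
  ∀ X : G →* Multiplicative ℝ, (∃ x, ht X x ≠ 0) → ∃ C : ℝ,
    (∀ a ∈ commutator G, ∃ w, ev g w = a ∧ ∀ p, p <+: w → -C ≤ ht X (ev g p)) ∨
    (∀ a ∈ commutator G, ∃ w, ev g w = a ∧ ∀ p, p <+: w → ht X (ev g p) ≤ C)

/-- the centralizers exist in all directions -/
def Tame {Q : Type} [Group Q] {n : ℕ} (g : Fin n → Q) : Prop :=
  ∀ χ : Fin n → ℝ, χ ≠ 0 → ∃ l : List (Vec n × Bool),
    ((∀ x ∈ l, 0 < ∑ i, χ i * (x.1 i : ℝ)) ∨ (∀ x ∈ l, ∑ i, χ i * (x.1 i : ℝ) < 0)) ∧
    ∀ a ∈ commutator Q,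
      a = (l.map fun x => (mono g x.1)⁻¹ * pw a x.2 * mono g x.1).prod

/-- CENS: the metabelian quotient of a finitely presented solvable group is tame -/
def S_CENS : Prop := ∀ (G : Type) [Group G] (n : ℕ) (g : Fin n → G)
  (R : Set (FreeGroup (Fin n))), R.Finite → (FreeGroup.lift g).ker = Subgroup.normalClosure R →
  Subgroup.closure (Set.range g) = ⊤ → Group.IsSolvable G →
  Tame (fun i => (QuotientGroup.mk (g i) : G ⧸ D2 G))

/-- CMPS: certificates from tameness -/
def S_CMPS : Prop := ∀ (Q : Type) [Group Q] (n : ℕ) (f : ℕ → Q),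
  (∀ i, n ≤ i → f i = 1) → Subgroup.closure (Set.range f) = ⊤ →
  (∀ x ∈ commutator Q, ∀ y ∈ commutator Q, x * y = y * x) →
  Tame (fun i : Fin n => f i) →
  ∃ (T K : List Wd) (Λ : List (List (Wd × Bool))) (A : List Wd) (N U : ℕ),
    Check n T K Λ A N U ∧ ∀ w ∈ T, evw f w = 1

/-- BS: the second derived subgroup is finitely generated as a normal subgroup -/
def S_BS : Prop := ∀ (G : Type) [Group G] (n : ℕ) (g : Fin n → G)
  (R : Set (FreeGroup (Fin n))), R.Finite → (FreeGroup.lift g).ker = Subgroup.normalClosure R →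
  Subgroup.closure (Set.range g) = ⊤ → Group.IsSolvable G →
  ∃ T : Finset G, D2 G = Subgroup.normalClosure (T : Set G)

end H114MF
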