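import Mathlib
import Pool.Agent.H114.MB.Defs
import Pool.Agent.H114.MF.Defs

/-!
# MP_faf39d_al: recognising metabelian groups, third part

The second derived subgroup has a finite non-trivial quotient.
-/

set_option autoImplicit false

namespace H114MF

open H114MB

/-- PERB: as PER, for a subgroup `B` of the commutator subgroup -/
def S_PERB : Prop := ∀ (E : Type) [Group E] (n : ℕ) (g : Fin n → E) (s : ℤ)
  (Λ : Set (List (Vec n × Bool))) (B : Subgroup E), Subgroup.closure (Set.range g) = ⊤ →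
  Geo n s Λ → B.Normal → B ≤ commutator E → D2 E ≤ B →
  (∀ z ∈ D2 E, ∀ a ∈ B, z * a = a * z) → Finite (D2 E) →
  (∀ l ∈ Λ, ∀ a ∈ B, ∃ z ∈ D2 E,
    a = (l.map fun x => (mono g x.1)⁻¹ * pw a x.2 * mono g x.1).prod * z) →
  ∃ N : ℕ, 0 < N ∧ ∀ (i : Fin n), ∀ a ∈ B, ∀ b ∈ B,
    cm a ((g i ^ N)⁻¹ * b * g i ^ N) = cm a b

/-- FINQB: as FINQ, for a subgroup `B` of the commutator subgroup -/
def S_FINQB : Prop := ∀ (E : Type) [Group E] (n : ℕ) (g : Fin n → E) (B : Subgroup E),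
  Subgroup.closure (Set.range g) = ⊤ → B.Normal → B ≤ commutator E → D2 E ≤ B →
  (∀ z ∈ D2 E, ∀ a ∈ B, z * a = a * z) → Finite (D2 E) →
  (∃ T : Finset E, B = Subgroup.normalClosure (T : Set E)) →
  (∃ N : ℕ, 0 < N ∧ ∀ (i : Fin n), ∀ a ∈ B, ∀ b ∈ B,
    cm a ((g i ^ N)⁻¹ * b * g i ^ N) = cm a b) →
  (B ⊓ Subgroup.centralizer (B : Set E)).relIndex B ≠ 0

/-- MVIB: as MVI, for any abelian normal subgroup -/
def S_MVIB : Prop := ∀ (E : Type) [Group E] (Z : Subgroup E), Group.FG E → Z.Normal →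
  (∀ x ∈ Z, ∀ y ∈ Z, x * y = y * x) → Z.relIndex (commutator E) ≠ 0 →
  ∀ x : E, x ≠ 1 → Fat E x

/-- NOET: normal subgroups of a finitely generated metabelian group -/
def S_NOET : Prop := ∀ (G : Type) [Group G], Group.FG G →
  (∀ x ∈ commutator G, ∀ y ∈ commutator G, x * y = y * x) → ∀ K : Subgroup G, K.Normal →
  K ≤ commutator G → ∃ T : Finset G, K = Subgroup.normalClosure (T : Set G)

/-- MAINB: a non-metabelian finite quotient -/
def S_MAINB : Prop := ∀ (G : Type) [Group G] (n : ℕ) (g : Fin n → G)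
  (R : Set (FreeGroup (Fin n))), R.Finite → (FreeGroup.lift g).ker = Subgroup.normalClosure R →
  Subgroup.closure (Set.range g) = ⊤ → Group.IsSolvable G →
  (∃ T : Finset G, D2 G = Subgroup.normalClosure (T : Set G)) →
  (∃ L : Subgroup G, L.Normal ∧ L < D2 G ∧ L.relIndex (D2 G) ≠ 0) →
  ∃ K : Subgroup G, K.Normal ∧ K.index ≠ 0 ∧ ¬ D2 G ≤ K

end H114MF
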