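import Mathlib
import Pool.Agent.H114.MF.Defs

/-!
# MP_faf39d_al: recognising metabelian groups, fourth part
-/

set_option autoImplicit false

namespace H114MF

/-- VNA: minimal normal subgroups of finitely generated nilpotent-by-abelian-by-finite groups are
finite -/
def S_VNA : Prop := ∀ (E : Type) [Group E] (S N : Subgroup E), Group.FG E → S.Normal →
  (∀ a ∈ S, ∀ b ∈ S, a * b = b * a) →
  (∀ K : Subgroup E, K.Normal → K ≤ S → K = ⊥ ∨ K = S) →
  N.Normal → N.index ≠ 0 → Group.IsNilpotent (⁅N, N⁆ : Subgroup E) → Finite S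

end H114MF
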