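import Pool.Agent.H114.MF.Defs

set_option autoImplicit false

namespace H114MF

open H114MB

/-- finitely generated commutative groups are residually finite -/
theorem FBA_comm (C : Type) [CommGroup C] (hC : Group.FG C) (x : C) (hx : x ≠ 1) :
    ∃ N : Subgroup C, N.index ≠ 0 ∧ x ∉ N := by
  obtain ⟨N, -, hN⟩ := zorn_le_nonempty₀ {N : Subgroup C | x ∉ N} (by
    intro c hc hch N hNc
    refine ⟨sSup c, ?_, fun z hz => le_sSup hz⟩
    intro hmem
    rw [Subgroup.mem_sSup_of_directedOn ⟨N, hNc⟩ hch.directedOn] at hmem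
    obtain ⟨s, hs, hxs⟩ := hmem
    exact hc hs hxs) ⊥ (by
    intro h
    exact hx (Subgroup.mem_bot.1 h))
  have hxN : x ∉ N := hN.prop
  refine ⟨N, ?_, hxN⟩
  have key : ∀ H : Subgroup (C ⧸ N), H ≠ ⊥ → (x : C ⧸ N) ∈ H := by
    intro H hH
    by_contra hcon
    apply hH
    have h1 : N ≤ H.comap (QuotientGroup.mk' N) := by
      intro z hz
      rw [Subgroup.mem_comap]
      have : QuotientGroup.mk' N z = 1 := (QuotientGroup.eq_one_iff z).2 hz
      rw [this]
      exact H.one_mem
    have h2 : H.comap (QuotientGroup.mk' N) ≤ N := hN.le_of_ge (y := H.comap (QuotientGroup.mk' N))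
      (by
        intro h
        exact hcon h) h1
    rw [eq_bot_iff]
    intro b hb
    obtain ⟨z, rfl⟩ := QuotientGroup.mk'_surjective N b
    have h3 : z ∈ N := h2 hb
    rw [Subgroup.mem_bot]
    exact (QuotientGroup.eq_one_iff z).2 h3
  have hx1 : (x : C ⧸ N) ≠ 1 := fun h => hxN ((QuotientGroup.eq_one_iff x).1 h)
  have htor : IsMulTorsion (C ⧸ N) := by
    intro y
    by_contra hy
    have hinj : Function.Injective (fun k : ℤ => y ^ k) := by
      rw [injective_zpow_iff_not_isOfFinOrder]
      exact hy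
    have h0 : ∀ k : ℤ, k ≠ 0 → ∃ c : ℤ, y ^ (k * c) = (x : C ⧸ N) := by
      intro k hk
      have h1 : Subgroup.zpowers (y ^ k) ≠ ⊥ := by
        rw [Ne, Subgroup.zpowers_eq_bot]
        intro h2
        apply hk
        apply hinj
        simpa using h2
      have h2 := key _ h1
      obtain ⟨c, hc⟩ := Subgroup.mem_zpowers_iff.1 h2
      exact ⟨c, by rw [zpow_mul]; exact hc⟩
    obtain ⟨c0, hc0⟩ := h0 1 one_ne_zero
    rw [one_mul] at hc0
    have hc0' : c0 ≠ 0 := by
      rintro rfl
      rw [zpow_zero] at hc0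
      exact hx1 hc0.symm
    obtain ⟨c, hc⟩ := h0 (|c0| + 1) (by positivity)
    have h3 : c0 = (|c0| + 1) * c := hinj (by simp only; rw [hc0, hc])
    have h4 : (|c0| + 1) ∣ c0 := ⟨c, h3⟩
    have h5 := Int.le_of_dvd (abs_pos.2 hc0') ((dvd_abs _ _).2 h4)
    linarith
  have : Group.FG (C ⧸ N) := inferInstance
  have : Finite (C ⧸ N) := CommGroup.finite_of_fg_isMulTorsion _ htor
  exact Subgroup.index_ne_zero_of_finite

theorem FBA_comm' (C : Type) [g : Group C] (hcomm : ∀ a b : C, a * b = b * a) (hC : Group.FG C)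
    (x : C) (hx : x ≠ 1) : ∃ N : Subgroup C, N.index ≠ 0 ∧ x ∉ N :=
  @FBA_comm C { g with mul_comm := hcomm } hC x hx

/-- FBA -/
theorem t_FBA : S_FBA := by
  intro G _ hG hfin x hx
  have := hG
  have : Finite (commutatorSet G) := by
    have := hfin
    have h1 : (commutatorSet G) ⊆ ((commutator G : Subgroup G) : Set G) := by
      rw [commutator_eq_closure]
      exact Subgroup.subset_closure
    have h2 : ((commutator G : Subgroup G) : Set G).Finite := Set.toFinite _
    exact (h2.subset h1).to_subtype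
  have hCi : (Subgroup.center G).index ≠ 0 := (Subgroup.finiteIndex_center (G := G)).index_ne_zero
  by_cases hxC : x ∈ Subgroup.center G
  · obtain ⟨N, hN, hxN⟩ := FBA_comm' (Subgroup.center G) (by
      intro a b
      apply Subtype.ext
      exact (Subgroup.mem_center_iff.1 b.2 a)) inferInstance ⟨x, hxC⟩ (by
      intro h
      exact hx (congrArg Subtype.val h))
    refine ⟨N.map (Subgroup.center G).subtype, ⟨?_⟩, ?_, ?_⟩
    · intro n hn g
      obtain ⟨z, hz, rfl⟩ := hn
      have h1 : g * (z : G) * g⁻¹ = z := by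
        have := Subgroup.mem_center_iff.1 z.2 g
        rw [this, mul_inv_cancel_right]
      show g * (z : G) * g⁻¹ ∈ _
      rw [h1]
      exact ⟨z, hz, rfl⟩
    · rw [Subgroup.index_map_subtype]
      exact mul_ne_zero hN hCi
    · rintro ⟨z, hz, hzx⟩
      apply hxN
      have : z = ⟨x, hxC⟩ := Subtype.ext hzx
      rw [← this]
      exact hz
  · exact ⟨Subgroup.center G, inferInstance, hCi, hxC⟩

end H114MF
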