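import Pool.Agent.H114.MF.Defs

set_option autoImplicit false

namespace H114MF

theorem fi_core {G : Type} [Group G] (K : Subgroup G) (hK : K.index ≠ 0) (x : G) (hx : x ∉ K) :
    Fat G x := by
  haveI : K.FiniteIndex := ⟨hK⟩
  exact ⟨K.normalCore, inferInstance, (inferInstance : K.normalCore.FiniteIndex).index_ne_zero,
    fun h => hx (K.normalCore_le h)⟩

theorem t_FI : S_FI := by
  intro G _ H hH h x hx1
  by_cases hx : x ∈ H
  · obtain ⟨K, hKn, hKi, hxK⟩ := h ⟨x, hx⟩ (fun h => hx1 (congrArg Subtype.val h))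
    refine fi_core (K.map H.subtype) ?_ x ?_
    · rw [Subgroup.index_map_subtype]
      exact mul_ne_zero hKi hH
    · rintro ⟨y, hy, hyx⟩
      apply hxK
      have : y = ⟨x, hx⟩ := Subtype.ext hyx
      rwa [this] at hy
  · exact fi_core H hH x hx

end H114MF
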