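import Pool.Agent.H114.MF.Defs
import Pool.Agent.H114.MF.Defs2
import Pool.Agent.H114.MF.Defs3
import Pool.Agent.H114.MF.Defs4

set_option autoImplicit false

namespace H114MF

open H114MB

/-- the second derived subgroup -/
private theorem fin_D2 (G : Type) [Group G] : derivedSeries G 2 = D2 G := by
  rw [derivedSeries_succ, derivedSeries_one]

/-- a group with nilpotent commutator subgroup -/
private theorem fin_nil (G : Type) [Group G] (hn : Group.IsNilpotent (commutator G))
    (h : ⁅D2 G, commutator G⁆ = D2 G) : D2 G = ⊥ := by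
  obtain ⟨k, hk⟩ := (Subgroup.isNilpotent_iff_lowerCentralSeries (commutator G)).1 hn
  have key : ∀ k : ℕ, D2 G ≤ (commutator G).lowerCentralSeries k := by
    intro k
    induction k with
    | zero => exact Subgroup.commutator_le_right _ _
    | succ k ih =>
      rw [Subgroup.lowerCentralSeries_succ, ← h]
      exact Subgroup.commutator_mono ih le_rfl
  have := key k
  rw [hk] at this
  exact le_bot_iff.1 this

/-- semi-decision of the existence of a finite non-metabelian quotient -/
private theorem fin_no (hFQP : S_FQP) (hSEM : S_SEM) (hEXRE : S_EXRE) :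
    REPred fun p : ℕ × List Wd => ∃ K : Subgroup (PresentedGroup (relset p)), K.Normal ∧
      K.index ≠ 0 ∧ ¬ D2 (PresentedGroup (relset p)) ≤ K := by
  have h1 := hEXRE (ℕ × List Wd) FC (fun q => FQ q.1 q.2) hFQP
  exact h1.of_eq fun p => hSEM p

/-- minimality in the quotient by a maximal normal subgroup -/
private theorem fin_min (G : Type) [Group G] (A M : Subgroup G) (hM : M.Normal) (hMA : M < A)
    (hmax : ∀ K : Subgroup G, K.Normal → M < K → K ≤ A → K = A) :
    ∀ K : Subgroup (G ⧸ M), K.Normal → K ≤ A.map (QuotientGroup.mk' M) →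
      K = ⊥ ∨ K = A.map (QuotientGroup.mk' M) := by
  intro K hK hKS
  have hsurj := QuotientGroup.mk'_surjective M
  have h1 : M ≤ K.comap (QuotientGroup.mk' M) := by
    intro x hx
    rw [Subgroup.mem_comap]
    have : QuotientGroup.mk' M x = 1 := by
      rw [← MonoidHom.mem_ker, QuotientGroup.ker_mk']; exact hx
    rw [this]; exact K.one_mem
  have h2 : K.comap (QuotientGroup.mk' M) ≤ A := by
    intro x hx
    obtain ⟨y, hy, hxy⟩ := hKS hx
    have h3 : y⁻¹ * x ∈ M := by
      rw [← QuotientGroup.ker_mk' M, MonoidHom.mem_ker, map_mul, map_inv, hxy, inv_mul_cancel]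
    have := A.mul_mem hy (hMA.le h3)
    simpa using this
  have h4 : (K.comap (QuotientGroup.mk' M)).map (QuotientGroup.mk' M) = K :=
    Subgroup.map_comap_eq_self_of_surjective hsurj K
  rcases eq_or_lt_of_le h1 with h | h
  · left
    rw [← h4, ← h]
    rw [(Subgroup.map_eq_bot_iff M), QuotientGroup.ker_mk']
  · right
    rw [← h4, hmax _ (hK.comap _) h h2]

/-- the index in the maximal case -/
private theorem fin_rel (G : Type) [Group G] (A M : Subgroup G) [hM : M.Normal]
    (hfin : Finite (A.map (QuotientGroup.mk' M))) : M.relIndex A ≠ 0 := by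
  have h := Subgroup.relIndex_ker (K := A) (QuotientGroup.mk' M)
  rw [QuotientGroup.ker_mk'] at h
  rw [h]
  exact Nat.card_pos.ne'

/-- nilpotent-by-abelian-by-finite groups -/
private theorem fin_vna (hVNA : S_VNA) (hMAXN : S_MAXN) (G : Type) [Group G] (hfg : Group.FG G)
    (hs : Group.IsSolvable G) (hT : ∃ T : Finset G, D2 G = Subgroup.normalClosure (T : Set G))
    (hN : ∃ N : Subgroup G, N.index ≠ 0 ∧ Group.IsNilpotent (⁅N, N⁆ : Subgroup G))
    (hne : D2 G ≠ ⊥) : ∃ L : Subgroup G, L.Normal ∧ L < D2 G ∧ L.relIndex (D2 G) ≠ 0 := by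
  obtain ⟨M, hM, _, hMA, hmax⟩ := hMAXN G (D2 G) inferInstance hT ⊥ inferInstance
    (bot_lt_iff_ne_bot.2 hne)
  obtain ⟨N, hNi, hNn⟩ := hN
  have := hM
  refine ⟨M, hM, hMA, fin_rel G (D2 G) M ?_⟩
  have hmin := fin_min G (D2 G) M hM hMA hmax
  have hSn : ((D2 G).map (QuotientGroup.mk' M)).Normal :=
    Subgroup.Normal.map inferInstance _ (QuotientGroup.mk'_surjective M)
  have hSne : (D2 G).map (QuotientGroup.mk' M) ≠ ⊥ := by
    intro h
    rw [Subgroup.map_eq_bot_iff, QuotientGroup.ker_mk'] at h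
    exact absurd h (not_le_of_gt hMA)
  have hsol : Group.IsSolvable (G ⧸ M) := inferInstance
  have hlt := Group.IsSolvable.commutator_lt_of_ne_bot hSne
  have hcb : ⁅(D2 G).map (QuotientGroup.mk' M), (D2 G).map (QuotientGroup.mk' M)⁆ = ⊥ := by
    have := hSn
    rcases hmin _ (Subgroup.commutator_normal _ _) hlt.le with h | h
    · exact h
    · exact absurd h hlt.ne
  have hcomm : ∀ a ∈ (D2 G).map (QuotientGroup.mk' M), ∀ b ∈ (D2 G).map (QuotientGroup.mk' M),
      a * b = b * a := by
    intro a ha b hb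
    have h := Subgroup.commutator_mem_commutator ha hb
    rw [hcb, Subgroup.mem_bot, commutatorElement_eq_one_iff_mul_comm] at h
    exact h
  -- the image of the normal core
  have hcore : N.normalCore.index ≠ 0 := by
    have : N.FiniteIndex := ⟨hNi⟩
    exact (Subgroup.finiteIndex_normalCore (H := N)).index_ne_zero
  have hNn' : Group.IsNilpotent (⁅N.normalCore, N.normalCore⁆ : Subgroup G) := by
    have hle : (⁅N.normalCore, N.normalCore⁆ : Subgroup G) ≤ ⁅N, N⁆ :=
      Subgroup.commutator_mono N.normalCore_le N.normalCore_le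
    rw [Subgroup.isNilpotent_iff_lowerCentralSeries] at hNn ⊢
    obtain ⟨k, hk⟩ := hNn
    refine ⟨k, le_bot_iff.1 ?_⟩
    rw [← hk]
    exact Subgroup.lowerCentralSeries_mono k hle
  refine hVNA (G ⧸ M) _ (N.normalCore.map (QuotientGroup.mk' M)) inferInstance hSn hcomm hmin
    (Subgroup.Normal.map inferInstance _ (QuotientGroup.mk'_surjective M)) ?_ ?_
  · intro h
    exact hcore (Nat.eq_zero_of_zero_dvd (h ▸ Subgroup.index_map_dvd _ (QuotientGroup.mk'_surjective M)))
  · rw [← Subgroup.map_commutator]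
    have hsj : Function.Surjective ((QuotientGroup.mk' M).subgroupMap ⁅N.normalCore, N.normalCore⁆) :=
      MonoidHom.subgroupMap_surjective _ _
    exact Group.nilpotent_of_surjective _ hsj

theorem t_FINAL
    (hRE : REPred (fun p : ℕ × List Wd => derivedSeries (PresentedGroup (relset p)) 2 = ⊥))
    (hMAIN : S_MAIN) (hMAINB : S_MAINB) (hVNA : S_VNA) (hMAXN : S_MAXN)
    (hFQP : S_FQP) (hSEM : S_SEM) (hMRG : S_MRG) (hFPR : S_FPR) (hBS : S_BS)
    (hEXRE : S_EXRE) :
    ∃ Φ : ℕ × List (List (ℕ × Bool)) →. Bool, Partrec Φ ∧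
      ∀ p : ℕ × List (List (ℕ × Bool)),
        (true ∈ Φ p ↔ derivedSeries (PresentedGroup (relset p)) 2 = ⊥) ∧
        (false ∈ Φ p ↔ ∃ K : Subgroup (PresentedGroup (relset p)), K.Normal ∧ K.index ≠ 0 ∧
          ¬ derivedSeries (PresentedGroup (relset p)) 2 ≤ K) ∧
        ((∀ x : PresentedGroup (relset p), x ≠ 1 → ∃ K : Subgroup (PresentedGroup (relset p)),
          K.Normal ∧ K.index ≠ 0 ∧ x ∉ K) → (Φ p).Dom) ∧
        (Group.IsSolvable (PresentedGroup (relset p)) →
          ((Φ p).Dom ↔ derivedSeries (PresentedGroup (relset p)) 2 = ⊥ ∨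
            ∃ L : Subgroup (PresentedGroup (relset p)), L.Normal ∧
              L < derivedSeries (PresentedGroup (relset p)) 2 ∧
              L.relIndex (derivedSeries (PresentedGroup (relset p)) 2) ≠ 0)) ∧
        (Group.IsSolvable (PresentedGroup (relset p)) →
          ⁅derivedSeries (PresentedGroup (relset p)) 2,
            commutator (PresentedGroup (relset p))⁆ ≠
            derivedSeries (PresentedGroup (relset p)) 2 → (Φ p).Dom) ∧
        (Group.IsSolvable (PresentedGroup (relset p)) →
          (∃ N : Subgroup (PresentedGroup (relset p)), N.index ≠ 0 ∧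
            Group.IsNilpotent (⁅N, N⁆ : Subgroup (PresentedGroup (relset p)))) →
          (Φ p).Dom) := by
  obtain ⟨Φ, hΦ, hyes, hno⟩ := hMRG (ℕ × List Wd) _ _ hRE (fin_no hFQP hSEM hEXRE) (by
    rintro p ⟨h1, K, _, _, h2⟩
    rw [fin_D2] at h1
    rw [h1] at h2
    exact h2 bot_le)
  refine ⟨Φ, hΦ, fun p => ?_⟩
  have hD : ∀ b, b ∈ Φ p → (Φ p).Dom := fun b hb => Part.dom_iff_mem.2 ⟨b, hb⟩
  obtain ⟨g, hR, hker, hgen⟩ := hFPR p
  have hfg : Group.FG (PresentedGroup (relset p)) := by
    rw [Group.fg_iff]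
    exact ⟨Set.range g, hgen, Set.finite_range g⟩
  have hT : Group.IsSolvable (PresentedGroup (relset p)) → ∃ T : Finset (PresentedGroup (relset p)),
      D2 (PresentedGroup (relset p)) = Subgroup.normalClosure (T : Set _) :=
    fun hs => hBS _ p.1 g (relset p) hR hker hgen hs
  have hsol : Group.IsSolvable (PresentedGroup (relset p)) →
      ⁅D2 (PresentedGroup (relset p)), commutator (PresentedGroup (relset p))⁆ ≠
        D2 (PresentedGroup (relset p)) → (Φ p).Dom := by
    intro hs hne
    refine hD false ((hno p).2 ?_)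
    exact hMAIN _ p.1 g (relset p) hR hker hgen (hT hs) hne
  have hsolL : Group.IsSolvable (PresentedGroup (relset p)) →
      (∃ L : Subgroup (PresentedGroup (relset p)), L.Normal ∧
              L < D2 (PresentedGroup (relset p)) ∧
              L.relIndex (D2 (PresentedGroup (relset p))) ≠ 0) → (Φ p).Dom := by
    intro hs hL
    refine hD false ((hno p).2 ?_)
    exact hMAINB _ p.1 g (relset p) hR hker hgen hs (hT hs) hL
  refine ⟨hyes p, ?_, ?_, ?_, ?_, ?_⟩
  · rw [hno p, fin_D2]
  · intro hrf
    by_cases h : derivedSeries (PresentedGroup (relset p)) 2 = ⊥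
    · exact hD true ((hyes p).2 h)
    · obtain ⟨x, hx1⟩ := (Subgroup.ne_bot_iff_exists_ne_one).1 h
      obtain ⟨K, hK1, hK2, hK3⟩ := hrf x (fun hx2 => hx1 (Subtype.ext hx2))
      refine hD false ((hno p).2 ⟨K, hK1, hK2, fun hle => hK3 (hle ?_)⟩)
      rw [← fin_D2]
      exact x.2
  · intro hs
    constructor
    · intro hdom
      obtain ⟨b, hb⟩ := Part.dom_iff_mem.1 hdom
      cases b
      · right
        obtain ⟨K, hK1, hK2, hK3⟩ := (hno p).1 hb
        rw [fin_D2]
        refine ⟨K ⊓ D2 _, inferInstance, lt_of_le_of_ne inf_le_right ?_, ?_⟩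
        · intro h
          exact hK3 (inf_eq_right.1 h)
        · rw [Subgroup.inf_relIndex_right]
          exact fun h => hK2 (Nat.eq_zero_of_zero_dvd (h ▸ Subgroup.relIndex_dvd_index_of_normal K _))
      · left
        exact (hyes p).1 hb
    · rintro (h | h)
      · exact hD true ((hyes p).2 h)
      · rw [fin_D2] at h
        exact hsolL hs h
  · intro hs hne
    rw [fin_D2] at hne
    exact hsol hs hne
  · intro hs hN
    by_cases h : D2 (PresentedGroup (relset p)) = ⊥
    · refine hD true ((hyes p).2 ?_)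
      rw [fin_D2]
      exact h
    · exact hsolL hs (fin_vna hVNA hMAXN _ hfg hs (hT hs) hN h)

end H114MF
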