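import Pool.Agent.H114.MF.Defs

set_option autoImplicit false

namespace H114MF

open H114MB

open scoped commutatorElement

private theorem FINQ_fin (Q : Type) [Group Q] (hc : ∀ a b : Q, a * b = b * a) (S : Set Q)
    (hS : S.Finite) (hcl : Subgroup.closure S = ⊤) (ht : ∀ s ∈ S, IsOfFinOrder s) : Finite Q := by
  let inst : CommGroup Q := { ‹Group Q› with mul_comm := hc }
  have : Group.FG Q := Group.fg_iff.2 ⟨S, hcl, hS⟩
  apply CommGroup.finite_of_fg_isMulTorsion
  intro q
  have hq : q ∈ Subgroup.closure S := by rw [hcl]; exact Subgroup.mem_top q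
  induction hq using Subgroup.closure_induction with
  | mem x hx => exact ht x hx
  | one => exact IsOfFinOrder.one
  | mul x y _ _ hx hy => exact hx.mul hy
  | inv x _ hx => exact hx.inv

private theorem FINQ_comm_mem (P : Type) [Group P] (p q : P) : ⁅p, q⁆ ∈ commutator P :=
  Subgroup.commutator_mem_commutator (Subgroup.mem_top p) (Subgroup.mem_top q)

private theorem FINQ_map_gen (P : Type) [Group P] (n : ℕ) (x : Fin n → P)
    (hgen : Subgroup.closure (Set.range x) = ⊤) (K : Subgroup P) [K.Normal] :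
    Subgroup.closure (Set.range fun i => (QuotientGroup.mk (x i) : P ⧸ K)) = ⊤ := by
  have h1 : (Set.range fun i => (QuotientGroup.mk (x i) : P ⧸ K)) =
      (QuotientGroup.mk' K) '' (Set.range x) := by
    ext y
    constructor
    · rintro ⟨i, rfl⟩
      exact ⟨x i, ⟨i, rfl⟩, rfl⟩
    · rintro ⟨_, ⟨i, rfl⟩, rfl⟩
      exact ⟨i, rfl⟩
  rw [h1, ← MonoidHom.map_closure, hgen, ← MonoidHom.range_eq_map]
  exact MonoidHom.range_eq_top.2 (QuotientGroup.mk'_surjective K)

private theorem FINQ_quot (P : Type) [Group P] (n : ℕ) (x : Fin n → P)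
    (hgen : Subgroup.closure (Set.range x) = ⊤) (C : Subgroup P) [C.Normal]
    (hDC : commutator P ≤ C) (N : ℕ) (hN : 0 < N) (hx : ∀ i, x i ^ N ∈ C) : Finite (P ⧸ C) := by
  refine FINQ_fin (P ⧸ C) ?_ (Set.range fun i => (QuotientGroup.mk (x i) : P ⧸ C))
    (Set.finite_range _) (FINQ_map_gen P n x hgen C) ?_
  · intro a b
    obtain ⟨a, rfl⟩ := QuotientGroup.mk_surjective a
    obtain ⟨b, rfl⟩ := QuotientGroup.mk_surjective b
    rw [← QuotientGroup.mk_mul, ← QuotientGroup.mk_mul, QuotientGroup.eq]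
    apply hDC
    have := FINQ_comm_mem P b⁻¹ a⁻¹
    rw [commutatorElement_def] at this
    simpa [mul_assoc] using this
  · rintro _ ⟨i, rfl⟩
    refine isOfFinOrder_iff_pow_eq_one.2 ⟨N, hN, ?_⟩
    rw [← QuotientGroup.mk_pow, QuotientGroup.eq_one_iff]
    exact hx i

private theorem FINQ_comm_quot (P : Type) [Group P] (n : ℕ) (x : Fin n → P)
    (hgen : Subgroup.closure (Set.range x) = ⊤) (K : Subgroup P) [K.Normal]
    (hT : ∀ i j, ⁅x i, x j⁆ ∈ K) : commutator P ≤ K := by
  have hgg : ∀ i j, Commute (QuotientGroup.mk' K (x i)) (QuotientGroup.mk' K (x j)) := by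
    intro i j
    have h2 : (QuotientGroup.mk' K) ⁅x i, x j⁆ = 1 := (QuotientGroup.eq_one_iff _).2 (hT i j)
    rw [map_commutatorElement, commutatorElement_eq_one_iff_commute] at h2
    exact h2
  have hall : ∀ q : P, q ∈ Subgroup.closure (Set.range x) := fun q => by
    rw [hgen]; exact Subgroup.mem_top q
  have hgq : ∀ i (q : P), Commute (QuotientGroup.mk' K (x i)) (QuotientGroup.mk' K q) := by
    intro i q
    refine Subgroup.closure_induction (p := fun q _ =>
      Commute (QuotientGroup.mk' K (x i)) (QuotientGroup.mk' K q)) ?_ ?_ ?_ ?_ (hall q)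
    · rintro _ ⟨j, rfl⟩
      exact hgg i j
    · rw [map_one]
      exact Commute.one_right _
    · intro y z _ _ hy hz
      rw [map_mul]
      exact hy.mul_right hz
    · intro y _ hy
      rw [map_inv]
      exact hy.inv_right
  have hpq : ∀ (p q : P), Commute (QuotientGroup.mk' K p) (QuotientGroup.mk' K q) := by
    intro p q
    refine Subgroup.closure_induction (p := fun p _ =>
      Commute (QuotientGroup.mk' K p) (QuotientGroup.mk' K q)) ?_ ?_ ?_ ?_ (hall p)
    · rintro _ ⟨j, rfl⟩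
      exact hgq j q
    · rw [map_one]
      exact Commute.one_left _
    · intro y z _ _ hy hz
      rw [map_mul]
      exact hy.mul_left hz
    · intro y _ hy
      rw [map_inv]
      exact hy.inv_left
  rw [commutator_def, Subgroup.commutator_le]
  intro p _ q _
  rw [← QuotientGroup.eq_one_iff]
  have h2 : (QuotientGroup.mk' K) ⁅p, q⁆ = 1 := by
    rw [map_commutatorElement, commutatorElement_eq_one_iff_commute]
    exact hpq p q
  exact h2

private theorem FINQ_conj (P : Type) [Group P] (C : Subgroup P) [C.Normal] [Finite (P ⧸ C)]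
    (ι : Type) [Finite ι] (t : ι → P) (hC : ∀ c ∈ C, ∀ i, t i * c = c * t i) :
    (Group.conjugatesOfSet (Set.range t)).Finite := by
  refine (Set.finite_range (fun q : (P ⧸ C) × ι =>
    q.1.out * t q.2 * (q.1.out)⁻¹)).subset ?_
  intro y hy
  obtain ⟨_, ⟨i, rfl⟩, hty⟩ := Group.mem_conjugatesOfSet_iff.1 hy
  obtain ⟨c, rfl⟩ := isConj_iff.1 hty
  refine ⟨((c : P ⧸ C), i), ?_⟩
  obtain ⟨h, hh⟩ := QuotientGroup.mk_out_eq_mul C c
  have h2 := hC h h.2 i
  show (c : P ⧸ C).out * t i * ((c : P ⧸ C).out)⁻¹ = c * t i * c⁻¹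
  rw [hh]
  calc c * (h : P) * t i * (c * (h : P))⁻¹ = c * ((h : P) * t i) * (h : P)⁻¹ * c⁻¹ := by group
    _ = c * (t i * (h : P)) * (h : P)⁻¹ * c⁻¹ := by rw [h2]
    _ = c * t i * c⁻¹ := by group

private theorem FINQ_core (P : Type) [Group P] (n : ℕ) (x : Fin n → P)
    (hgen : Subgroup.closure (Set.range x) = ⊤)
    (hab : ∀ a ∈ commutator P, ∀ b ∈ commutator P, a * b = b * a) (m : ℕ) (hm : 0 < m)
    (hexp : ∀ a ∈ commutator P, a ^ m = 1) (N : ℕ) (hN : 0 < N)
    (hx : ∀ i, ∀ b ∈ commutator P, x i ^ N * b = b * x i ^ N) : Finite (commutator P) := by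
  have hDC : commutator P ≤ Subgroup.centralizer (commutator P : Set P) := fun a ha =>
    Subgroup.mem_centralizer_iff.2 (fun b hb => hab b hb a ha)
  have hfinC : Finite (P ⧸ Subgroup.centralizer (commutator P : Set P)) :=
    FINQ_quot P n x hgen _ hDC N hN fun i =>
      Subgroup.mem_centralizer_iff.2 (fun b hb => (hx i b hb).symm)
  have hkfin := FINQ_conj P (Subgroup.centralizer (commutator P : Set P)) (Fin n × Fin n)
    (fun ij => ⁅x ij.1, x ij.2⁆) (fun c hc ij =>
      Subgroup.mem_centralizer_iff.1 hc _ (FINQ_comm_mem P _ _))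
  have hDk : commutator P = Subgroup.closure (Group.conjugatesOfSet
      (Set.range fun ij : Fin n × Fin n => ⁅x ij.1, x ij.2⁆)) := by
    apply le_antisymm
    · have hn : (Subgroup.normalClosure
        (Set.range fun ij : Fin n × Fin n => ⁅x ij.1, x ij.2⁆)).Normal :=
        Subgroup.normalClosure_normal
      exact FINQ_comm_quot P n x hgen (Subgroup.normalClosure
        (Set.range fun ij : Fin n × Fin n => ⁅x ij.1, x ij.2⁆))
        (fun i j => Subgroup.subset_normalClosure ⟨(i, j), rfl⟩)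
    · refine Subgroup.normalClosure_le_normal ?_
      rintro _ ⟨ij, rfl⟩
      exact FINQ_comm_mem P _ _
  rw [hDk]
  refine FINQ_fin _ ?_ _ (hkfin.preimage Subtype.val_injective.injOn)
    Subgroup.closure_closure_coe_preimage ?_
  · intro a b
    apply Subtype.ext
    exact hab a (by rw [hDk]; exact a.2) b (by rw [hDk]; exact b.2)
  · intro s _
    refine isOfFinOrder_iff_pow_eq_one.2 ⟨m, hm, ?_⟩
    apply Subtype.ext
    exact hexp s (by rw [hDk]; exact s.2)

theorem t_FINQ : S_FINQ := by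
  intro E _ n g hgen hz hfin hper
  classical
  obtain ⟨N, hN, hper⟩ := hper
  set D := commutator E with hD
  have hDn : D.Normal := inferInstance
  have hCn : (Subgroup.centralizer (D : Set E)).Normal := inferInstance
  set Z := D ⊓ Subgroup.centralizer (D : Set E) with hZ
  have hZn : Z.Normal := Subgroup.normal_inf_normal _ _
  have hmemZ : ∀ b ∈ D, (∀ a ∈ D, a * b = b * a) → b ∈ Z := fun b hb h =>
    ⟨hb, Subgroup.mem_centralizer_iff.2 h⟩
  have hcmS : ∀ a ∈ D, ∀ b ∈ D, cm a b ∈ D2 E := fun a ha b hb =>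
    Subgroup.commutator_mem_commutator ha hb
  have hD2D : D2 E ≤ D := Subgroup.commutator_le_right _ _
  -- multiplicativity
  have hmul : ∀ a ∈ D, ∀ b ∈ D, ∀ b' ∈ D, cm a (b * b') = cm a b * cm a b' := by
    intro a ha b hb b' hb'
    have h1 := hz (cm a b') (hcmS a ha b' hb') b hb
    have h2 : cm a (b * b') = cm a b * (b * cm a b' * b⁻¹) := by
      unfold cm
      group
    rw [h2, ← h1]
    group
  set m := Nat.card (D2 E) with hm
  have hm0 : 0 < m := Nat.card_pos
  have hpow : ∀ a ∈ D, ∀ b ∈ D, ∀ j : ℕ, cm a (b ^ j) = cm a b ^ j := by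
    intro a ha b hb j
    induction j with
    | zero => simp [cm]
    | succ j ih => rw [pow_succ, pow_succ, hmul a ha _ (pow_mem hb j) b hb, ih]
  have hcm1 : ∀ a b : E, cm a b = 1 → a * b = b * a := by
    intro a b h
    have : a * b = cm a b * (b * a) := by
      unfold cm
      group
    rw [this, h, one_mul]
  have hexpZ : ∀ b ∈ D, b ^ m ∈ Z := by
    intro b hb
    refine hmemZ _ (pow_mem hb m) fun a ha => hcm1 _ _ ?_
    rw [hpow a ha b hb]
    have h1 : (⟨cm a b, hcmS a ha b hb⟩ : D2 E) ^ m = 1 := pow_card_eq_one'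
    exact congrArg Subtype.val h1
  have hperZ : ∀ i, ∀ b ∈ D, ((g i ^ N)⁻¹ * b * g i ^ N) * b⁻¹ ∈ Z := by
    intro i b hb
    set b' := (g i ^ N)⁻¹ * b * g i ^ N with hb'
    have hb'D : b' ∈ D := by
      have := hDn.conj_mem b hb (g i ^ N)⁻¹
      simpa [hb'] using this
    refine hmemZ _ (mul_mem hb'D (inv_mem hb)) fun a ha => ?_
    have h1 := hper i a ha b hb
    rw [← hb'] at h1
    have h2 := hz (cm a b) (hcmS a ha b hb) (b' * b⁻¹) (mul_mem hb'D (inv_mem hb))
    have e1 : a * b' = cm a b' * b' * a := by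
      unfold cm
      group
    have e2 : a * b⁻¹ = b⁻¹ * (cm a b)⁻¹ * a := by
      unfold cm
      group
    calc a * (b' * b⁻¹) = (a * b') * b⁻¹ := by group
      _ = cm a b * b' * a * b⁻¹ := by rw [e1, h1]
      _ = cm a b * b' * (a * b⁻¹) := by group
      _ = (cm a b * (b' * b⁻¹)) * (cm a b)⁻¹ * a := by rw [e2]; group
      _ = ((b' * b⁻¹) * cm a b) * (cm a b)⁻¹ * a := by rw [h2]
      _ = (b' * b⁻¹) * a := by group
  have hmap : D.map (QuotientGroup.mk' Z) = commutator (E ⧸ Z) := by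
    rw [hD, commutator_def, commutator_def, Subgroup.map_commutator,
      Subgroup.map_top_of_surjective _ (QuotientGroup.mk'_surjective Z)]
  have hfinD : Finite (commutator (E ⧸ Z)) := by
    refine FINQ_core (E ⧸ Z) n (fun i => QuotientGroup.mk (g i)) ?_ ?_ m hm0 ?_ N hN ?_
    · exact FINQ_map_gen E n g hgen Z
    · rw [← hmap]
      rintro _ ⟨a, ha, rfl⟩ _ ⟨b, hb, rfl⟩
      rw [← map_mul, ← map_mul]
      refine (QuotientGroup.eq).2 ?_
      have h1 : (a * b)⁻¹ * (b * a) = cm b⁻¹ a⁻¹ := by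
        unfold cm
        group
      rw [h1]
      have h2 := hcmS _ (inv_mem hb) _ (inv_mem ha)
      exact hmemZ _ (hD2D h2) fun c hc => (hz _ h2 c hc).symm
    · rw [← hmap]
      rintro _ ⟨a, ha, rfl⟩
      rw [← map_pow]
      exact (QuotientGroup.eq_one_iff _).2 (hexpZ a ha)
    · rw [← hmap]
      rintro i _ ⟨b, hb, rfl⟩
      have h1 := (QuotientGroup.eq_one_iff _).2 (hperZ i b hb)
      have h2 : (QuotientGroup.mk' Z) (((g i ^ N)⁻¹ * b * g i ^ N) * b⁻¹) = 1 := h1
      rw [map_mul, map_mul, map_mul, map_inv, map_inv, map_pow] at h2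
      show (QuotientGroup.mk' Z (g i)) ^ N * QuotientGroup.mk' Z b =
        QuotientGroup.mk' Z b * (QuotientGroup.mk' Z (g i)) ^ N
      have h3 : ((QuotientGroup.mk' Z (g i)) ^ N)⁻¹ * QuotientGroup.mk' Z b *
          (QuotientGroup.mk' Z (g i)) ^ N = QuotientGroup.mk' Z b := mul_inv_eq_one.1 h2
      calc (QuotientGroup.mk' Z (g i)) ^ N * QuotientGroup.mk' Z b
          = (QuotientGroup.mk' Z (g i)) ^ N * (((QuotientGroup.mk' Z (g i)) ^ N)⁻¹ *
            QuotientGroup.mk' Z b * (QuotientGroup.mk' Z (g i)) ^ N) := by rw [h3]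
        _ = _ := by group
  have hrel := Subgroup.relIndex_ker D (QuotientGroup.mk' Z)
  rw [QuotientGroup.ker_mk', hmap] at hrel
  rw [hrel]
  exact Nat.card_pos.ne'

end H114MF
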