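import Pool.Agent.H114.MF.Defs3

/-! Task FINQB (helper757). -/

set_option autoImplicit false

namespace H114MF

open H114MB

private theorem FINQB_cm_one {G : Type} [Group G] (a b : G) : cm a b = 1 ↔ a * b = b * a :=
  commutatorElement_eq_one_iff_mul_comm (g₁ := a) (g₂ := b)

private theorem FINQB_fin {G : Type} [Group G] (H : Subgroup G) (m : ℕ) (hm : 0 < m)
    (hc : ∀ x ∈ H, ∀ y ∈ H, x * y = y * x) (he : ∀ x ∈ H, x ^ m = 1)
    (S : Set G) (hS : S.Finite) (hH : Subgroup.closure S = H) : Finite H := by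
  letI : CommGroup H :=
    { (inferInstance : Group H) with
      mul_comm := fun x y => Subtype.ext (hc x x.2 y y.2) }
  haveI : Group.FG H := by
    rw [Group.fg_iff_subgroup_fg]
    exact ⟨hS.toFinset, by rw [Set.Finite.coe_toFinset]; exact hH⟩
  refine CommGroup.finite_of_fg_torsion H ?_
  intro x
  rw [isOfFinOrder_iff_pow_eq_one]
  exact ⟨m, hm, Subtype.ext (by simpa using he x x.2)⟩

/-- FINQB -/
theorem t_FINQB : S_FINQB := by
  intro E _ n g B hg hBn hBD hDB hcen hfin hT hper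
  obtain ⟨T, hT⟩ := hT
  obtain ⟨N, hN, hper⟩ := hper
  have hcmD : ∀ a ∈ commutator E, ∀ b ∈ commutator E, cm a b ∈ D2 E := fun a ha b hb =>
    Subgroup.commutator_mem_commutator ha hb
  obtain ⟨Z, hZ⟩ : ∃ Z : Subgroup E, Z = B ⊓ Subgroup.centralizer (B : Set E) := ⟨_, rfl⟩
  rw [← hZ]
  have hZn : Z.Normal := by
    rw [hZ]
    infer_instance
  have hmemZ : ∀ x, x ∈ Z ↔ x ∈ B ∧ ∀ a ∈ B, a * x = x * a := by
    intro x
    rw [hZ, Subgroup.mem_inf, Subgroup.mem_centralizer_iff]
    rfl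
  have hDZ : D2 E ≤ Z := fun z hz => (hmemZ z).2 ⟨hDB hz, fun a ha => (hcen z hz a ha).symm⟩
  have hmul : ∀ a ∈ B, ∀ x ∈ B, ∀ y ∈ B, cm a (x * y) = cm a x * cm a y := by
    intro a ha x hx y hy
    have h1 := hcen (cm a y) (hcmD a (hBD ha) y (hBD hy)) x⁻¹ (B.inv_mem hx)
    calc cm a (x * y) = a * x * a⁻¹ * (cm a y * x⁻¹) := by unfold cm; group
      _ = a * x * a⁻¹ * (x⁻¹ * cm a y) := by rw [h1]
      _ = cm a x * cm a y := by unfold cm; group
  have hpow : ∀ a ∈ B, ∀ b ∈ B, ∀ k : ℕ, cm a (b ^ k) = cm a b ^ k := by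
    intro a ha b hb k
    induction k with
    | zero => simp [cm]
    | succ k ih => rw [pow_succ, pow_succ, hmul a ha _ (B.pow_mem hb k) b hb, ih]
  have hm : 0 < Nat.card (D2 E) := Nat.card_pos
  have hexp : ∀ b ∈ B, b ^ Nat.card (D2 E) ∈ Z := by
    intro b hb
    refine (hmemZ _).2 ⟨B.pow_mem hb _, fun a ha => ?_⟩
    rw [← FINQB_cm_one, hpow a ha b hb]
    have := pow_card_eq_one' (x := (⟨cm a b, hcmD a (hBD ha) b (hBD hb)⟩ : D2 E))
    exact congrArg Subtype.val this
  have hgN : ∀ i, ∀ b ∈ B, (g i ^ N)⁻¹ * b * g i ^ N * b⁻¹ ∈ Z := by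
    intro i b hb
    have hb' : (g i ^ N)⁻¹ * b * g i ^ N ∈ B := by
      have := hBn.conj_mem b hb (g i ^ N)⁻¹
      rwa [inv_inv] at this
    refine (hmemZ _).2 ⟨B.mul_mem hb' (B.inv_mem hb), fun a ha => ?_⟩
    rw [← FINQB_cm_one]
    have h1 := hmul a ha _ (B.mul_mem hb' (B.inv_mem hb)) b hb
    rw [inv_mul_cancel_right, hper i a ha b hb] at h1
    exact (right_eq_mul.1 h1)
  -- the quotient by `Z`
  set f : E →* E ⧸ Z := QuotientGroup.mk' Z with hf
  have hfs : Function.Surjective f := QuotientGroup.mk'_surjective Z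
  have hf1 : ∀ x, f x = 1 ↔ x ∈ Z := fun x => by
    rw [← MonoidHom.mem_ker, hf, QuotientGroup.ker_mk']
  have hcomm : ∀ x y, cm x y ∈ Z → f x * f y = f y * f x := by
    intro x y h
    rw [← FINQB_cm_one]
    have := (hf1 _).2 h
    rw [← this]
    simp [cm]
  have hidx : Z.relIndex B = Nat.card (B.map f) := by
    rw [← Subgroup.relIndex_ker, hf, QuotientGroup.ker_mk']
  rw [hidx]
  have hB'n : (B.map f).Normal := hBn.map f hfs
  -- the subgroup acting trivially
  obtain ⟨C, hC⟩ : ∃ C : Subgroup E, C = (Subgroup.centralizer ((B.map f : Subgroup (E ⧸ Z)) :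
    Set (E ⧸ Z))).comap f := ⟨_, rfl⟩
  have hCn : C.Normal := by
    rw [hC]
    infer_instance
  have hmemC : ∀ x, x ∈ C ↔ ∀ b ∈ B, f b * f x = f x * f b := by
    intro x
    rw [hC, Subgroup.mem_comap, Subgroup.mem_centralizer_iff]
    constructor
    · intro h b hb
      exact h (f b) (Subgroup.mem_map_of_mem f hb)
    · rintro h _ ⟨b, hb, rfl⟩
      exact h b hb
  have hDC : ∀ d ∈ commutator E, d ∈ C := by
    intro d hd
    rw [hmemC]
    intro b hb
    exact hcomm b d (hDZ (hcmD b (hBD hb) d hd))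
  have hgC : ∀ i, g i ^ N ∈ C := by
    intro i
    rw [hmemC]
    intro b hb
    have h1 := (hf1 _).2 (hgN i b hb)
    simp only [map_mul, map_inv] at h1
    have h2 : (f (g i ^ N))⁻¹ * f b * f (g i ^ N) = f b := by
      rwa [mul_inv_eq_one] at h1
    rw [mul_assoc, inv_mul_eq_iff_eq_mul] at h2
    exact h2
  -- `E ⧸ C` is finite
  have hEC : Finite (E ⧸ C) := by
    have h1 : Finite (⊤ : Subgroup (E ⧸ C)) := by
      have hcE : ∀ x y : E ⧸ C, x * y = y * x := by
        intro x y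
        obtain ⟨a, rfl⟩ := QuotientGroup.mk_surjective x
        obtain ⟨b, rfl⟩ := QuotientGroup.mk_surjective y
        rw [← FINQB_cm_one]
        have : cm (a : E ⧸ C) (b : E ⧸ C) = ((cm a b : E) : E ⧸ C) := by simp [cm]
        rw [this, QuotientGroup.eq_one_iff]
        exact hDC _ (Subgroup.commutator_mem_commutator (Subgroup.mem_top a) (Subgroup.mem_top b))
      have hclo : Subgroup.closure (Set.range fun i => ((g i : E) : E ⧸ C)) = ⊤ := by
        have h2 := congrArg (Subgroup.map (QuotientGroup.mk' C)) hg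
        rw [MonoidHom.map_closure, Subgroup.map_top_of_surjective _
          (QuotientGroup.mk'_surjective C), ← Set.range_comp] at h2
        exact h2
      refine FINQB_fin ⊤ N hN (fun x _ y _ => hcE x y) ?_ _ (Set.finite_range _) hclo
      intro x hx
      rw [← hclo] at hx
      induction hx using Subgroup.closure_induction with
      | mem x hx =>
        obtain ⟨i, rfl⟩ := hx
        simp only
        rw [← QuotientGroup.mk_pow, QuotientGroup.eq_one_iff]
        exact hgC i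
      | one => exact one_pow N
      | mul x y _ _ hx hy =>
        rw [Commute.mul_pow (hcE x y), hx, hy, one_mul]
      | inv x _ hx => rw [inv_pow, hx, inv_one]
    exact (Finite.of_equiv _ (Subgroup.topEquiv (G := E ⧸ C)).toEquiv)
  -- finitely many conjugates
  have hcl : Subgroup.closure (Group.conjugatesOfSet (f '' (T : Set E))) = B.map f := by
    rw [hT, Subgroup.map_normalClosure _ _ hfs]
    rfl
  have hTB : ∀ t ∈ T, t ∈ B := by
    intro t ht
    rw [hT]
    exact Subgroup.subset_normalClosure ht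
  have hcf : (Group.conjugatesOfSet (f '' (T : Set E))).Finite := by
    have h1 : Group.conjugatesOfSet (f '' (T : Set E)) ⊆
        Set.range (fun q : (E ⧸ C) × T => f q.1.out * f q.2 * (f q.1.out)⁻¹) := by
      intro y hy
      rw [Group.mem_conjugatesOfSet_iff] at hy
      obtain ⟨_, ⟨t, ht, rfl⟩, hy⟩ := hy
      rw [isConj_iff] at hy
      obtain ⟨c, hc⟩ := hy
      obtain ⟨x, rfl⟩ := hfs c
      refine ⟨((x : E ⧸ C), ⟨t, ht⟩), ?_⟩
      simp only
      set r := ((x : E ⧸ C)).out with hr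
      have h2 : r⁻¹ * x ∈ C := by
        rw [← QuotientGroup.eq, hr, QuotientGroup.out_eq']
      have h3 := (hmemC _).1 h2 t (hTB t ht)
      rw [← hc]
      have h4 : x = r * (r⁻¹ * x) := by group
      have h5 : f x = f r * f (r⁻¹ * x) := by rw [← map_mul, ← h4]
      rw [h5, mul_inv_rev]
      calc f r * f t * (f r)⁻¹ = f r * (f t * f (r⁻¹ * x)) * (f (r⁻¹ * x))⁻¹ * (f r)⁻¹ := by group
        _ = f r * (f (r⁻¹ * x) * f t) * (f (r⁻¹ * x))⁻¹ * (f r)⁻¹ := by rw [h3]
        _ = _ := by group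
    exact (Set.finite_range _).subset h1
  have hfinal : Finite (B.map f) := by
    refine FINQB_fin (B.map f) (Nat.card (D2 E)) hm ?_ ?_ _ hcf hcl
    · rintro _ ⟨a, ha, rfl⟩ _ ⟨b, hb, rfl⟩
      exact hcomm a b (hDZ (hcmD a (hBD ha) b (hBD hb)))
    · rintro _ ⟨b, hb, rfl⟩
      rw [← map_pow, hf1]
      exact hexp b hb
  exact Nat.card_pos.ne'

end H114MF
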