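import Pool.Agent.H114.MF.Defs

/-! FPR (helper666): the presented group is generated by its generators and presented by its
relators. -/

set_option autoImplicit false

namespace H114MF

open H114MB

theorem t_FPR : S_FPR := by
  intro p
  refine ⟨PresentedGroup.of, ?_, ?_, ?_⟩
  · refine ((List.finite_toSet p.2).image (fun w : Wd => (w.map (fun x : ℕ × Bool =>
      if h : x.1 < p.1 then
        (if x.2 then FreeGroup.of (⟨x.1, h⟩ : Fin p.1)
         else (FreeGroup.of (⟨x.1, h⟩ : Fin p.1))⁻¹)
      else 1)).prod)).subset ?_
    rintro r ⟨w, hw, rfl⟩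
    exact ⟨w, hw, rfl⟩
  · have h : FreeGroup.lift (PresentedGroup.of (rels := relset p)) = PresentedGroup.mk (relset p) := by
      ext i
      rw [FreeGroup.lift_apply_of]
      rfl
    rw [h]
    exact QuotientGroup.ker_mk' _
  · exact PresentedGroup.closure_range_of _

end H114MF
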