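import Pool.Agent.H114.MF.Defs

set_option autoImplicit false

/-!
# Task FQP: checking certificates for finite quotients is primitive recursive
-/

namespace H114MF

open H114MB

section FQP

variable {α β γ : Type} [Primcodable α] [Primcodable β] [Primcodable γ]

private theorem FQP_fst {f : α → β × γ} (h : Primrec f) : Primrec fun a => (f a).1 :=
  Primrec.fst.comp h

private theorem FQP_snd {f : α → β × γ} (h : Primrec f) : Primrec fun a => (f a).2 :=
  Primrec.snd.comp h

private theorem FQP_not {f : α → Bool} (h : Primrec f) : Primrec fun a => !(f a) :=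
  Primrec.not.comp h

private theorem FQP_append {f g : α → List β} (h : Primrec f) (h' : Primrec g) :
    Primrec fun a => f a ++ g a :=
  Primrec.list_append.comp h h'

private theorem FQP_map {f : α → List β} {g : α → β → γ} (h : Primrec f)
    (h' : Primrec fun q : α × β => g q.1 q.2) : Primrec fun a => (f a).map (g a) :=
  Primrec.list_map h h'

private theorem FQP_all {f : α → List β} {P : α → β → Prop} (h : Primrec f)
    (hP : PrimrecPred fun q : α × β => P q.1 q.2) : PrimrecPred fun a => ∀ b ∈ f a, P a b := by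
  have h1 : PrimrecRel fun (b : β) (a : α) => P a b :=
    hP.comp (f := fun q : β × α => (q.2, q.1)) (Primrec.pair Primrec.snd Primrec.fst)
  exact h1.forall_mem_list.comp h Primrec.id

private theorem FQP_ex {f : α → List β} {P : α → β → Prop} (h : Primrec f)
    (hP : PrimrecPred fun q : α × β => P q.1 q.2) : PrimrecPred fun a => ∃ b ∈ f a, P a b := by
  have h1 : PrimrecRel fun (b : β) (a : α) => P a b :=
    hP.comp (f := fun q : β × α => (q.2, q.1)) (Primrec.pair Primrec.snd Primrec.fst)
  exact h1.exists_mem_list.comp h Primrec.id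

private theorem FQP_allLt {f : α → ℕ} {P : α → ℕ → Prop} (h : Primrec f)
    (hP : PrimrecPred fun q : α × ℕ => P q.1 q.2) : PrimrecPred fun a => ∀ b < f a, P a b :=
  (FQP_all (Primrec.list_range.comp h) hP).of_eq fun a => by simp

private theorem FQP_exLt {f : α → ℕ} {P : α → ℕ → Prop} (h : Primrec f)
    (hP : PrimrecPred fun q : α × ℕ => P q.1 q.2) : PrimrecPred fun a => ∃ b < f a, P a b :=
  (FQP_ex (Primrec.list_range.comp h) hP).of_eq fun a => by simp

private theorem FQP_winv {f : α → Wd} (h : Primrec f) : Primrec fun a => winv (f a) := by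
  unfold winv
  exact Primrec.list_reverse.comp (FQP_map h (Primrec.pair (FQP_fst Primrec.snd)
    (FQP_not (FQP_snd Primrec.snd))))

private theorem FQP_wcom {f g : α → Wd} (h : Primrec f) (h' : Primrec g) :
    Primrec fun a => wcom (f a) (g a) := by
  unfold wcom
  exact FQP_append (FQP_append (FQP_append h h') (FQP_winv h)) (FQP_winv h')

private theorem FQP_get {f : α → List ℕ} {k : α → ℕ} (h : Primrec f) (h' : Primrec k) :
    Primrec fun a => (f a).getD (k a) (k a) := by
  refine (Primrec.option_getD.comp (Primrec.list_getElem?.comp h h') h').of_eq fun a => ?_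
  rw [List.getD_eq_getElem?_getD]

private theorem FQP_act {n : α → ℕ} {s : α → List (List ℕ × List ℕ)} {y : α → ℕ × Bool}
    {k : α → ℕ} (hn : Primrec n) (hs : Primrec s) (hy : Primrec y) (hk : Primrec k) :
    Primrec fun a => act (n a) (s a) (y a) (k a) := by
  unfold act
  have hg : Primrec fun a => (s a).getD (y a).1 ([], []) :=
    (Primrec.list_getD ([], [])).comp hs (FQP_fst hy)
  exact Primrec.ite (Primrec.nat_lt.comp (FQP_fst hy) hn)
    (Primrec.ite (Primrec.eq.comp (FQP_snd hy) (Primrec.const true))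
      (FQP_get (FQP_fst hg) hk) (FQP_get (FQP_snd hg) hk)) hk

private theorem FQP_run {n : α → ℕ} {s : α → List (List ℕ × List ℕ)} {w : α → Wd}
    {k : α → ℕ} (hn : Primrec n) (hs : Primrec s) (hw : Primrec w) (hk : Primrec k) :
    Primrec fun a => run (n a) (s a) (w a) (k a) := by
  unfold run
  exact Primrec.list_foldr (h := fun a q => act (n a) (s a) q.1 q.2) hw hk
    (FQP_act (hn.comp Primrec.fst) (hs.comp Primrec.fst) (FQP_fst Primrec.snd)
      (FQP_snd Primrec.snd)).to₂

end FQP

theorem t_FQP : S_FQP := by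
  unfold S_FQP FQ
  have hp1 : Primrec fun q : (ℕ × List Wd) × FC => q.1.1 := FQP_fst Primrec.fst
  have hp2 : Primrec fun q : (ℕ × List Wd) × FC => q.1.2 := FQP_snd Primrec.fst
  have hm : Primrec fun q : (ℕ × List Wd) × FC => q.2.1.1 := FQP_fst (FQP_fst Primrec.snd)
  have hs : Primrec fun q : (ℕ × List Wd) × FC => q.2.1.2 := FQP_snd (FQP_fst Primrec.snd)
  have ha : Primrec fun q : (ℕ × List Wd) × FC => q.2.2.1.1 :=
    FQP_fst (FQP_fst (FQP_snd Primrec.snd))
  have hb : Primrec fun q : (ℕ × List Wd) × FC => q.2.2.1.2 :=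
    FQP_snd (FQP_fst (FQP_snd Primrec.snd))
  have hc : Primrec fun q : (ℕ × List Wd) × FC => q.2.2.2.1 :=
    FQP_fst (FQP_snd (FQP_snd Primrec.snd))
  have hd : Primrec fun q : (ℕ × List Wd) × FC => q.2.2.2.2 :=
    FQP_snd (FQP_snd (FQP_snd Primrec.snd))
  refine PrimrecPred.and ?_ (PrimrecPred.and ?_ ?_)
  · refine FQP_allLt hp1 (FQP_allLt (hm.comp Primrec.fst) ?_)
    have hn' : Primrec fun q : (((ℕ × List Wd) × FC) × ℕ) × ℕ => q.1.1.1.1 :=
      hp1.comp (Primrec.fst.comp Primrec.fst)
    have hs' : Primrec fun q : (((ℕ × List Wd) × FC) × ℕ) × ℕ => q.1.1.2.1.2 :=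
      hs.comp (Primrec.fst.comp Primrec.fst)
    have hm' : Primrec fun q : (((ℕ × List Wd) × FC) × ℕ) × ℕ => q.1.1.2.1.1 :=
      hm.comp (Primrec.fst.comp Primrec.fst)
    have hi : Primrec fun q : (((ℕ × List Wd) × FC) × ℕ) × ℕ => q.1.2 :=
      Primrec.snd.comp Primrec.fst
    have hk : Primrec fun q : (((ℕ × List Wd) × FC) × ℕ) × ℕ => q.2 := Primrec.snd
    have hit : Primrec fun q : (((ℕ × List Wd) × FC) × ℕ) × ℕ => (q.1.2, true) :=
      hi.pair (Primrec.const true)
    have hif : Primrec fun q : (((ℕ × List Wd) × FC) × ℕ) × ℕ => (q.1.2, false) :=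
      hi.pair (Primrec.const false)
    have h1 := FQP_act hn' hs' hit hk
    have h2 := FQP_act hn' hs' hif hk
    have h3 := FQP_act hn' hs' hif h1
    have h4 := FQP_act hn' hs' hit h2
    exact (Primrec.nat_lt.comp h1 hm').and ((Primrec.nat_lt.comp h2 hm').and
      ((Primrec.eq.comp h3 hk).and (Primrec.eq.comp h4 hk)))
  · refine FQP_all hp2 (FQP_allLt (hm.comp Primrec.fst) ?_)
    exact Primrec.eq.comp (FQP_run (hp1.comp (Primrec.fst.comp Primrec.fst))
      (hs.comp (Primrec.fst.comp Primrec.fst)) (Primrec.snd.comp Primrec.fst) Primrec.snd)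
      Primrec.snd
  · refine FQP_exLt hm ?_
    refine PrimrecPred.not (Primrec.eq.comp (FQP_run (hp1.comp Primrec.fst)
      (hs.comp Primrec.fst) ?_ Primrec.snd) Primrec.snd)
    exact FQP_wcom (FQP_wcom (ha.comp Primrec.fst) (hb.comp Primrec.fst))
      (FQP_wcom (hc.comp Primrec.fst) (hd.comp Primrec.fst))

end H114MF
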