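import Mathlib
import Pool.Agent.H114.MF.Defs

/-!
HALL: finitely generated metabelian groups are residually finite.
-/

set_option autoImplicit false

namespace H114MF

open H114MB
open scoped commutatorElement

private theorem hall_quot {G : Type} [Group G] (N : Subgroup G) [N.Normal] (x : G)
    (h : Fat (G ⧸ N) (QuotientGroup.mk' N x)) : Fat G x := by
  obtain ⟨K, hK, hi, hx⟩ := h
  refine ⟨K.comap (QuotientGroup.mk' N), hK.comap _, ?_, hx⟩
  rw [Subgroup.index_comap_of_surjective _ (QuotientGroup.mk'_surjective N)]
  exact hi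

private theorem hall_nc {G : Type} [Group G] (hG : Group.FG G) :
    ∃ T : Set G, T.Finite ∧ T ⊆ commutator G ∧ commutator G ≤ Subgroup.normalClosure T := by
  obtain ⟨S, hS⟩ := hG.out
  set T : Set G := (fun p : G × G => ⁅p.1, p.2⁆) '' ((S : Set G) ×ˢ (S : Set G)) with hT
  refine ⟨T, (S.finite_toSet.prod S.finite_toSet).image _, ?_, ?_⟩
  · rintro _ ⟨p, -, rfl⟩
    exact Subgroup.commutator_mem_commutator (Subgroup.mem_top _) (Subgroup.mem_top _)
  · set N := Subgroup.normalClosure T with hN
    have h0 : ∀ s ∈ S, ∀ t ∈ S, QuotientGroup.mk' N s * QuotientGroup.mk' N t =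
        QuotientGroup.mk' N t * QuotientGroup.mk' N s := by
      intro s hs t ht
      rw [← commutatorElement_eq_one_iff_mul_comm, ← map_commutatorElement]
      refine (QuotientGroup.eq_one_iff _).2 (Subgroup.subset_normalClosure ?_)
      exact ⟨(s, t), ⟨hs, ht⟩, rfl⟩
    have h1 : ∀ s ∈ S, ∀ g : G, QuotientGroup.mk' N s * QuotientGroup.mk' N g =
        QuotientGroup.mk' N g * QuotientGroup.mk' N s := by
      intro s hs g
      have h2 : Subgroup.closure (S : Set G) ≤
          (Subgroup.centralizer {QuotientGroup.mk' N s}).comap (QuotientGroup.mk' N) := by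
        rw [Subgroup.closure_le]
        intro t ht
        rw [SetLike.mem_coe, Subgroup.mem_comap, Subgroup.mem_centralizer_iff]
        intro h hh
        rw [Set.mem_singleton_iff] at hh
        subst hh
        exact h0 s hs t ht
      have h3 := h2 (hS ▸ Subgroup.mem_top g)
      rw [Subgroup.mem_comap, Subgroup.mem_centralizer_iff] at h3
      exact h3 _ rfl
    have h4 : ∀ g h : G, QuotientGroup.mk' N g * QuotientGroup.mk' N h =
        QuotientGroup.mk' N h * QuotientGroup.mk' N g := by
      intro g h
      have h2 : Subgroup.closure (S : Set G) ≤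
          (Subgroup.centralizer {QuotientGroup.mk' N g}).comap (QuotientGroup.mk' N) := by
        rw [Subgroup.closure_le]
        intro t ht
        rw [SetLike.mem_coe, Subgroup.mem_comap, Subgroup.mem_centralizer_iff]
        intro k hk
        rw [Set.mem_singleton_iff] at hk
        subst hk
        exact (h1 t ht g).symm
      have h3 := h2 (hS ▸ Subgroup.mem_top h)
      rw [Subgroup.mem_comap, Subgroup.mem_centralizer_iff] at h3
      exact h3 _ rfl
    rw [commutator_def, Subgroup.commutator_le]
    intro g _ h _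
    refine (QuotientGroup.eq_one_iff _).1 ?_
    change QuotientGroup.mk' N ⁅g, h⁆ = 1
    rw [map_commutatorElement, commutatorElement_eq_one_iff_mul_comm]
    exact h4 g h

private theorem hall_fin {G : Type} [Group G] (K : Subgroup G) [K.Normal] {Y : Type} [Finite Y]
    (F : commutator G → Y) (hF : ∀ a b, F a = F b → (a : G)⁻¹ * b ∈ K) :
    Finite (commutator (G ⧸ K)) := by
  have hmap : commutator (G ⧸ K) = (commutator G).map (QuotientGroup.mk' K) := by
    rw [commutator_def, commutator_def, Subgroup.map_commutator,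
      Subgroup.map_top_of_surjective _ (QuotientGroup.mk'_surjective K)]
  have hex : ∀ q : commutator (G ⧸ K), ∃ a : commutator G, QuotientGroup.mk' K a = q := by
    rintro ⟨q, hq⟩
    rw [hmap] at hq
    obtain ⟨a, ha, h⟩ := hq
    exact ⟨⟨a, ha⟩, h⟩
  choose r hr using hex
  refine Finite.of_injective (fun q => F (r q)) fun q q' h => ?_
  have := hF _ _ h
  apply Subtype.ext
  rw [← hr q, ← hr q']
  exact QuotientGroup.eq.2 this

theorem t_HALL (h1 : S_ACT) (h2 : S_RFM) (h3 : S_FBA) : S_HALL := by
  intro G _ hG hA x hx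
  have := hG
  by_cases hxA : x ∈ commutator G
  · obtain ⟨R, M, iR, iM, iRM, f, hR, hf, hadd, -, hsub⟩ := h1 G (commutator G) inferInstance hG
      (fun a ha b hb => hA a ha b hb) (fun g hg a ha => hA g hg a ha)
    have hf1 : f 1 = 0 := by
      have := hadd 1 1
      rw [mul_one] at this
      exact left_eq_add.1 this
    have hfin : Module.Finite R M := by
      obtain ⟨T, hTf, hTc, hTn⟩ := hall_nc hG
      obtain ⟨K, hK, hKA, hKm⟩ := hsub (Submodule.span R (f '' {a | (a : G) ∈ T}))
      have hTK : T ⊆ K := by
        intro t ht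
        refine (hKm ⟨t, hTc ht⟩).1 (Submodule.subset_span ⟨⟨t, hTc ht⟩, ht, rfl⟩)
      have hle : commutator G ≤ K := hTn.trans (Subgroup.normalClosure_le_normal hTK)
      have htop : Submodule.span R (f '' {a | (a : G) ∈ T}) = ⊤ := by
        rw [eq_top_iff]
        intro m _
        obtain ⟨a, rfl⟩ := hf.2 m
        exact (hKm a).2 (hle a.2)
      refine Module.finite_def.2 ?_
      rw [← htop]
      refine Submodule.fg_span (Set.Finite.image _ ?_)
      exact hTf.preimage Subtype.val_injective.injOn
    have hfx : f ⟨x, hxA⟩ ≠ 0 := by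
      intro h
      rw [← hf1] at h
      have := congrArg Subtype.val (hf.1 h)
      exact hx this
    obtain ⟨N, hxN, hN⟩ := h2 R M hR hfin _ hfx
    obtain ⟨K, hK, hKA, hKm⟩ := hsub N
    apply hall_quot K
    refine h3 _ inferInstance (hall_fin K (fun a => (Submodule.Quotient.mk (f a) : M ⧸ N)) ?_) _ ?_
    · intro a b hab
      have e1 : f a - f b ∈ N := (Submodule.Quotient.eq N).1 hab
      have e2 : f (a⁻¹ * b) = -(f a - f b) := by
        have h4 := hadd a (a⁻¹ * b)
        rw [mul_inv_cancel_left] at h4
        rw [h4]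
        abel
      have e3 : f (a⁻¹ * b) ∈ N := by
        rw [e2]
        exact N.neg_mem e1
      exact (hKm _).1 e3
    · intro h
      exact hxN ((hKm ⟨x, hxA⟩).2 ((QuotientGroup.eq_one_iff _).1 h))
  · apply hall_quot (commutator G)
    refine h3 _ inferInstance (hall_fin (commutator G) (Y := Unit) (fun _ => ())
      (fun a b _ => mul_mem (inv_mem a.2) b.2)) _ ?_
    intro h
    exact hxA ((QuotientGroup.eq_one_iff _).1 h)

end H114MF
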