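import Pool.Agent.H114.MF.Defs

set_option autoImplicit false

namespace H114MF

open H114MB

theorem MAIN_map_comm {G E : Type} [Group G] [Group E] (q : G →* E)
    (hq : Function.Surjective q) : (commutator G).map q = commutator E := by
  rw [commutator_def, commutator_def, Subgroup.map_commutator,
    Subgroup.map_top_of_surjective q hq]

theorem MAIN_map_D2 {G E : Type} [Group G] [Group E] (q : G →* E)
    (hq : Function.Surjective q) : (D2 G).map q = D2 E := by
  unfold D2
  rw [Subgroup.map_commutator, MAIN_map_comm q hq]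

theorem MAIN_mono {G E : Type} [Group G] [Group E] (q : G →* E) {n : ℕ} (g : Fin n → G)
    (u : Vec n) : q (mono g u) = mono (fun i => q (g i)) u := by
  unfold mono
  rw [map_list_prod, List.map_ofFn]
  congr 1
  congr 1
  funext i
  simp

theorem MAIN_pw {G E : Type} [Group G] [Group E] (q : G →* E) (a : G) (c : Bool) :
    q (pw a c) = pw (q a) c := by
  cases c
  · show q a⁻¹ = (q a)⁻¹
    exact map_inv q a
  · rfl

theorem t_MAIN (h1 : S_MAXN) (h2 : S_SIMP) (h3 : S_CENQ) (h4 : S_PER) (h5 : S_FINQ)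
    (h6 : S_MVI) : S_MAIN := by
  intro G _ n g R hR hker hgen hT hne
  have hBle : ⁅D2 G, commutator G⁆ ≤ D2 G := Subgroup.commutator_le_left _ _
  have hBlt : ⁅D2 G, commutator G⁆ < D2 G := lt_of_le_of_ne hBle hne
  obtain ⟨M, hMn, hBM, hMlt, hmax⟩ := h1 G (D2 G) inferInstance hT ⁅D2 G, commutator G⁆
    inferInstance hBlt
  obtain ⟨q, hqdef⟩ : ∃ q : G →* G ⧸ M, q = QuotientGroup.mk' M := ⟨_, rfl⟩
  have hqs : Function.Surjective q := by rw [hqdef]; exact QuotientGroup.mk'_surjective M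
  have hqk : q.ker = M := by rw [hqdef]; exact QuotientGroup.ker_mk' M
  have hmem : ∀ x : G, x ∈ M ↔ q x = 1 := fun x => by
    have h0 : x ∈ q.ker ↔ x ∈ M := by rw [hqk]
    exact h0.symm.trans MonoidHom.mem_ker
  have hC := MAIN_map_comm q hqs
  have hD := MAIN_map_D2 q hqs
  have hcl : Subgroup.closure (Set.range (fun i => q (g i))) = ⊤ := by
    have : Set.range (fun i => q (g i)) = q '' Set.range g := by
      rw [← Set.range_comp]; rfl
    rw [this, ← MonoidHom.map_closure, hgen, Subgroup.map_top_of_surjective q hqs]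
  have hFG : Group.FG (G ⧸ M) := by
    rw [Group.fg_iff]
    exact ⟨Set.range (fun i => q (g i)), hcl, Set.finite_range _⟩
  have hcen : ∀ z ∈ D2 (G ⧸ M), ∀ a ∈ commutator (G ⧸ M), z * a = a * z := by
    intro z hz a ha
    rw [← hD] at hz
    rw [← hC] at ha
    obtain ⟨z', hz', rfl⟩ := hz
    obtain ⟨a', ha', rfl⟩ := ha
    have h7 : z' * a' * z'⁻¹ * a'⁻¹ ∈ M := hBM (Subgroup.commutator_mem_commutator hz' ha')
    rw [hmem, map_mul, map_mul, map_mul, map_inv, map_inv] at h7
    exact mul_inv_eq_iff_eq_mul.mp (mul_inv_eq_one.mp h7)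
  have hle : D2 (G ⧸ M) ≤ commutator (G ⧸ M) := Subgroup.commutator_le_left _ _
  have hmin : ∀ K : Subgroup (G ⧸ M), K.Normal → K ≤ D2 (G ⧸ M) → K = ⊥ ∨ K = D2 (G ⧸ M) := by
    intro K hK hKle
    have hMK : M ≤ K.comap q := by
      intro x hx
      rw [Subgroup.mem_comap, (hmem x).mp hx]
      exact K.one_mem
    have hKD : K.comap q ≤ D2 G := by
      intro x hx
      rw [Subgroup.mem_comap] at hx
      have h8 := hKle hx
      rw [← hD] at h8
      obtain ⟨y, hy, hyx⟩ := h8
      have h9 : y⁻¹ * x ∈ M := by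
        rw [hmem, map_mul, map_inv]
        have : q y = q x := hyx
        rw [this, inv_mul_cancel]
      have h10 : y * (y⁻¹ * x) ∈ D2 G := (D2 G).mul_mem hy (hMlt.le h9)
      rwa [mul_inv_cancel_left] at h10
    have hKm : (K.comap q).map q = K := Subgroup.map_comap_eq_self_of_surjective hqs K
    rcases eq_or_lt_of_le hMK with h8 | h8
    · left
      rw [← hKm, ← h8, eq_bot_iff]
      rintro _ ⟨x, hx, rfl⟩
      exact (Subgroup.mem_bot).mpr ((hmem x).mp hx)
    · right
      have h9 := hmax (K.comap q) inferInstance h8 hKD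
      rw [← hKm, h9, hD]
  have hfin : Finite (D2 (G ⧸ M)) :=
    h2 (G ⧸ M) (D2 (G ⧸ M)) hFG inferInstance (fun a ha b hb => hcen a ha b (hle hb))
      (fun x hx a ha => (hcen a ha x hx).symm) hmin
  obtain ⟨Λ, s, hgeo, hrel⟩ := h3 G n g R hR hker hgen hT
  have hrel' : ∀ l ∈ Λ, ∀ a ∈ commutator (G ⧸ M), ∃ z ∈ D2 (G ⧸ M),
      a = (l.map fun x => (mono (fun i => q (g i)) x.1)⁻¹ * pw a x.2 *
        mono (fun i => q (g i)) x.1).prod * z := by
    intro l hl a ha
    rw [← hC] at ha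
    obtain ⟨a', ha', rfl⟩ := ha
    obtain ⟨z', hz', e⟩ := hrel l hl a' ha'
    refine ⟨q z', ?_, ?_⟩
    · rw [← hD]; exact ⟨z', hz', rfl⟩
    · conv_lhs => rw [e]
      rw [map_mul, map_list_prod, List.map_map]
      congr 2
      apply List.map_congr_left
      intro x _
      show q ((mono g x.1)⁻¹ * pw a' x.2 * mono g x.1) = _
      rw [map_mul, map_mul, map_inv, MAIN_mono, MAIN_pw]
  have hper := h4 (G ⧸ M) n (fun i => q (g i)) s Λ hcl hgeo hcen hfin hrel'
  have hidx := h5 (G ⧸ M) n (fun i => q (g i)) hcl hcen hfin hper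
  have hres := h6 (G ⧸ M) hFG hidx
  obtain ⟨y, hy, hyM⟩ := SetLike.exists_of_lt hMlt
  have hy1 : q y ≠ 1 := fun h => hyM ((hmem y).mpr h)
  obtain ⟨K0, hK0n, hK0i, hK0x⟩ := hres (q y) hy1
  refine ⟨K0.comap q, inferInstance, ?_, ?_⟩
  · rw [Subgroup.index_comap_of_surjective _ hqs]
    exact hK0i
  · intro h
    exact hK0x (h hy)

end H114MF
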