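import Pool.Agent.H114.MF.Defs
import Pool.Agent.H114.MF.Defs3
import Pool.Agent.H114.MF.MAIN

set_option autoImplicit false

namespace H114MF

open H114MB

/-- the centralizer of a finite normal subgroup has finite index -/
theorem MAINB_cent {E : Type} [Group E] (D : Subgroup E) [D.Normal] [Finite D] :
    (Subgroup.centralizer (D : Set E)).index ≠ 0 := by
  have hfin : Finite (MulAut D) :=
    Finite.of_injective (fun f : MulAut D => (f : D → D)) DFunLike.coe_injective
  have h1 : (MulAut.conjNormal (H := D)).ker.index ≠ 0 := by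
    rw [Subgroup.index_ker]
    exact Nat.card_pos.ne'
  have h2 : (MulAut.conjNormal (H := D)).ker ≤ Subgroup.centralizer (D : Set E) := by
    intro x hx
    rw [MonoidHom.mem_ker] at hx
    rw [Subgroup.mem_centralizer_iff]
    intro d hd
    have h3 := MulAut.conjNormal_apply x (⟨d, hd⟩ : D)
    rw [hx] at h3
    have h4 : d = x * d * x⁻¹ := h3
    calc d * x = (x * d * x⁻¹) * x := by rw [← h4]
      _ = x * d := by group
  intro h
  exact h1 (Nat.eq_zero_of_zero_dvd (h ▸ Subgroup.index_dvd_of_le h2))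

/-- in a solvable group, `L ⊔ ⁅D, D⁆` is smaller than `D` -/
theorem MAINB_lt {G : Type} [Group G] [Group.IsSolvable G] (D L : Subgroup G) [L.Normal]
    (hL : L < D) : L ⊔ ⁅D, D⁆ < D := by
  refine lt_of_le_of_ne (sup_le hL.le (Subgroup.commutator_le_self D)) ?_
  intro h
  have hk : (QuotientGroup.mk' L).ker = L := QuotientGroup.ker_mk' L
  have h0 : L.map (QuotientGroup.mk' L) = ⊥ := by
    rw [Subgroup.map_eq_bot_iff, hk]
  have h1 : ⁅D.map (QuotientGroup.mk' L), D.map (QuotientGroup.mk' L)⁆ =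
      D.map (QuotientGroup.mk' L) := by
    rw [← Subgroup.map_commutator]
    conv_rhs => rw [← h]
    rw [Subgroup.map_sup, h0, bot_sup_eq]
  have h2 : D.map (QuotientGroup.mk' L) ≠ ⊥ := by
    intro h3
    rw [Subgroup.map_eq_bot_iff, hk] at h3
    exact absurd h3 (not_le_of_gt hL)
  have h3 := Group.IsSolvable.commutator_lt_of_ne_bot h2
  exact h3.ne h1

/-- `B` is the normal closure of a finite set -/
theorem MAINB_fin (h : S_NOET) {E : Type} [Group E] (hFG : Group.FG E) (B : Subgroup E)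
    (hBn : B.Normal) (hBle : B ≤ commutator E) (hD : D2 E ≤ B) (hfin : Finite (D2 E)) :
    ∃ T : Finset E, B = Subgroup.normalClosure (T : Set E) := by
  classical
  obtain ⟨r, hr⟩ : ∃ r : E →* E ⧸ D2 E, r = QuotientGroup.mk' (D2 E) := ⟨_, rfl⟩
  have hrs : Function.Surjective r := by rw [hr]; exact QuotientGroup.mk'_surjective _
  have hrk : ∀ x : E, r x = 1 ↔ x ∈ D2 E := fun x => by
    rw [hr, ← MonoidHom.mem_ker, QuotientGroup.ker_mk']
  have hcomm : ∀ x ∈ commutator (E ⧸ D2 E), ∀ y ∈ commutator (E ⧸ D2 E), x * y = y * x := by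
    intro x hx y hy
    rw [← MAIN_map_comm r hrs] at hx hy
    obtain ⟨a, ha, rfl⟩ := hx
    obtain ⟨b, hb, rfl⟩ := hy
    have h7 : a * b * a⁻¹ * b⁻¹ ∈ D2 E := Subgroup.commutator_mem_commutator ha hb
    rw [← hrk, map_mul, map_mul, map_mul, map_inv, map_inv] at h7
    exact mul_inv_eq_iff_eq_mul.mp (mul_inv_eq_one.mp h7)
  have hFG' : Group.FG (E ⧸ D2 E) := Group.fg_of_surjective hrs
  obtain ⟨T, hT⟩ := h (E ⧸ D2 E) hFG' hcomm (B.map r) (hBn.map r hrs) (by
    rw [← MAIN_map_comm r hrs]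
    exact Subgroup.map_mono hBle)
  have hlift : ∀ t : E ⧸ D2 E, ∃ b : E, t ∈ T → b ∈ B ∧ r b = t := by
    intro t
    by_cases ht : t ∈ T
    · have : t ∈ B.map r := by
        rw [hT]
        exact Subgroup.subset_normalClosure ht
      obtain ⟨b, hb, hbt⟩ := this
      exact ⟨b, fun _ => ⟨hb, hbt⟩⟩
    · exact ⟨1, fun h => absurd h ht⟩
  choose lf hlf using hlift
  have hDf : (D2 E : Set E).Finite := Set.toFinite _
  refine ⟨T.image lf ∪ hDf.toFinset, le_antisymm ?_ ?_⟩
  · intro b hb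
    set N := Subgroup.normalClosure ((T.image lf ∪ hDf.toFinset : Finset E) : Set E) with hN
    have hDN : D2 E ≤ N := by
      intro x hx
      apply Subgroup.subset_normalClosure
      rw [Finset.mem_coe, Finset.mem_union]
      right
      exact hDf.mem_toFinset.2 hx
    have hTN : Subgroup.normalClosure (T : Set (E ⧸ D2 E)) ≤ N.map r := by
      have hNn : (N.map r).Normal := Subgroup.Normal.map Subgroup.normalClosure_normal r hrs
      apply Subgroup.normalClosure_le_normal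
      intro t ht
      refine ⟨lf t, ?_, (hlf t ht).2⟩
      apply Subgroup.subset_normalClosure
      rw [Finset.mem_coe, Finset.mem_union]
      left
      exact Finset.mem_image_of_mem lf ht
    have h1 : r b ∈ N.map r := hTN (hT ▸ ⟨b, hb, rfl⟩)
    obtain ⟨c, hc, hcb⟩ := h1
    have h2 : c⁻¹ * b ∈ D2 E := by
      rw [← hrk, map_mul, map_inv, hcb, inv_mul_cancel]
    have h3 : c * (c⁻¹ * b) ∈ N := N.mul_mem hc (hDN h2)
    rwa [mul_inv_cancel_left] at h3
  · apply Subgroup.normalClosure_le_normal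
    intro x hx
    rw [Finset.mem_coe, Finset.mem_union, Finset.mem_image] at hx
    rcases hx with ⟨t, ht, rfl⟩ | hx
    · exact (hlf t ht).1
    · exact hD (hDf.mem_toFinset.1 hx)

theorem t_MAINB (h3 : S_CENQ) (h4 : S_PERB) (h5 : S_FINQB) (hNO : S_NOET) (h6 : S_MVIB) :
    S_MAINB := by
  intro G _ n g R hR hker hgen hsol hT ⟨L, hLn, hLlt, hLi⟩
  haveI := hsol
  obtain ⟨M, hMdef⟩ : ∃ M : Subgroup G, M = L ⊔ ⁅D2 G, D2 G⁆ := ⟨_, rfl⟩
  have hMn : M.Normal := by rw [hMdef]; infer_instance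
  have hMlt : M < D2 G := by rw [hMdef]; exact MAINB_lt (D2 G) L hLlt
  have hMi : M.relIndex (D2 G) ≠ 0 := by
    intro h
    have h1 : M.relIndex (D2 G) ∣ L.relIndex (D2 G) :=
      Subgroup.relIndex_dvd_of_le_left _ (by rw [hMdef]; exact le_sup_left)
    rw [h] at h1
    exact hLi (Nat.eq_zero_of_zero_dvd h1)
  have hDM : ⁅D2 G, D2 G⁆ ≤ M := by rw [hMdef]; exact le_sup_right
  obtain ⟨q, hqdef⟩ : ∃ q : G →* G ⧸ M, q = QuotientGroup.mk' M := ⟨_, rfl⟩
  have hqs : Function.Surjective q := by rw [hqdef]; exact QuotientGroup.mk'_surjective M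
  have hqk : q.ker = M := by rw [hqdef]; exact QuotientGroup.ker_mk' M
  have hmem : ∀ x : G, x ∈ M ↔ q x = 1 := fun x => by
    have h0 : x ∈ q.ker ↔ x ∈ M := by rw [hqk]
    exact h0.symm.trans MonoidHom.mem_ker
  have hC := MAIN_map_comm q hqs
  have hD := MAIN_map_D2 q hqs
  have hcl : Subgroup.closure (Set.range (fun i => q (g i))) = ⊤ := by
    have : Set.range (fun i => q (g i)) = q '' Set.range g := by
      rw [← Set.range_comp]; rfl
    rw [this, ← MonoidHom.map_closure, hgen, Subgroup.map_top_of_surjective q hqs]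
  have hFG : Group.FG (G ⧸ M) := by
    rw [Group.fg_iff]
    exact ⟨Set.range (fun i => q (g i)), hcl, Set.finite_range _⟩
  have hab : ∀ z ∈ D2 (G ⧸ M), ∀ a ∈ D2 (G ⧸ M), z * a = a * z := by
    intro z hz a ha
    rw [← hD] at hz ha
    obtain ⟨z', hz', rfl⟩ := hz
    obtain ⟨a', ha', rfl⟩ := ha
    have h7 : z' * a' * z'⁻¹ * a'⁻¹ ∈ M := hDM (Subgroup.commutator_mem_commutator hz' ha')
    rw [hmem, map_mul, map_mul, map_mul, map_inv, map_inv] at h7
    exact mul_inv_eq_iff_eq_mul.mp (mul_inv_eq_one.mp h7)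
  have hle : D2 (G ⧸ M) ≤ commutator (G ⧸ M) := Subgroup.commutator_le_left _ _
  have hfin : Finite (D2 (G ⧸ M)) := by
    have h1 : Nat.card (D2 (G ⧸ M)) ≠ 0 := by
      rw [← hD, ← Subgroup.relIndex_ker, hqk]
      exact hMi
    exact Nat.finite_of_card_ne_zero h1
  -- the subgroup B
  obtain ⟨B, hBdef⟩ : ∃ B : Subgroup (G ⧸ M), B = commutator (G ⧸ M) ⊓
      Subgroup.centralizer (D2 (G ⧸ M) : Set (G ⧸ M)) := ⟨_, rfl⟩
  have hBn : B.Normal := by rw [hBdef]; infer_instance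
  have hBle : B ≤ commutator (G ⧸ M) := by rw [hBdef]; exact inf_le_left
  have hDB : D2 (G ⧸ M) ≤ B := by
    rw [hBdef]
    refine le_inf hle ?_
    intro x hx
    rw [Subgroup.mem_centralizer_iff]
    intro y hy
    exact hab y hy x hx
  have hcen : ∀ z ∈ D2 (G ⧸ M), ∀ a ∈ B, z * a = a * z := by
    intro z hz a ha
    rw [hBdef] at ha
    exact Subgroup.mem_centralizer_iff.1 ha.2 z hz
  have hBi : B.relIndex (commutator (G ⧸ M)) ≠ 0 := by
    rw [hBdef, inf_comm, Subgroup.inf_relIndex_right]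
    intro h
    have h1 := Subgroup.relIndex_eq_zero_of_le_right (le_top : commutator (G ⧸ M) ≤ ⊤) h
    rw [Subgroup.relIndex_top_right] at h1
    exact MAINB_cent (D2 (G ⧸ M)) h1
  obtain ⟨Λ, s, hgeo, hrel⟩ := h3 G n g R hR hker hgen hT
  have hrel' : ∀ l ∈ Λ, ∀ a ∈ B, ∃ z ∈ D2 (G ⧸ M),
      a = (l.map fun x => (mono (fun i => q (g i)) x.1)⁻¹ * pw a x.2 *
        mono (fun i => q (g i)) x.1).prod * z := by
    intro l hl a ha
    have ha := hBle ha
    rw [← hC] at ha
    obtain ⟨a', ha', rfl⟩ := ha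
    obtain ⟨z', hz', e⟩ := hrel l hl a' ha'
    refine ⟨q z', ?_, ?_⟩
    · rw [← hD]; exact ⟨z', hz', rfl⟩
    · conv_lhs => rw [e]
      rw [map_mul, map_list_prod, List.map_map]
      congr 2
      apply List.map_congr_left
      intro x _
      show q ((mono g x.1)⁻¹ * pw a' x.2 * mono g x.1) = _
      rw [map_mul, map_mul, map_inv, MAIN_mono, MAIN_pw]
  have hper := h4 (G ⧸ M) n (fun i => q (g i)) s Λ B hcl hgeo hBn hBle hDB hcen hfin hrel'
  have hBT := MAINB_fin hNO hFG B hBn hBle hDB hfin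
  have hidx := h5 (G ⧸ M) n (fun i => q (g i)) B hcl hBn hBle hDB hcen hfin hBT hper
  obtain ⟨Z, hZdef⟩ : ∃ Z : Subgroup (G ⧸ M), Z = B ⊓
      Subgroup.centralizer (B : Set (G ⧸ M)) := ⟨_, rfl⟩
  rw [← hZdef] at hidx
  have hZn : Z.Normal := by rw [hZdef]; infer_instance
  have hZB : Z ≤ B := by rw [hZdef]; exact inf_le_left
  have hZab : ∀ x ∈ Z, ∀ y ∈ Z, x * y = y * x := by
    intro x hx y hy
    rw [hZdef] at hy
    exact Subgroup.mem_centralizer_iff.1 hy.2 x (hZB hx)
  have hZi : Z.relIndex (commutator (G ⧸ M)) ≠ 0 := by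
    rw [← Subgroup.relIndex_mul_relIndex _ _ _ hZB hBle]
    exact mul_ne_zero hidx hBi
  have hres := h6 (G ⧸ M) Z hFG hZn hZab hZi
  obtain ⟨y, hy, hyM⟩ := SetLike.exists_of_lt hMlt
  have hy1 : q y ≠ 1 := fun h => hyM ((hmem y).mpr h)
  obtain ⟨K0, hK0n, hK0i, hK0x⟩ := hres (q y) hy1
  refine ⟨K0.comap q, inferInstance, ?_, ?_⟩
  · rw [Subgroup.index_comap_of_surjective _ hqs]
    exact hK0i
  · intro h
    exact hK0x (h hy)

end H114MF
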