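import Pool.Agent.H114.MF.Defs

/-!
# Task MAXN: maximal proper normal subgroups
-/

set_option autoImplicit false

namespace H114MF

open H114MB

theorem MAXN_fin {E : Type} [Group E] (c : Set (Subgroup E)) (hc : IsChain (· ≤ ·) c)
    (y : Subgroup E) (hy : y ∈ c) (T : Finset E) :
    (∀ t ∈ T, ∃ M ∈ c, t ∈ M) → ∃ M ∈ c, ∀ t ∈ T, t ∈ M := by
  classical
  induction T using Finset.induction_on with
  | empty =>
    intro _
    exact ⟨y, hy, fun t ht => absurd ht (Finset.notMem_empty t)⟩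
  | insert a T ha ih =>
    intro h
    obtain ⟨M1, hM1, h1⟩ := ih (fun t ht => h t (Finset.mem_insert_of_mem ht))
    obtain ⟨M2, hM2, h2⟩ := h a (Finset.mem_insert_self a T)
    rcases hc.total hM1 hM2 with h3 | h3
    · refine ⟨M2, hM2, fun t ht => ?_⟩
      rcases Finset.mem_insert.1 ht with h4 | h4
      · rw [h4]
        exact h2
      · exact h3 (h1 t h4)
    · refine ⟨M1, hM1, fun t ht => ?_⟩
      rcases Finset.mem_insert.1 ht with h4 | h4
      · rw [h4]
        exact h3 h2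
      · exact h1 t h4

theorem t_MAXN : S_MAXN := by
  intro E _ A hA hT B hB hBA
  obtain ⟨T, hT⟩ := hT
  have hz := zorn_le_nonempty₀ {M : Subgroup E | M.Normal ∧ B ≤ M ∧ M < A} (by
    intro c hcs hc y hy
    have hdir : DirectedOn (· ≤ ·) c := hc.directedOn
    have hmem : ∀ x : E, x ∈ sSup c ↔ ∃ M ∈ c, x ∈ M := fun x =>
      Subgroup.mem_sSup_of_directedOn ⟨y, hy⟩ hdir
    refine ⟨sSup c, ⟨?_, ?_, ?_⟩, fun z hz => le_sSup hz⟩
    · refine ⟨fun x hx g => ?_⟩
      obtain ⟨M, hM, hxM⟩ := (hmem x).1 hx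
      exact (hmem _).2 ⟨M, hM, (hcs hM).1.conj_mem x hxM g⟩
    · exact (hcs hy).2.1.trans (le_sSup hy)
    · refine lt_of_le_of_ne (sSup_le fun M hM => (hcs hM).2.2.le) ?_
      intro heq
      have h1 : ∀ t ∈ T, ∃ M ∈ c, t ∈ M := by
        intro t ht
        refine (hmem t).1 ?_
        rw [heq, hT]
        exact Subgroup.subset_normalClosure ht
      obtain ⟨M, hM, h2⟩ := MAXN_fin c hc y hy T h1
      have hMn : M.Normal := (hcs hM).1
      have h3 : A ≤ M := by
        rw [hT]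
        exact Subgroup.normalClosure_le_normal (fun t ht => h2 t ht)
      exact absurd (hcs hM).2.2 (not_lt_of_ge h3)) B ⟨hB, le_refl B, hBA⟩
  obtain ⟨M, hBM, hMax⟩ := hz
  refine ⟨M, hMax.prop.1, hBM, hMax.prop.2.2, ?_⟩
  intro K hK hMK hKA
  by_contra hne
  have h1 : K ≤ M := hMax.le_of_ge ⟨hK, hBM.trans hMK.le, lt_of_le_of_ne hKA hne⟩ hMK.le
  exact absurd hMK (not_lt_of_ge h1)

end H114MF
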