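import Pool.Agent.H114.MF.Defs

/-! Task MRG (helper794): running two semi-decision procedures in parallel. -/

set_option autoImplicit false

namespace H114MF

open H114MB

private theorem mrg_map {α : Type} [Primcodable α] {P : α → Prop} (hP : REPred P) (b : Bool) :
    ∃ f : α →. Bool, Partrec f ∧ ∀ a x, x ∈ f a ↔ P a ∧ x = b := by
  refine ⟨_, Partrec.map hP (Computable.const b).to₂, fun a x => ?_⟩
  simp only [Part.mem_map_iff, Part.mem_assert_iff, Part.mem_some_iff]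
  constructor
  · rintro ⟨_, ⟨h1, _⟩, h2⟩
    exact ⟨h1, h2.symm⟩
  · rintro ⟨h1, h2⟩
    exact ⟨(), ⟨h1, trivial⟩, h2.symm⟩

theorem t_MRG : S_MRG := by
  intro α _ P Q hP hQ hPQ
  obtain ⟨f, hf, hf'⟩ := mrg_map hP true
  obtain ⟨g, hg, hg'⟩ := mrg_map hQ false
  obtain ⟨k, hk, hk'⟩ := Partrec.merge hf hg (by
    intro a x hx y hy
    exact absurd ⟨((hf' a x).1 hx).1, ((hg' a y).1 hy).1⟩ (hPQ a))
  refine ⟨k, hk, fun a => ?_, fun a => ?_⟩
  · rw [hk', hf', hg']
    simp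
  · rw [hk', hf', hg']
    simp

end H114MF
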