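import Pool.Agent.H114.MF.Defs

/-!
# Groups whose commutator subgroup is central-by-finite
-/

set_option autoImplicit false

namespace H114MF

open H114MB
open scoped commutatorElement

theorem t_MVI (h1 : S_HALL) (h2 : S_FI) : S_MVI := by
  intro E _ hfg hrel
  have hcn : (Subgroup.centralizer (commutator E : Set E)).Normal :=
    Subgroup.normal_centralizer
  have hZn : (commutator E ⊓ Subgroup.centralizer (commutator E : Set E)).Normal := inferInstance
  generalize hZ : commutator E ⊓ Subgroup.centralizer (commutator E : Set E) = Z at hZn hrel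
  have hfin : Finite (commutator E ⧸ Z.subgroupOf (commutator E)) :=
    Nat.finite_of_card_ne_zero hrel
  let f : (commutator E ⧸ Z.subgroupOf (commutator E)) →* E ⧸ Z :=
    QuotientGroup.map (Z.subgroupOf (commutator E)) Z (commutator E).subtype le_rfl
  have hsub : commutatorSet (E ⧸ Z) ⊆ Set.range f := by
    rintro _ ⟨p, q, rfl⟩
    obtain ⟨a, rfl⟩ := QuotientGroup.mk_surjective p
    obtain ⟨b, rfl⟩ := QuotientGroup.mk_surjective q
    exact ⟨QuotientGroup.mk ⟨⁅a, b⁆, Subgroup.commutator_mem_commutator (Subgroup.mem_top a)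
      (Subgroup.mem_top b)⟩, rfl⟩
  have hcs : Finite (commutatorSet (E ⧸ Z)) := (Set.finite_range f).subset hsub
  have hfgE : Group.FG E := hfg
  have hfgQ : Group.FG (E ⧸ Z) := inferInstance
  have hc : (Subgroup.center (E ⧸ Z)).FiniteIndex := Subgroup.finiteIndex_center
  let C : Subgroup E := (Subgroup.center (E ⧸ Z)).comap (QuotientGroup.mk' Z)
  have hC : C.FiniteIndex := ⟨by
    rw [Subgroup.index_comap_of_surjective _ (QuotientGroup.mk'_surjective Z)]
    exact hc.index_ne_zero⟩
  have hfgC : Group.FG C := Subgroup.fg_of_index_ne_zero C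
  have hcm : ∀ c ∈ C, ∀ d : E, ⁅c, d⁆ ∈ Z := by
    intro c hc d
    have h3 : QuotientGroup.mk' Z c ∈ Subgroup.center (E ⧸ Z) := hc
    have h4 := Subgroup.mem_center_iff.1 h3 (QuotientGroup.mk' Z d)
    rw [← QuotientGroup.eq_one_iff, ← QuotientGroup.mk'_apply, map_commutatorElement,
      commutatorElement_eq_one_iff_mul_comm]
    exact h4.symm
  have hab : ∀ x ∈ commutator C, ∀ y ∈ commutator C, x * y = y * x := by
    have hle : commutator C ≤ Z.subgroupOf C := by
      rw [commutator_def, Subgroup.commutator_le]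
      rintro a - b -
      rw [Subgroup.mem_subgroupOf]
      exact hcm a a.2 b
    intro x hx y hy
    have hx' := Subgroup.mem_subgroupOf.1 (hle hx)
    have hy' := Subgroup.mem_subgroupOf.1 (hle hy)
    rw [← hZ] at hx' hy'
    apply Subtype.ext
    exact (Subgroup.mem_centralizer_iff.1 hx'.2 y.1 hy'.1).symm
  exact h2 E C hC.index_ne_zero (h1 C hfgC hab)

end H114MF
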