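import Mathlib
import Pool.Agent.H114.MF.Defs3

/-!
NOET: normal subgroups of a finitely generated metabelian group which lie in the commutator
subgroup are finitely generated as normal subgroups.
-/

set_option autoImplicit false

namespace H114MF

open H114MB
open scoped commutatorElement

private theorem noet_nc {G : Type} [Group G] (hG : Group.FG G) :
    ∃ T : Set G, T.Finite ∧ T ⊆ commutator G ∧ commutator G ≤ Subgroup.normalClosure T := by
  obtain ⟨S, hS⟩ := hG.out
  set T : Set G := (fun p : G × G => ⁅p.1, p.2⁆) '' ((S : Set G) ×ˢ (S : Set G)) with hT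
  refine ⟨T, (S.finite_toSet.prod S.finite_toSet).image _, ?_, ?_⟩
  · rintro _ ⟨p, -, rfl⟩
    exact Subgroup.commutator_mem_commutator (Subgroup.mem_top _) (Subgroup.mem_top _)
  · set N := Subgroup.normalClosure T with hN
    have h0 : ∀ s ∈ S, ∀ t ∈ S, QuotientGroup.mk' N s * QuotientGroup.mk' N t =
        QuotientGroup.mk' N t * QuotientGroup.mk' N s := by
      intro s hs t ht
      rw [← commutatorElement_eq_one_iff_mul_comm, ← map_commutatorElement]
      refine (QuotientGroup.eq_one_iff _).2 (Subgroup.subset_normalClosure ?_)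
      exact ⟨(s, t), ⟨hs, ht⟩, rfl⟩
    have h1 : ∀ s ∈ S, ∀ g : G, QuotientGroup.mk' N s * QuotientGroup.mk' N g =
        QuotientGroup.mk' N g * QuotientGroup.mk' N s := by
      intro s hs g
      have h2 : Subgroup.closure (S : Set G) ≤
          (Subgroup.centralizer {QuotientGroup.mk' N s}).comap (QuotientGroup.mk' N) := by
        rw [Subgroup.closure_le]
        intro t ht
        rw [SetLike.mem_coe, Subgroup.mem_comap, Subgroup.mem_centralizer_iff]
        intro h hh
        rw [Set.mem_singleton_iff] at hh
        subst hh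
        exact h0 s hs t ht
      have h3 := h2 (hS ▸ Subgroup.mem_top g)
      rw [Subgroup.mem_comap, Subgroup.mem_centralizer_iff] at h3
      exact h3 _ rfl
    have h4 : ∀ g h : G, QuotientGroup.mk' N g * QuotientGroup.mk' N h =
        QuotientGroup.mk' N h * QuotientGroup.mk' N g := by
      intro g h
      have h2 : Subgroup.closure (S : Set G) ≤
          (Subgroup.centralizer {QuotientGroup.mk' N g}).comap (QuotientGroup.mk' N) := by
        rw [Subgroup.closure_le]
        intro t ht
        rw [SetLike.mem_coe, Subgroup.mem_comap, Subgroup.mem_centralizer_iff]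
        intro k hk
        rw [Set.mem_singleton_iff] at hk
        subst hk
        exact (h1 t ht g).symm
      have h3 := h2 (hS ▸ Subgroup.mem_top h)
      rw [Subgroup.mem_comap, Subgroup.mem_centralizer_iff] at h3
      exact h3 _ rfl
    rw [commutator_def, Subgroup.commutator_le]
    intro g _ h _
    refine (QuotientGroup.eq_one_iff _).1 ?_
    change QuotientGroup.mk' N ⁅g, h⁆ = 1
    rw [map_commutatorElement, commutatorElement_eq_one_iff_mul_comm]
    exact h4 g h

theorem t_NOET (h1 : S_ACT) : S_NOET := by
  intro G _ hG hA K hK hKle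
  classical
  obtain ⟨R, M, iR, iM, iRM, f, hR, hf, hadd, hfwd, hsub⟩ := h1 G (commutator G) inferInstance hG
    (fun a ha b hb => hA a ha b hb) (fun g hg a ha => hA g hg a ha)
  have hfin : Module.Finite R M := by
    obtain ⟨T, hTf, hTc, hTn⟩ := noet_nc hG
    obtain ⟨K, hK, hKA, hKm⟩ := hsub (Submodule.span R (f '' {a | (a : G) ∈ T}))
    have hTK : T ⊆ K := by
      intro t ht
      refine (hKm ⟨t, hTc ht⟩).1 (Submodule.subset_span ⟨⟨t, hTc ht⟩, ht, rfl⟩)
    have hle : commutator G ≤ K := hTn.trans (Subgroup.normalClosure_le_normal hTK)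
    have htop : Submodule.span R (f '' {a | (a : G) ∈ T}) = ⊤ := by
      rw [eq_top_iff]
      intro m _
      obtain ⟨a, rfl⟩ := hf.2 m
      exact (hKm a).2 (hle a.2)
    refine Module.finite_def.2 ?_
    rw [← htop]
    refine Submodule.fg_span (Set.Finite.image _ ?_)
    exact hTf.preimage Subtype.val_injective.injOn
  have hnR : IsNoetherianRing R := Algebra.FiniteType.isNoetherianRing ℤ R
  have hnM : IsNoetherian R M := isNoetherian_of_isNoetherianRing_of_finite R M
  obtain ⟨N, hN⟩ := hfwd K hK hKle
  obtain ⟨s, hs⟩ := IsNoetherian.noetherian N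
  choose g hg using hf.2
  have hTK : ((s.image (fun m => (g m : G)) : Finset G) : Set G) ⊆ K := by
    intro x hx
    rw [Finset.coe_image] at hx
    obtain ⟨m, hm, rfl⟩ := hx
    have h2 : m ∈ N := by
      rw [← hs]
      exact Submodule.subset_span hm
    have h3 := (hN (g m)).1 (by rw [hg]; exact h2)
    exact h3
  refine ⟨s.image (fun m => (g m : G)), le_antisymm ?_ ?_⟩
  · obtain ⟨N1, hN1⟩ := hfwd
      (Subgroup.normalClosure ((s.image (fun m => (g m : G)) : Finset G) : Set G)) inferInstance
      ((Subgroup.normalClosure_le_normal hTK).trans hKle)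
    have hle : N ≤ N1 := by
      rw [← hs, Submodule.span_le]
      intro m hm
      have h2 := (hN1 (g m)).2 (Subgroup.subset_normalClosure (by
        rw [Finset.coe_image]
        exact ⟨m, hm, rfl⟩))
      rwa [hg] at h2
    intro x hx
    exact (hN1 ⟨x, hKle hx⟩).1 (hle ((hN ⟨x, hKle hx⟩).2 hx))
  · exact Subgroup.normalClosure_le_normal hTK

end H114MF
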