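import Pool.Agent.H114.MF.Defs

/-!
NUL: a field which is finitely generated as a ring is finite.
-/

set_option autoImplicit false

namespace H114MF

lemma NUL_jac : IsJacobsonRing ℤ := by
  rw [isJacobsonRing_iff_prime_eq]
  intro P hP
  by_cases h : P = ⊥
  · subst h
    refine le_antisymm ?_ Ideal.le_jacobson
    intro x hx
    rw [Ideal.mem_jacobson_bot] at hx
    have h1 := hx x
    rw [Int.isUnit_iff] at h1
    rw [Ideal.mem_bot]
    rcases h1 with h1 | h1
    · have : x * x = 0 := by linarith
      exact mul_self_eq_zero.1 this
    · nlinarith [mul_self_nonneg x]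
  · have : P.IsMaximal := IsPrime.to_maximal_ideal h
    exact Ideal.jacobson_eq_self_of_isMaximal

theorem t_NUL : S_NUL := by
  intro K _ hft
  have := NUL_jac
  have := hft
  have hfin : Module.Finite ℤ K := finite_of_finite_type_of_isJacobsonRing ℤ K
  have : Algebra.IsIntegral ℤ K := inferInstance
  obtain ⟨p, hp⟩ := CharP.exists K
  rcases (CharP.char_is_prime_or_zero K p) with hpr | h0
  · have : Fact p.Prime := ⟨hpr⟩
    let : Algebra (ZMod p) K := ZMod.algebra K p
    have : IsScalarTower ℤ (ZMod p) K := IsScalarTower.of_algebraMap_eq' (RingHom.ext_int _ _)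
    have : Module.Finite (ZMod p) K := Module.Finite.of_restrictScalars_finite ℤ (ZMod p) K
    exact Module.finite_of_finite (ZMod p)
  · exfalso
    subst h0
    have : CharZero K := CharP.charP_to_charZero K
    have hinj : Function.Injective (algebraMap ℤ K) := (algebraMap ℤ K).injective_int
    exact Int.not_isField (isField_of_isIntegral_of_isField hinj (Field.toIsField K))

end H114MF
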