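import Pool.Agent.H114.MF.Defs

set_option autoImplicit false

namespace H114MF

private theorem nul_jac : IsJacobsonRing ℤ := by
  rw [isJacobsonRing_iff_prime_eq]
  intro P hP
  by_cases h : P = ⊥
  · subst h
    rw [eq_bot_iff]
    intro x hx
    by_contra hx0
    have hx0' : x ≠ 0 := fun h => hx0 (by simp [h])
    obtain ⟨p, hp1, hp2⟩ := Nat.exists_infinite_primes (x.natAbs + 1)
    have hprime : Prime (p : ℤ) := Nat.prime_iff_prime_int.1 hp2
    have hmax : (Ideal.span {(p : ℤ)}).IsMaximal :=
      PrincipalIdealRing.isMaximal_of_irreducible hprime.irreducible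
    have hx1 : x ∈ Ideal.span {(p : ℤ)} := by
      have h1 := Ideal.mem_sInf.1 hx
      exact h1 ⟨bot_le, hmax⟩
    rw [Ideal.mem_span_singleton] at hx1
    have h2 : p ∣ x.natAbs := Int.natCast_dvd.1 hx1
    have h3 := Nat.le_of_dvd (Int.natAbs_pos.2 hx0') h2
    omega
  · have hm : P.IsMaximal := Ideal.IsPrime.isMaximal hP h
    exact Ideal.jacobson_eq_self_of_isMaximal

theorem t_NUL : S_NUL := by
  intro K _ hft
  have hj := nul_jac
  have h1 : Module.Finite ℤ K := finite_of_finite_type_of_isJacobsonRing ℤ K
  have hint : Algebra.IsIntegral ℤ K := inferInstance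
  have hninj : ¬ Function.Injective (algebraMap ℤ K) := by
    intro hinj
    have : IsField ℤ := (Algebra.IsIntegral.isField_iff_isField hinj).2 (Field.toIsField K)
    exact Int.not_isField this
  obtain ⟨p, hp⟩ := CharP.exists K
  rcases Nat.eq_zero_or_pos p with h0 | h0
  · subst h0
    have : CharZero K := CharP.charP_to_charZero K
    exact absurd (by
      intro a b hab
      simpa using hab) hninj
  · have : NeZero p := ⟨h0.ne'⟩
    letI : Algebra (ZMod p) K := ZMod.algebra K p
    have h3 : Module.Finite (ZMod p) K := by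
      obtain ⟨s, hs⟩ := h1.fg_top
      refine ⟨⟨s, ?_⟩⟩
      rw [eq_top_iff]
      intro x _
      have hx : x ∈ Submodule.span ℤ (s : Set K) := by rw [hs]; trivial
      refine Submodule.span_induction (p := fun x _ => x ∈ Submodule.span (ZMod p) (s : Set K))
        ?_ ?_ ?_ ?_ hx
      · intro y hy; exact Submodule.subset_span hy
      · exact Submodule.zero_mem _
      · intro y z _ _ hy hz; exact Submodule.add_mem _ hy hz
      · intro a y _ hy; exact zsmul_mem hy a
    exact Module.finite_of_finite (ZMod p)

end H114MF
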