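import Pool.Agent.H114.MF.Defs

set_option autoImplicit false

namespace H114MF

open H114MB

section basic

variable {E : Type} [Group E]

private theorem per_cm_mem {a b : E} (ha : a ∈ commutator E) (hb : b ∈ commutator E) :
    cm a b ∈ D2 E := by
  have := Subgroup.commutator_mem_commutator ha hb
  simpa [cm, commutatorElement_def] using this

private theorem per_D2_le : D2 E ≤ commutator E := Subgroup.commutator_le_right _ _

variable (hS : ∀ z ∈ D2 E, ∀ a ∈ commutator E, z * a = a * z)

include hS in
private theorem per_mul_left {a a' b : E} (ha : a ∈ commutator E) (ha' : a' ∈ commutator E)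
    (hb : b ∈ commutator E) : cm (a * a') b = cm a b * cm a' b := by
  have h := hS _ (per_cm_mem ha' hb) _ (mul_mem (mul_mem ha hb) (inv_mem ha))
  have h1 : cm (a * a') b = a * cm a' b * b * a⁻¹ * b⁻¹ := by simp only [cm]; group
  have h2 := hS _ (per_cm_mem ha' hb) _ ha
  have h3 := hS _ (per_cm_mem ha' hb) _ (per_D2_le (per_cm_mem ha hb))
  rw [h1, ← h2, ← h3]
  simp only [cm]; group

include hS in
private theorem per_mul_right {a b b' : E} (ha : a ∈ commutator E) (hb : b ∈ commutator E)
    (hb' : b' ∈ commutator E) : cm a (b * b') = cm a b * cm a b' := by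
  have h1 : cm a (b * b') = a * b * a⁻¹ * cm a b' * b⁻¹ := by simp only [cm]; group
  have h2 := hS _ (per_cm_mem ha hb') _ (inv_mem hb)
  rw [h1, mul_assoc (a * b * a⁻¹), h2]
  simp only [cm]; group

private theorem per_one_left (b : E) : cm 1 b = 1 := by simp [cm]

private theorem per_one_right (a : E) : cm a 1 = 1 := by simp [cm]

include hS in
private theorem per_pw_left {a b : E} (ha : a ∈ commutator E) (hb : b ∈ commutator E) (c : Bool) :
    cm (pw a c) b = pw (cm a b) c := by
  cases c
  · simp only [pw]
    have h := per_mul_left hS ha (inv_mem ha) hb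
    rw [mul_inv_cancel, per_one_left] at h
    simpa using (inv_eq_of_mul_eq_one_right h.symm).symm
  · simp [pw]

include hS in
private theorem per_pw_right {a b : E} (ha : a ∈ commutator E) (hb : b ∈ commutator E)
    (c : Bool) : cm a (pw b c) = pw (cm a b) c := by
  cases c
  · simp only [pw]
    have h := per_mul_right hS ha hb (inv_mem hb)
    rw [mul_inv_cancel, per_one_right] at h
    simpa using (inv_eq_of_mul_eq_one_right h.symm).symm
  · simp [pw]

include hS in
private theorem per_z_right {a z : E} (ha : a ∈ commutator E) (hz : z ∈ D2 E) : cm a z = 1 := by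
  simp only [cm]
  rw [← hS z hz a ha]; group

include hS in
private theorem per_z_left {a z : E} (ha : a ∈ commutator E) (hz : z ∈ D2 E) : cm z a = 1 := by
  simp only [cm]
  rw [hS z hz a ha]; group

private theorem per_conj_mem {b : E} (y : E) (hb : b ∈ commutator E) :
    y⁻¹ * b * y ∈ commutator E := by
  have := (inferInstance : (commutator E).Normal).conj_mem b hb y⁻¹
  simpa using this

private theorem per_conj_mem2 {b : E} (y : E) (hb : b ∈ D2 E) :
    y⁻¹ * b * y ∈ D2 E := by
  have := (inferInstance : (D2 E).Normal).conj_mem b hb y⁻¹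
  simpa using this

private theorem per_pw_mem {b : E} (c : Bool) (hb : b ∈ commutator E) :
    pw b c ∈ commutator E := by
  cases c
  · simpa [pw] using hb
  · simpa [pw] using hb

private theorem per_pw_mem2 {b : E} (c : Bool) (hb : b ∈ D2 E) :
    pw b c ∈ D2 E := by
  cases c
  · simpa [pw] using hb
  · simpa [pw] using hb

include hS in
private theorem per_class {a b x y : E} (ha : a ∈ commutator E) (hb : b ∈ commutator E)
    (hxy : x⁻¹ * y ∈ commutator E) : cm a (x⁻¹ * b * x) = cm a (y⁻¹ * b * y) := by
  have h1 : y⁻¹ * b * y = (x⁻¹ * b * x) * cm ((x⁻¹ * b * x)⁻¹) ((x⁻¹ * y)⁻¹) := by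
    simp only [cm]; group
  have hb1 := per_conj_mem x hb
  have hz := per_cm_mem (inv_mem hb1) (inv_mem hxy)
  rw [h1, per_mul_right hS ha hb1 (per_D2_le hz), per_z_right hS ha hz, mul_one]

include hS in
private theorem per_list_right {a : E} (ha : a ∈ commutator E) (L : List E)
    (hL : ∀ x ∈ L, x ∈ commutator E) : cm a L.prod = (L.map (cm a)).prod := by
  induction L with
  | nil => simp [per_one_right]
  | cons x L ih =>
    have h1 : ∀ y ∈ L, y ∈ commutator E := fun y hy => hL y (List.mem_cons_of_mem _ hy)
    rw [List.prod_cons, per_mul_right hS ha (hL x List.mem_cons_self) (Subgroup.list_prod_mem _ h1),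
      ih h1, List.map_cons, List.prod_cons]

include hS in
private theorem per_list_left {b : E} (hb : b ∈ commutator E) (L : List E)
    (hL : ∀ x ∈ L, x ∈ commutator E) : cm L.prod b = (L.map (fun x => cm x b)).prod := by
  induction L with
  | nil => simp [per_one_left]
  | cons x L ih =>
    have h1 : ∀ y ∈ L, y ∈ commutator E := fun y hy => hL y (List.mem_cons_of_mem _ hy)
    rw [List.prod_cons, per_mul_left hS (hL x List.mem_cons_self) (Subgroup.list_prod_mem _ h1) hb,
      ih h1, List.map_cons, List.prod_cons]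

private theorem per_conj_list {α : Type} (m : E) (l : List α) (f : α → E) :
    m⁻¹ * (l.map f).prod * m = (l.map fun x => m⁻¹ * f x * m).prod := by
  induction l with
  | nil => simp
  | cons x l ih =>
    rw [List.map_cons, List.prod_cons, List.map_cons, List.prod_cons, ← ih]
    group

end basic

section vec

variable {E : Type} [Group E] {n : ℕ} (g : Fin n → E)

private theorem per_of_mono (u : Vec n) :
    Abelianization.of (mono g u) = ∏ i, Abelianization.of (g i) ^ u i := by
  rw [mono, map_list_prod, List.map_ofFn, List.prod_ofFn]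
  simp [Function.comp]

private theorem per_mem_of_eq {x y : E} (h : Abelianization.of x = Abelianization.of y) :
    x⁻¹ * y ∈ commutator E := by
  rw [← Abelianization.ker_of, MonoidHom.mem_ker, map_mul, map_inv, h, inv_mul_cancel]

private theorem per_add (u v : Vec n) :
    Abelianization.of (mono g u * mono g v) = Abelianization.of (mono g (u + v)) := by
  rw [map_mul, per_of_mono, per_of_mono, per_of_mono, ← Finset.prod_mul_distrib]
  exact Finset.prod_congr rfl fun i _ => (zpow_add _ _ _).symm

private theorem per_single (i : Fin n) (N : ℕ) :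
    Abelianization.of (mono g (Pi.single i (N : ℤ))) = Abelianization.of (g i ^ N) := by
  rw [per_of_mono, map_pow, Finset.prod_eq_single i]
  · simp
  · intro j _ hj
    simp [Pi.single_eq_of_ne hj]
  · simp

end vec

/-- the functions satisfying the relations -/
private def perF {E : Type} [Group E] {n : ℕ} (g : Fin n → E) (Λ : Set (List (Vec n × Bool))) :
    Set (Vec n → E) :=
  {c | (∀ e, c e ∈ D2 E) ∧
    (∀ l ∈ Λ, ∀ e, c e = (l.map fun x => pw (c (e + x.1)) x.2).prod) ∧
    (∀ l ∈ Λ, ∀ e, c e =
      (l.map fun x => (mono g x.1)⁻¹ * pw (c (e - x.1)) x.2 * mono g x.1).prod)}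

private theorem perF_mem {E : Type} [Group E] {n : ℕ} (g : Fin n → E)
    (Λ : Set (List (Vec n × Bool)))
    (hS : ∀ z ∈ D2 E, ∀ a ∈ commutator E, z * a = a * z)
    (hrel : ∀ l ∈ Λ, ∀ a ∈ commutator E, ∃ z ∈ D2 E,
      a = (l.map fun x => (mono g x.1)⁻¹ * pw a x.2 * mono g x.1).prod * z)
    {a b : E} (ha : a ∈ commutator E) (hb : b ∈ commutator E) :
    (fun e => cm a ((mono g e)⁻¹ * b * mono g e)) ∈ perF g Λ := by
  refine ⟨fun e => per_cm_mem ha (per_conj_mem _ hb), ?_, ?_⟩
  · intro l hl e
    obtain ⟨z, hz, hbz⟩ := hrel l hl b hb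
    have h1 : (mono g e)⁻¹ * b * mono g e =
        (l.map fun x => (mono g e)⁻¹ * ((mono g x.1)⁻¹ * pw b x.2 * mono g x.1) *
          mono g e).prod * ((mono g e)⁻¹ * z * mono g e) := by
      rw [← per_conj_list]
      conv_lhs => rw [hbz]
      group
    have hmem : ∀ y ∈ (l.map fun x => (mono g e)⁻¹ * ((mono g x.1)⁻¹ * pw b x.2 * mono g x.1) *
          mono g e), y ∈ commutator E := by
      intro y hy
      obtain ⟨x, _, rfl⟩ := List.mem_map.1 hy
      exact per_conj_mem _ (per_conj_mem _ (per_pw_mem _ hb))
    show cm a ((mono g e)⁻¹ * b * mono g e) = _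
    rw [h1, per_mul_right hS ha (Subgroup.list_prod_mem _ hmem)
      (per_D2_le (per_conj_mem2 _ hz)), per_z_right hS ha (per_conj_mem2 _ hz), mul_one,
      per_list_right hS ha _ hmem, List.map_map]
    congr 1
    apply List.map_congr_left
    intro x _
    show cm a ((mono g e)⁻¹ * ((mono g x.1)⁻¹ * pw b x.2 * mono g x.1) * mono g e) =
      pw (cm a ((mono g (e + x.1))⁻¹ * b * mono g (e + x.1))) x.2
    have h2 : (mono g e)⁻¹ * ((mono g x.1)⁻¹ * pw b x.2 * mono g x.1) * mono g e =
        (mono g x.1 * mono g e)⁻¹ * pw b x.2 * (mono g x.1 * mono g e) := by group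
    have h3 : Abelianization.of (mono g x.1 * mono g e) =
        Abelianization.of (mono g (e + x.1)) := by
      rw [per_add, add_comm]
    rw [h2, per_class hS ha (per_pw_mem _ hb) (per_mem_of_eq h3)]
    have h4 : (mono g (e + x.1))⁻¹ * pw b x.2 * mono g (e + x.1) =
        pw ((mono g (e + x.1))⁻¹ * b * mono g (e + x.1)) x.2 := by
      cases x.2
      · simp only [pw]; simp [mul_assoc]
      · simp [pw]
    rw [h4, per_pw_right hS ha (per_conj_mem _ hb)]
  · intro l hl e
    obtain ⟨z, hz, haz⟩ := hrel l hl a ha
    have hB := per_conj_mem (mono g e) hb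
    have hmem : ∀ y ∈ (l.map fun x => (mono g x.1)⁻¹ * pw a x.2 * mono g x.1),
        y ∈ commutator E := by
      intro y hy
      obtain ⟨x, _, rfl⟩ := List.mem_map.1 hy
      exact per_conj_mem _ (per_pw_mem _ ha)
    show cm a ((mono g e)⁻¹ * b * mono g e) = _
    conv_lhs => rw [haz]
    rw [per_mul_left hS (Subgroup.list_prod_mem _ hmem) (per_D2_le hz) hB,
      per_z_left hS hB hz, mul_one, per_list_left hS hB _ hmem, List.map_map]
    congr 1
    apply List.map_congr_left
    intro x _
    show cm ((mono g x.1)⁻¹ * pw a x.2 * mono g x.1) ((mono g e)⁻¹ * b * mono g e) =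
      (mono g x.1)⁻¹ * pw (cm a ((mono g (e - x.1))⁻¹ * b * mono g (e - x.1))) x.2 * mono g x.1
    have h2 : cm ((mono g x.1)⁻¹ * pw a x.2 * mono g x.1) ((mono g e)⁻¹ * b * mono g e) =
        (mono g x.1)⁻¹ * cm (pw a x.2) ((mono g e * (mono g x.1)⁻¹)⁻¹ * b *
          (mono g e * (mono g x.1)⁻¹)) * mono g x.1 := by
      simp only [cm]; group
    have h3 : Abelianization.of (mono g e * (mono g x.1)⁻¹) =
        Abelianization.of (mono g (e - x.1)) := by
      have := per_add g (e - x.1) x.1
      rw [sub_add_cancel, map_mul] at this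
      rw [map_mul, ← this, map_inv, mul_inv_cancel_right]
    rw [h2, per_pw_left hS ha (per_conj_mem _ hb), per_class hS ha hb (per_mem_of_eq h3)]

private theorem perF_unique {E : Type} [Group E] {n : ℕ} (g : Fin n → E) (s : ℤ)
    (Λ : Set (List (Vec n × Bool))) (hgeo : Geo n s Λ) {c c' : Vec n → E} (hc : c ∈ perF g Λ)
    (hc' : c' ∈ perF g Λ) (h : ∀ e : Vec n, ip e e < s → c e = c' e) : c = c' := by
  have key : ∀ (k : ℕ) (e : Vec n), (ip e e).toNat < k → c e = c' e := by
    intro k
    induction k with
    | zero => intro e he; omega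
    | succ k ih =>
      intro e he
      rcases lt_or_ge (ip e e) s with h1 | h1
      · exact h e h1
      · obtain ⟨l, hl, hcase⟩ := hgeo e h1
        have hbox : Box e e := fun i => by
          rcases le_total 0 (e i) with h2 | h2
          · exact Or.inl ⟨h2, le_rfl⟩
          · exact Or.inr ⟨le_rfl, h2⟩
        have hnn : ∀ v : Vec n, 0 ≤ ip v v := fun v =>
          Finset.sum_nonneg fun i _ => mul_self_nonneg _
        rcases hcase with hcase | hcase
        · rw [hc.2.1 l hl e, hc'.2.1 l hl e]
          congr 1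
          apply List.map_congr_left
          intro x hx
          have h2 := hcase x hx e hbox
          have h3 := hnn (e + x.1)
          rw [ih (e + x.1) (by omega)]
        · rw [hc.2.2 l hl e, hc'.2.2 l hl e]
          congr 1
          apply List.map_congr_left
          intro x hx
          have h2 := hcase x hx e hbox
          have h3 := hnn (e - x.1)
          have h4 : ip (e - x.1) (e - x.1) = ip (x.1 - e) (x.1 - e) := by
            unfold ip
            refine Finset.sum_congr rfl fun i _ => ?_
            simp only [Pi.sub_apply]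
            ring
          rw [ih (e - x.1) (by omega)]
  funext e
  exact key _ e (Nat.lt_succ_self _)

private theorem per_ball_finite (n : ℕ) (s : ℤ) : {e : Vec n | ip e e < s}.Finite := by
  refine (Set.finite_Icc (fun _ : Fin n => -|s|) (fun _ : Fin n => |s|)).subset ?_
  intro e he
  have h1 : ∀ i, |e i| ≤ |s| := by
    intro i
    have h2 : e i * e i ≤ ip e e :=
      Finset.single_le_sum (f := fun i => e i * e i) (fun j _ => mul_self_nonneg _)
        (Finset.mem_univ i)
    have h3 : ip e e < s := he
    have h4 : |e i| ≤ e i * e i := by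
      rw [← abs_mul_abs_self]
      rcases eq_or_lt_of_le (abs_nonneg (e i)) with h | h
      · rw [← h]; simp
      · have : 1 ≤ |e i| := h
        nlinarith
    have h5 := le_abs_self s
    linarith
  exact ⟨fun i => (abs_le.1 (h1 i)).1, fun i => (abs_le.1 (h1 i)).2⟩

private theorem perF_finite {E : Type} [Group E] {n : ℕ} (g : Fin n → E) (s : ℤ)
    (Λ : Set (List (Vec n × Bool))) (hgeo : Geo n s Λ) (hfin : Finite (D2 E)) :
    (perF g Λ).Finite := by
  have hB := per_ball_finite n s
  haveI : Finite {e : Vec n | ip e e < s} := hB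
  let r : (Vec n → E) → ({e : Vec n | ip e e < s} → E) := fun c e => c e
  have hD : ((D2 E : Subgroup E) : Set E).Finite := hfin
  refine Set.Finite.of_finite_image (f := r) ?_ ?_
  · refine (Set.Finite.pi' (fun _ : {e : Vec n | ip e e < s} => hD)).subset ?_
    rintro _ ⟨c, hc, rfl⟩
    intro e
    exact hc.1 e
  · intro c hc c' hc' h
    refine perF_unique g s Λ hgeo hc hc' fun e he => ?_
    exact congrFun h ⟨e, he⟩

theorem t_PER : S_PER := by
  intro E _ n g s Λ _ hgeo hS hfin hrel
  have hF := perF_finite g s Λ hgeo hfin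
  haveI : Finite (perF g Λ) := hF
  -- translations
  have hmaps : ∀ (i : Fin n) (c : Vec n → E), c ∈ perF g Λ →
      (fun e => c (e + Pi.single i 1)) ∈ perF g Λ := by
    intro i c hc
    refine ⟨fun e => hc.1 _, fun l hl e => ?_, fun l hl e => ?_⟩
    · show c (e + Pi.single i 1) = _
      rw [hc.2.1 l hl (e + Pi.single i 1)]
      congr 1
      apply List.map_congr_left
      intro x _
      show pw (c (e + Pi.single i 1 + x.1)) x.2 = pw (c (e + x.1 + Pi.single i 1)) x.2
      rw [add_right_comm]
    · show c (e + Pi.single i 1) = _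
      rw [hc.2.2 l hl (e + Pi.single i 1)]
      congr 1
      apply List.map_congr_left
      intro x _
      show (mono g x.1)⁻¹ * pw (c (e + Pi.single i 1 - x.1)) x.2 * mono g x.1 =
        (mono g x.1)⁻¹ * pw (c (e - x.1 + Pi.single i 1)) x.2 * mono g x.1
      rw [sub_add_eq_add_sub]
  let T : Fin n → perF g Λ → perF g Λ := fun i c => ⟨_, hmaps i c.1 c.2⟩
  have hinj : ∀ i, Function.Injective (T i) := by
    intro i c c' h
    apply Subtype.ext
    funext e
    have h1 := congrFun (congrArg Subtype.val h) (e - Pi.single i 1)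
    have h2 : c.1 (e - Pi.single i 1 + Pi.single i 1) = c'.1 (e - Pi.single i 1 + Pi.single i 1) :=
      h1
    rwa [sub_add_cancel] at h2
  let p : Fin n → Equiv.Perm (perF g Λ) := fun i =>
    Equiv.ofBijective (T i) (Finite.injective_iff_bijective.1 (hinj i))
  have hpow : ∀ (i : Fin n) (k : ℕ) (c : perF g Λ) (e : Vec n),
      ((p i ^ k) c).1 e = c.1 (e + Pi.single i (k : ℤ)) := by
    intro i k
    induction k with
    | zero => intro c e; simp
    | succ k ih =>
      intro c e
      rw [pow_succ', Equiv.Perm.mul_apply]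
      have h1 : (p i ((p i ^ k) c)).1 e = ((p i ^ k) c).1 (e + Pi.single i 1) := rfl
      rw [h1, ih, add_assoc, ← Pi.single_add]
      push_cast
      rw [add_comm (1 : ℤ)]
  refine ⟨Nat.card (Equiv.Perm (perF g Λ)), Nat.card_pos, ?_⟩
  intro i a ha b hb
  set N := Nat.card (Equiv.Perm (perF g Λ)) with hN
  have hc := perF_mem g Λ hS hrel ha hb
  have h1 := hpow i N ⟨_, hc⟩ 0
  have h2 : p i ^ N = 1 := pow_card_eq_one'
  rw [h2] at h1
  have h3 : cm a ((mono g 0)⁻¹ * b * mono g 0) =
      cm a ((mono g (0 + Pi.single i (N : ℤ)))⁻¹ * b * mono g (0 + Pi.single i (N : ℤ))) := h1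
  rw [zero_add] at h3
  have h4 : mono g (0 : Vec n) = 1 := by
    simp [mono]
  rw [h4] at h3
  rw [per_class hS ha hb (per_mem_of_eq (per_single g i N))] at h3
  simpa using h3.symm

end H114MF
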