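import Pool.Agent.H114.MF.Defs2
import Pool.Agent.H114.MB.PUSH

set_option autoImplicit false

/-! Task PUSHA: normal forms in the amalgam. -/

namespace H114MF

open H114MB Monoid

namespace PUSHAaux

open PUSHaux

variable {G : Type} [Group G] (U V : Subgroup G)

open Classical in
/-- the map of the task -/
noncomputable def io (x : G) : P U V :=
  if hu : x ∈ U then iU U V ⟨x, hu⟩ else if hv : x ∈ V then iV U V ⟨x, hv⟩ else 1

theorem io_U (u : U) : io U V u = iU U V u := by
  unfold io
  rw [dif_pos u.2]

theorem io_V (v : V) : io U V v = iV U V v := by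
  unfold io
  by_cases hu : (v : G) ∈ U
  · rw [dif_pos hu]
    exact agree U V v hu v.2
  · rw [dif_neg hu, dif_pos v.2]

open Classical in
/-- the letters -/
noncomputable def lets : Bool → List G → List (Σ b, W U V b)
  | _, [] => []
  | b, x :: l => (if h : x ∈ W U V b then ⟨b, ⟨x, h⟩⟩ else ⟨b, 1⟩) :: lets (!b) l

theorem alt_cons (b : Bool) (x : G) (l : List G) (h : Alt U V b (x :: l)) :
    x ∈ W U V b ∧ x ∉ W U V (!b) ∧ Alt U V (!b) l := by
  cases b
  · exact h
  · exact h

theorem not_range (b : Bool) (x : W U V b) (h : (x : G) ∉ W U V (!b)) :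
    x ∉ (φ U V b).range := by
  cases b
  · exact not_range_false U V x h
  · exact not_range_true U V x h

theorem of_eq (b : Bool) (x : W U V b) : (PushoutI.of (φ := φ U V) b x : P U V) = io U V x := by
  cases b
  · exact (io_V U V x).symm
  · exact (io_U U V x).symm

theorem lets_mem (l : List G) : ∀ b : Bool, Alt U V b l → ∀ s ∈ lets U V b l,
    s.2 ∉ (φ U V s.1).range := by
  induction l with
  | nil => intro b _ s hs; exact absurd hs (by simp [lets])
  | cons x l ih =>
    intro b h s hs
    obtain ⟨h1, h2, h3⟩ := alt_cons U V b x l h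
    rw [lets, dif_pos h1, List.mem_cons] at hs
    rcases hs with rfl | hs
    · exact not_range U V b _ h2
    · exact ih _ h3 s hs

theorem lets_chain (l : List G) : ∀ b : Bool, Alt U V b l →
    (lets U V b l).IsChain (fun s t => s.1 ≠ t.1) := by
  induction l with
  | nil => intro b _; exact List.isChain_nil
  | cons x l ih =>
    intro b h
    obtain ⟨h1, h2, h3⟩ := alt_cons U V b x l h
    rw [lets, dif_pos h1]
    cases l with
    | nil => exact List.isChain_singleton _
    | cons y l =>
      have h4 := ih _ h3
      obtain ⟨h5, h6, h7⟩ := alt_cons U V (!b) y l h3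
      rw [lets, dif_pos h5] at h4 ⊢
      rw [List.isChain_cons_cons]
      refine ⟨?_, h4⟩
      cases b <;> simp

theorem lets_prod (l : List G) : ∀ b : Bool, Alt U V b l →
    ((lets U V b l).map (fun s => (PushoutI.of (φ := φ U V) s.1 s.2 : P U V))).prod =
      (l.map (io U V)).prod := by
  induction l with
  | nil => intro b _; rfl
  | cons x l ih =>
    intro b h
    obtain ⟨h1, h2, h3⟩ := alt_cons U V b x l h
    rw [lets, dif_pos h1, List.map_cons, List.map_cons, List.prod_cons, List.prod_cons,
      ih _ h3, of_eq]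

/-- the reduced word -/
noncomputable def wda (b : Bool) (l : List G) (h : Alt U V b l) :
    CoprodI.Word (fun b => W U V b) where
  toList := lets U V b l
  ne_one := by
    intro s hs h1
    apply lets_mem U V l b h s hs
    rw [h1]
    exact Subgroup.one_mem _
  chain_ne := lets_chain U V l b h

theorem main (b : Bool) (l : List G) (hl : l ≠ []) (h : Alt U V b l) (w : G) (hw : w ∈ U ⊓ V) :
    (l.map (io U V)).prod ≠ io U V w := by
  intro he
  have hred : PushoutI.Reduced (φ U V) (wda U V b l h) := fun s hs => lets_mem U V l b h s hs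
  have hprod : PushoutI.ofCoprodI (φ := φ U V) (wda U V b l h).prod = io U V w := by
    rw [← he, ← lets_prod U V l b h]
    unfold CoprodI.Word.prod
    rw [map_list_prod, List.map_map]
    congr 1
  have hmem : PushoutI.ofCoprodI (φ := φ U V) (wda U V b l h).prod ∈
      (PushoutI.base (φ U V)).range := by
    rw [hprod]
    refine ⟨⟨w, hw⟩, ?_⟩
    have h1 : PushoutI.of (φ := φ U V) true (φ U V true ⟨w, hw⟩) =
      PushoutI.base (φ U V) ⟨w, hw⟩ := PushoutI.of_apply_eq_base _ _ _
    rw [← h1]
    exact (io_U U V ⟨w, hw.1⟩).symm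
  have hemp := hred.eq_empty_of_mem_range (φ_inj U V) hmem
  have h2 : (wda U V b l h).toList = [] := by rw [hemp]; rfl
  have h3 : lets U V b l = [] := h2
  cases l with
  | nil => exact hl rfl
  | cons x l => rw [lets] at h3; exact absurd h3 (by simp)

end PUSHAaux

theorem t_PUSHA : S_PUSHA := by
  intro G _ U V
  exact ⟨PUSHaux.P U V, inferInstance, PUSHaux.iU U V, PUSHaux.iV U V, PUSHAaux.io U V,
    PUSHAaux.io_U U V, PUSHAaux.io_V U V, fun b l hl h w hw => PUSHAaux.main U V b l hl h w hw⟩

end H114MF
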