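import Pool.Agent.H114.MF.Defs

/-! RFM: finitely generated modules over finitely generated commutative rings are residually
finite (helper372). -/

set_option autoImplicit false

namespace H114MF

theorem t_RFM (h : S_NUL) : S_RFM := by
  intro R M _ _ _ hR hM x hx
  have hN : IsNoetherianRing R := Algebra.FiniteType.isNoetherianRing ℤ R
  have hA : Ideal.torsionOf R M x ≠ ⊤ := by
    intro hA
    have h1 : (1 : R) ∈ Ideal.torsionOf R M x := hA ▸ Submodule.mem_top
    rw [Ideal.mem_torsionOf_iff, one_smul] at h1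
    exact hx h1
  obtain ⟨m, hm, hAm⟩ := Ideal.exists_le_maximal _ hA
  letI : Field (R ⧸ m) := Ideal.Quotient.field m
  have hK : Finite (R ⧸ m) := by
    refine h (R ⧸ m) ?_
    exact Algebra.FiniteType.of_surjective
      (Ideal.Quotient.mk m).toIntAlgHom Ideal.Quotient.mk_surjective
  have hx2 : x ∉ (⨅ i : ℕ, m ^ i • ⊤ : Submodule R M) := by
    rw [Ideal.mem_iInf_smul_pow_eq_bot_iff]
    rintro ⟨r, hr⟩
    have h2 : (1 - (r : R)) ∈ Ideal.torsionOf R M x := by
      rw [Ideal.mem_torsionOf_iff, sub_smul, one_smul, hr, sub_self]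
    have h3 : (1 : R) ∈ m := by
      have := m.add_mem (hAm h2) r.2
      rwa [sub_add_cancel] at this
    exact hm.ne_top ((Ideal.eq_top_iff_one m).2 h3)
  rw [Submodule.mem_iInf] at hx2
  push Not at hx2
  obtain ⟨i, hi⟩ := hx2
  refine ⟨m ^ i • ⊤, hi, ?_⟩
  have hfg : m.FG := (isNoetherianRing_iff_ideal_fg R).1 hN m
  have h4 : Finite (R ⧸ m ^ i) := Ideal.finite_quotient_pow hfg i
  have h5 : Finite (M ⧸ (⊤ : Submodule R M)) := inferInstance
  exact Submodule.finite_quotient_smul (m ^ i) (Module.finite_def.1 hM)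

end H114MF
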