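import Pool.Agent.H114.MF.Defs

/-!
# SEM: meaning of the certificates for non-metabelian finite quotients
-/

set_option autoImplicit false

namespace H114MF

open H114MB
open scoped commutatorElement

private theorem SEM_evw_nil {H : Type} [Group H] (f : ℕ → H) : evw f [] = 1 := rfl

private theorem SEM_evw_cons {H : Type} [Group H] (f : ℕ → H) (y : ℕ × Bool) (w : Wd) :
    evw f (y :: w) = pw (f y.1) y.2 * evw f w := by
  simp [evw]

private theorem SEM_evw_append {H : Type} [Group H] (f : ℕ → H) (u v : Wd) :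
    evw f (u ++ v) = evw f u * evw f v := by
  simp [evw]

private theorem SEM_pw_not {H : Type} [Group H] (x : H) (c : Bool) :
    pw x (!c) = (pw x c)⁻¹ := by
  cases c <;> simp [pw]

private theorem SEM_evw_winv {H : Type} [Group H] (f : ℕ → H) (w : Wd) :
    evw f (winv w) = (evw f w)⁻¹ := by
  induction w with
  | nil => simp [evw, winv]
  | cons y w ih =>
    have h1 : winv (y :: w) = winv w ++ [(y.1, !y.2)] := by simp [winv]
    rw [h1, SEM_evw_append, ih, SEM_evw_cons, SEM_evw_cons, SEM_evw_nil, mul_one, mul_inv_rev]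
    simp only [SEM_pw_not]

private theorem SEM_evw_wcom {H : Type} [Group H] (f : ℕ → H) (u v : Wd) :
    evw f (wcom u v) = ⁅evw f u, evw f v⁆ := by
  rw [wcom, SEM_evw_append, SEM_evw_append, SEM_evw_append, SEM_evw_winv, SEM_evw_winv,
    commutatorElement_def]

private theorem SEM_pw_map {G H : Type} [Group G] [Group H] (F : G →* H) (x : G) (c : Bool) :
    F (pw x c) = pw (F x) c := by
  cases c <;> simp [pw]

private theorem SEM_evw_map {G H : Type} [Group G] [Group H] (F : G →* H) (f : ℕ → G)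
    (g : ℕ → H) (h : ∀ i, F (f i) = g i) (w : Wd) : F (evw f w) = evw g w := by
  induction w with
  | nil => simp [evw]
  | cons y w ih => rw [SEM_evw_cons, SEM_evw_cons, map_mul, ih, SEM_pw_map, h]

/-- the relator belonging to a word -/
private def SEM_wf (n : ℕ) (w : Wd) : FreeGroup (Fin n) :=
  (w.map (fun x : ℕ × Bool =>
      if h : x.1 < n then
        (if x.2 then FreeGroup.of (⟨x.1, h⟩ : Fin n)
         else (FreeGroup.of (⟨x.1, h⟩ : Fin n))⁻¹)
      else 1)).prod

private theorem SEM_wf_map {H : Type} [Group H] (n : ℕ) (F : FreeGroup (Fin n) →* H)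
    (g : ℕ → H) (h1 : ∀ (i : ℕ) (h : i < n), F (FreeGroup.of ⟨i, h⟩) = g i)
    (h2 : ∀ i, n ≤ i → g i = 1) (w : Wd) : F (SEM_wf n w) = evw g w := by
  induction w with
  | nil => simp [SEM_wf, evw]
  | cons y w ih =>
    have h3 : SEM_wf n (y :: w) = (if h : y.1 < n then
        (if y.2 then FreeGroup.of (⟨y.1, h⟩ : Fin n)
         else (FreeGroup.of (⟨y.1, h⟩ : Fin n))⁻¹)
      else 1) * SEM_wf n w := by
      simp only [SEM_wf, List.map_cons, List.prod_cons]
    rw [h3, map_mul, ih, SEM_evw_cons]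
    apply congrArg (fun z => z * evw g w)
    by_cases hy : y.1 < n
    · rw [dif_pos hy]
      cases hc : y.2
      · simp [pw, h1 y.1 hy]
      · simp [pw, h1 y.1 hy]
    · rw [dif_neg hy, map_one, h2 y.1 (not_lt.mp hy)]
      cases y.2 <;> simp [pw]

private theorem SEM_mem_relset (p : ℕ × List Wd) (w : Wd) (hw : w ∈ p.2) :
    SEM_wf p.1 w ∈ relset p := ⟨w, hw, rfl⟩

private theorem SEM_fp_lt (p : ℕ × List Wd) (i : ℕ) (h : i < p.1) :
    fp p i = PresentedGroup.of (⟨i, h⟩ : Fin p.1) := by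
  rw [fp, dif_pos h]

private theorem SEM_fp_ge (p : ℕ × List Wd) (i : ℕ) (h : p.1 ≤ i) : fp p i = 1 := by
  rw [fp, dif_neg (not_lt.mpr h)]

private theorem SEM_surj (p : ℕ × List Wd) (x : PresentedGroup (relset p)) :
    ∃ w : Wd, evw (fp p) w = x := by
  obtain ⟨y, rfl⟩ := PresentedGroup.mk_surjective (relset p) x
  induction y using FreeGroup.induction_on with
  | C1 => exact ⟨[], by simp [evw]⟩
  | of i =>
    refine ⟨[((i : ℕ), true)], ?_⟩
    rw [SEM_evw_cons, SEM_evw_nil, mul_one, SEM_fp_lt p _ i.2]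
    rfl
  | inv_of i _ =>
    refine ⟨[((i : ℕ), false)], ?_⟩
    rw [SEM_evw_cons, SEM_evw_nil, mul_one, SEM_fp_lt p _ i.2]
    rfl
  | mul a b ha hb =>
    obtain ⟨u, hu⟩ := ha
    obtain ⟨v, hv⟩ := hb
    exact ⟨u ++ v, by rw [SEM_evw_append, hu, hv, map_mul]⟩

private theorem SEM_rel_one (p : ℕ × List Wd) (w : Wd) (hw : w ∈ p.2) :
    evw (fp p) w = 1 := by
  have h1 := SEM_wf_map p.1 (PresentedGroup.mk (relset p)) (fp p)
    (fun i h => (SEM_fp_lt p i h).symm) (fun i h => SEM_fp_ge p i h) w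
  rw [← h1]
  exact PresentedGroup.one_of_mem (SEM_mem_relset p w hw)

/-- four elements whose commutator of commutators is not in `K` -/
private theorem SEM_four {G : Type} [Group G] (K : Subgroup G) [K.Normal] (h : ¬ D2 G ≤ K) :
    ∃ a b c d : G, ⁅⁅a, b⁆, ⁅c, d⁆⁆ ∉ K := by
  by_contra hcon
  push Not at hcon
  apply h
  have hq : ∀ x y : G, ⁅x, y⁆ ∈ K ↔
      Commute (QuotientGroup.mk' K x) (QuotientGroup.mk' K y) := by
    intro x y
    rw [← commutatorElement_eq_one_iff_commute, ← map_commutatorElement,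
      ← MonoidHom.mem_ker, QuotientGroup.ker_mk']
  have h1 : ∀ x ∈ commutator G, ∀ c d : G,
      Commute (QuotientGroup.mk' K x) (QuotientGroup.mk' K ⁅c, d⁆) := by
    intro x hx c d
    rw [commutator_eq_closure] at hx
    induction hx using Subgroup.closure_induction with
    | mem x hx =>
      obtain ⟨a, b, rfl⟩ := hx
      exact (hq _ _).1 (hcon a b c d)
    | one => rw [map_one]; exact Commute.one_left _
    | mul a b _ _ ha hb => rw [map_mul]; exact ha.mul_left hb
    | inv a _ ha => rw [map_inv]; exact ha.inv_left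
  have h2 : ∀ x ∈ commutator G, ∀ y ∈ commutator G,
      Commute (QuotientGroup.mk' K x) (QuotientGroup.mk' K y) := by
    intro x hx y hy
    rw [commutator_eq_closure] at hy
    induction hy using Subgroup.closure_induction with
    | mem y hy =>
      obtain ⟨a, b, rfl⟩ := hy
      exact h1 x hx a b
    | one => rw [map_one]; exact Commute.one_right _
    | mul a b _ _ ha hb => rw [map_mul]; exact ha.mul_right hb
    | inv a _ ha => rw [map_inv]; exact ha.inv_right
  rw [Subgroup.commutator_le]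
  intro x hx y hy
  exact (hq _ _).2 (h2 x hx y hy)

private theorem SEM_mem_D2 {G : Type} [Group G] (a b c d : G) :
    ⁅⁅a, b⁆, ⁅c, d⁆⁆ ∈ D2 G := by
  apply Subgroup.commutator_mem_commutator
  · exact Subgroup.commutator_mem_commutator (Subgroup.mem_top _) (Subgroup.mem_top _)
  · exact Subgroup.commutator_mem_commutator (Subgroup.mem_top _) (Subgroup.mem_top _)

private theorem SEM_fwd (p : ℕ × List Wd) (c : FC) (h : FQ p c) :
    ∃ K : Subgroup (PresentedGroup (relset p)), K.Normal ∧ K.index ≠ 0 ∧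
      ¬ D2 (PresentedGroup (relset p)) ≤ K := by
  obtain ⟨h1, h2, k0, hk0, h3⟩ := h
  set n := p.1 with hn
  set σ := c.1.2 with hσ
  set m := c.1.1 with hm
  let ρ : Fin p.1 → Equiv.Perm (Fin m) := fun i =>
    { toFun := fun k => ⟨act p.1 σ ((i : ℕ), true) k, (h1 i i.2 k k.2).1⟩
      invFun := fun k => ⟨act p.1 σ ((i : ℕ), false) k, (h1 i i.2 k k.2).2.1⟩
      left_inv := fun k => Fin.ext (h1 i i.2 k k.2).2.2.1
      right_inv := fun k => Fin.ext (h1 i i.2 k k.2).2.2.2 }
  let f : ℕ → Equiv.Perm (Fin m) := fun i => if h : i < p.1 then ρ ⟨i, h⟩ else 1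
  have hf1 : ∀ (i : ℕ) (h : i < p.1), f i = ρ ⟨i, h⟩ := fun i h => dif_pos h
  have hf2 : ∀ i, p.1 ≤ i → f i = 1 := fun i h => dif_neg (not_lt.mpr h)
  have hact : ∀ (y : ℕ × Bool) (k : Fin m), ((pw (f y.1) y.2 k : Fin m) : ℕ) = act p.1 σ y k := by
    rintro ⟨i, b⟩ k
    by_cases hi : i < p.1
    · have hfi := hf1 i hi
      cases b
      · show (((f i)⁻¹ : Equiv.Perm (Fin m)) k : ℕ) = _
        rw [hfi]
        rfl
      · show ((f i) k : ℕ) = _
        rw [hfi]
        rfl
    · have hfi := hf2 i (not_lt.mp hi)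
      have ha : act p.1 σ (i, b) k = k := by
        rw [act, if_neg hi]
      rw [ha]
      show ((pw (f i) b k : Fin m) : ℕ) = k
      rw [hfi]
      cases b <;> simp [pw]
  have hrun : ∀ (w : Wd) (k : Fin m), ((evw f w k : Fin m) : ℕ) = run p.1 σ w k := by
    intro w k
    induction w with
    | nil => rfl
    | cons y w ih =>
      rw [SEM_evw_cons, Equiv.Perm.mul_apply, hact, ih]
      rfl
  have hrel : ∀ r ∈ relset p, FreeGroup.lift ρ r = 1 := by
    rintro r ⟨w, hw, rfl⟩
    have h4 := SEM_wf_map p.1 (FreeGroup.lift ρ) f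
      (fun i h => by rw [FreeGroup.lift_apply_of, hf1 i h]) hf2 w
    have h5 : evw f w = 1 := by
      apply Equiv.ext
      intro k
      apply Fin.ext
      rw [hrun]
      exact h2 w hw k k.2
    exact h4.trans h5
  let Φ : PresentedGroup (relset p) →* Equiv.Perm (Fin m) := PresentedGroup.toGroup hrel
  have hΦ : ∀ i, Φ (fp p i) = f i := by
    intro i
    by_cases hi : i < p.1
    · rw [SEM_fp_lt p i hi, hf1 i hi]
      exact PresentedGroup.toGroup.of hrel
    · rw [SEM_fp_ge p i (not_lt.mp hi), hf2 i (not_lt.mp hi), map_one]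
  refine ⟨Φ.ker, inferInstance, ?_, ?_⟩
  · rw [Subgroup.index_ker]
    exact Nat.card_pos.ne'
  · intro hle
    have h6 := hle (SEM_mem_D2 (evw (fp p) c.2.1.1) (evw (fp p) c.2.1.2)
      (evw (fp p) c.2.2.1) (evw (fp p) c.2.2.2))
    rw [← SEM_evw_wcom, ← SEM_evw_wcom, ← SEM_evw_wcom, MonoidHom.mem_ker,
      SEM_evw_map Φ (fp p) f hΦ] at h6
    apply h3
    have h7 := hrun (wcom (wcom c.2.1.1 c.2.1.2) (wcom c.2.2.1 c.2.2.2)) ⟨k0, hk0⟩
    rw [h6] at h7
    exact h7.symm

private theorem SEM_bwd (p : ℕ × List Wd) (K : Subgroup (PresentedGroup (relset p)))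
    (hK : K.Normal) (hi : K.index ≠ 0) (hD : ¬ D2 (PresentedGroup (relset p)) ≤ K) :
    ∃ c, FQ p c := by
  obtain ⟨a, b, c, d, habcd⟩ := SEM_four K hD
  obtain ⟨w1, rfl⟩ := SEM_surj p a
  obtain ⟨w2, rfl⟩ := SEM_surj p b
  obtain ⟨w3, rfl⟩ := SEM_surj p c
  obtain ⟨w4, rfl⟩ := SEM_surj p d
  rw [← SEM_evw_wcom, ← SEM_evw_wcom, ← SEM_evw_wcom] at habcd
  have hfin : Finite (PresentedGroup (relset p) ⧸ K) := by
    rw [Subgroup.index] at hi
    exact Nat.finite_of_card_ne_zero hi
  let q : PresentedGroup (relset p) →* PresentedGroup (relset p) ⧸ K := QuotientGroup.mk' K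
  let m := Nat.card (PresentedGroup (relset p) ⧸ K)
  let e : (PresentedGroup (relset p) ⧸ K) ≃ Fin m := Finite.equivFin _
  let g : ℕ → PresentedGroup (relset p) ⧸ K := fun i => q (fp p i)
  have hg : ∀ i, q (fp p i) = g i := fun i => rfl
  have hg2 : ∀ i, p.1 ≤ i → g i = 1 := by
    intro i h
    show q (fp p i) = 1
    rw [SEM_fp_ge p i h, map_one]
  let σ : List (List ℕ × List ℕ) := List.ofFn fun i : Fin p.1 =>
    (List.ofFn (fun k : Fin m => ((e (g i * e.symm k) : Fin m) : ℕ)),
      List.ofFn (fun k : Fin m => ((e ((g i)⁻¹ * e.symm k) : Fin m) : ℕ)))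
  have hσ : ∀ i (h : i < p.1), σ.getD i ([], []) =
      (List.ofFn (fun k : Fin m => ((e (g i * e.symm k) : Fin m) : ℕ)),
      List.ofFn (fun k : Fin m => ((e ((g i)⁻¹ * e.symm k) : Fin m) : ℕ))) := by
    intro i h
    rw [List.getD_eq_getElem _ _ (by simpa [σ] using h)]
    simp [σ]
  have hact : ∀ (y : ℕ × Bool) (k : Fin m),
      act p.1 σ y k = ((e (pw (g y.1) y.2 * e.symm k) : Fin m) : ℕ) := by
    rintro ⟨i, b⟩ k
    by_cases hi : i < p.1
    · have h1 := hσ i hi
      cases b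
      · show (if i < p.1 then (if false = true then (σ.getD i ([], [])).1.getD k k
          else (σ.getD i ([], [])).2.getD k k) else (k : ℕ)) = _
        rw [if_pos hi, if_neg (by simp), h1]
        rw [List.getD_eq_getElem _ _ (by simp)]
        simp [pw]
      · show (if i < p.1 then (if true = true then (σ.getD i ([], [])).1.getD k k
          else (σ.getD i ([], [])).2.getD k k) else (k : ℕ)) = _
        rw [if_pos hi, if_pos rfl, h1]
        rw [List.getD_eq_getElem _ _ (by simp)]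
        simp [pw]
    · have h1 := hg2 i (not_lt.mp hi)
      rw [act, if_neg hi]
      show (k : ℕ) = ((e (pw (g i) b * e.symm k) : Fin m) : ℕ)
      rw [h1]
      cases b <;> simp [pw]
  have hrun : ∀ (w : Wd) (k : Fin m),
      run p.1 σ w k = ((e (evw g w * e.symm k) : Fin m) : ℕ) := by
    intro w k
    induction w with
    | nil =>
      show (k : ℕ) = _
      rw [SEM_evw_nil, one_mul, Equiv.apply_symm_apply]
    | cons y w ih =>
      show act p.1 σ y (run p.1 σ w k) = _
      rw [ih, hact, Equiv.symm_apply_apply, SEM_evw_cons, mul_assoc]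
  refine ⟨((m, σ), ((w1, w2), (w3, w4))), ?_, ?_, ?_⟩
  · intro i hi k hk
    have hk1 := hact (i, true) ⟨k, hk⟩
    have hk2 := hact (i, false) ⟨k, hk⟩
    refine ⟨?_, ?_, ?_, ?_⟩
    · exact hk1 ▸ Fin.is_lt _
    · exact hk2 ▸ Fin.is_lt _
    · show act p.1 σ (i, false) (act p.1 σ (i, true) k) = k
      have h1 : act p.1 σ (i, true) k = _ := hk1
      rw [h1, hact, Equiv.symm_apply_apply]
      simp [pw]
    · show act p.1 σ (i, true) (act p.1 σ (i, false) k) = k
      have h1 : act p.1 σ (i, false) k = _ := hk2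
      rw [h1, hact, Equiv.symm_apply_apply]
      simp [pw]
  · intro r hr k hk
    have h1 := hrun r ⟨k, hk⟩
    rw [← SEM_evw_map q (fp p) g hg, SEM_rel_one p r hr, map_one, one_mul,
      Equiv.apply_symm_apply] at h1
    exact h1
  · refine ⟨e 1, (e 1).2, ?_⟩
    have h1 := hrun (wcom (wcom w1 w2) (wcom w3 w4)) (e 1)
    show run p.1 σ (wcom (wcom w1 w2) (wcom w3 w4)) (e 1) ≠ (e 1 : ℕ)
    rw [h1, Equiv.symm_apply_apply, mul_one, ← SEM_evw_map q (fp p) g hg]
    intro h2
    have h3 := e.injective (Fin.ext h2)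
    apply habcd
    rw [← MonoidHom.mem_ker, QuotientGroup.ker_mk'] at h3
    exact h3

theorem t_SEM : S_SEM := by
  intro p
  constructor
  · rintro ⟨c, hc⟩
    exact SEM_fwd p c hc
  · rintro ⟨K, hK, hi, hD⟩
    exact SEM_bwd p K hK hi hD

end H114MF
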