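import Pool.Agent.H114.MF.Defs

/-! SIMP: minimal normal subgroups centralized by the commutator subgroup are finite. -/

set_option autoImplicit false

namespace H114MF

open H114MB

theorem t_SIMP (h1 : S_ACT) (h2 : S_RFM) : S_SIMP := by
  intro E _ S hFG hN hab hc hmin
  obtain ⟨R, M, iR, iM, iRM, f, hR, hbij, hadd, -, hK2⟩ := h1 E S hN hFG hab hc
  have hf1 : f 1 = 0 := by
    have := hadd 1 1
    rw [mul_one] at this
    exact left_eq_add.1 this
  by_cases hS : ∀ x : S, x = 1
  · have : Subsingleton S := ⟨fun a b => by rw [hS a, hS b]⟩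
    infer_instance
  · push Not at hS
    obtain ⟨x, hx⟩ := hS
    have hfx : f x ≠ 0 := by
      intro h
      exact hx (hbij.1 (h.trans hf1.symm))
    have hx' : (x : E) ≠ 1 := fun h => hx (Subtype.ext h)
    have hfin : Module.Finite R M := by
      obtain ⟨K, hKn, hKS, hK⟩ := hK2 (Submodule.span R {f x})
      have hxK : (x : E) ∈ K := (hK x).1 (Submodule.mem_span_singleton_self _)
      have hKS' : K = S := by
        rcases hmin K hKn hKS with h | h
        · rw [h, Subgroup.mem_bot] at hxK
          exact absurd hxK hx'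
        · exact h
      refine ⟨⟨{f x}, ?_⟩⟩
      rw [eq_top_iff]
      intro m _
      obtain ⟨a, rfl⟩ := hbij.2 m
      rw [Finset.coe_singleton]
      exact (hK a).2 (by rw [hKS']; exact a.2)
    obtain ⟨N, hxN, hNf⟩ := h2 R M hR hfin (f x) hfx
    obtain ⟨K, hKn, hKS, hK⟩ := hK2 N
    have hKb : K = ⊥ := by
      rcases hmin K hKn hKS with h | h
      · exact h
      · exact absurd ((hK x).2 (by rw [h]; exact x.2)) hxN
    have hNb : N = ⊥ := by
      rw [eq_bot_iff]
      intro m hm
      obtain ⟨a, rfl⟩ := hbij.2 m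
      have ha := (hK a).1 hm
      rw [hKb, Subgroup.mem_bot] at ha
      have : a = 1 := Subtype.ext ha
      rw [this, hf1]
      exact Submodule.zero_mem _
    have hMf : Finite M := Finite.of_equiv _ (Submodule.quotEquivOfEqBot N hNb).toEquiv
    exact Finite.of_injective f hbij.1

end H114MF
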