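import Pool.Agent.H114.MF.Defs2

/-!
# Solvable amalgams are degenerate or of type (2,2)

If `U` has three cosets modulo `V` (and `V` is not contained in `U`), every term of the derived
series contains a product of an alternating list which starts and ends in `U \ V`.
-/

set_option autoImplicit false

namespace H114MF

open H114MB
open scoped commutatorElement

section

variable {G : Type} [Group G]

/-- letters -/
private def SOLVlet (U V : Subgroup G) (b : Bool) (x : G) : Prop :=
  if b = true then x ∈ U ∧ x ∉ V else x ∈ V ∧ x ∉ U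

/-- products of nonempty alternating lists with given types of the first and last letter -/
private inductive SOLVP (U V : Subgroup G) : Bool → Bool → G → Prop
  | one (b : Bool) (x : G) : SOLVlet U V b x → SOLVP U V b b x
  | cons (b c : Bool) (x g : G) : SOLVlet U V b x → SOLVP U V (!b) c g → SOLVP U V b c (x * g)

private theorem SOLVlet_inv {U V : Subgroup G} {b : Bool} {x : G} (h : SOLVlet U V b x) :
    SOLVlet U V b x⁻¹ := by
  unfold SOLVlet at h ⊢
  cases b <;> simpa using h

private theorem SOLV_append {U V : Subgroup G} {b c d e : Bool} {g h : G} (hg : SOLVP U V b c g)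
    (hd : d = !c) (hh : SOLVP U V d e h) : SOLVP U V b e (g * h) := by
  subst hd
  induction hg with
  | one b x hx => exact SOLVP.cons b e x h hx hh
  | cons b c x g hx _ ih =>
    rw [mul_assoc]
    exact SOLVP.cons b e x _ hx (ih hh)

private theorem SOLV_inv {U V : Subgroup G} {b c : Bool} {g : G} (hg : SOLVP U V b c g) :
    SOLVP U V c b g⁻¹ := by
  induction hg with
  | one b x hx => exact SOLVP.one b _ (SOLVlet_inv hx)
  | cons b c x g hx _ ih =>
    rw [mul_inv_rev]
    exact SOLV_append ih (by simp) (SOLVP.one b _ (SOLVlet_inv hx))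

private theorem SOLV_list {U V : Subgroup G} {b c : Bool} {g : G} (hg : SOLVP U V b c g) :
    ∃ l : List G, l ≠ [] ∧ Alt U V b l ∧ l.prod = g := by
  induction hg with
  | one b x hx =>
    refine ⟨[x], by simp, ?_, by simp⟩
    unfold SOLVlet at hx
    cases b
    · exact ⟨by simpa using hx.1, by simpa using hx.2, trivial⟩
    · exact ⟨by simpa using hx.1, by simpa using hx.2, trivial⟩
  | cons b c x g hx _ ih =>
    obtain ⟨l, _, h1, h2⟩ := ih
    refine ⟨x :: l, by simp, ?_, by simp [h2]⟩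
    unfold SOLVlet at hx
    cases b
    · exact ⟨by simpa using hx.1, by simpa using hx.2, h1⟩
    · exact ⟨by simpa using hx.1, by simpa using hx.2, h1⟩

private theorem SOLV_first {U V : Subgroup G} {b c : Bool} {g : G} (hg : SOLVP U V b c g) :
    b = true → ∃ a, (a ∈ U ∧ a ∉ V) ∧ ∀ x ∈ U, x * a ∉ V → SOLVP U V true c (x * g) := by
  induction hg with
  | one b a ha =>
    intro hb
    subst hb
    refine ⟨a, ha, fun x hx hxa => SOLVP.one true _ ?_⟩
    exact ⟨U.mul_mem hx ha.1, hxa⟩
  | cons b c a g ha hg _ =>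
    intro hb
    subst hb
    refine ⟨a, ha, fun x hx hxa => ?_⟩
    rw [← mul_assoc]
    refine SOLVP.cons true c (x * a) g ?_ hg
    exact ⟨U.mul_mem hx ha.1, hxa⟩

private theorem SOLV_core (U V : Subgroup G) (hs : Group.IsSolvable G)
    (H : ∀ (b : Bool) (l : List G), l ≠ [] → Alt U V b l → l.prod ∉ U ⊓ V)
    (x1 x2 v : G) (hx1 : x1 ∈ U) (hx1' : x1 ∉ V) (hx2 : x2 ∈ U) (hx2' : x2 ∉ V)
    (h12 : x1⁻¹ * x2 ∉ V) (hv : v ∈ V) (hv' : v ∉ U) : False := by
  have hV : SOLVlet U V false v := ⟨hv, hv'⟩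
  have key : ∀ k : ℕ, ∃ g ∈ derivedSeries G k, SOLVP U V true true g := by
    intro k
    induction k with
    | zero => exact ⟨x1, by simp, SOLVP.one true x1 ⟨hx1, hx1'⟩⟩
    | succ k ih =>
      obtain ⟨g, hgD, hg⟩ := ih
      obtain ⟨a, ⟨haU, haV⟩, ha⟩ := SOLV_first hg rfl
      obtain ⟨x, hxU, hxV, hxa⟩ : ∃ x ∈ U, x ∉ V ∧ x * a ∉ V := by
        by_cases h1 : x1⁻¹ * a ∈ V
        · refine ⟨x2⁻¹, U.inv_mem hx2, fun h => hx2' (by simpa using V.inv_mem h), fun h2 => ?_⟩
          apply h12
          have h3 : x1⁻¹ * x2 = (x1⁻¹ * a) * (x2⁻¹ * a)⁻¹ := by group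
          rw [h3]
          exact V.mul_mem h1 (V.inv_mem h2)
        · exact ⟨x1⁻¹, U.inv_mem hx1, fun h => hx1' (by simpa using V.inv_mem h), h1⟩
      have hn : (derivedSeries G k).Normal := inferInstance
      have hn1 : (derivedSeries G (k + 1)).Normal := inferInstance
      have hc : ⁅g, v * g * v⁻¹⁆ ∈ derivedSeries G (k + 1) :=
        Subgroup.commutator_mem_commutator hgD (hn.conj_mem g hgD v)
      refine ⟨x * ⁅g, v * g * v⁻¹⁆ * x⁻¹, hn1.conj_mem _ hc x, ?_⟩
      have hvP : SOLVP U V false false v := SOLVP.one false v hV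
      have hvI : SOLVP U V false false v⁻¹ := SOLVP.one false _ (SOLVlet_inv hV)
      have hgI : SOLVP U V true true g⁻¹ := SOLV_inv hg
      have hxI : SOLVP U V true true x⁻¹ := SOLVP.one true _ (SOLVlet_inv ⟨hxU, hxV⟩)
      have h1 := SOLV_append (SOLV_append (SOLV_append (SOLV_append (SOLV_append (SOLV_append
        (SOLV_append (SOLV_append (ha x hxU hxa) rfl hvP) rfl hg) rfl hvI) rfl hgI) rfl hvP)
        rfl hgI) rfl hvI) rfl hxI
      have h2 : x * ⁅g, v * g * v⁻¹⁆ * x⁻¹ =
          x * g * v * g * v⁻¹ * g⁻¹ * v * g⁻¹ * v⁻¹ * x⁻¹ := by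
        rw [commutatorElement_def]
        group
      rw [h2]
      exact h1
  obtain ⟨d, hd⟩ := hs.solvable
  obtain ⟨g, hg, hP⟩ := key d
  rw [hd, Subgroup.mem_bot] at hg
  obtain ⟨l, hl, hA, hp⟩ := SOLV_list hP
  refine H true l hl hA ?_
  rw [hp, hg]
  exact Subgroup.one_mem _

private theorem SOLV_swap (U V : Subgroup G) (l : List G) :
    ∀ b, Alt V U b l → Alt U V (!b) l := by
  induction l with
  | nil => intro b _; cases b <;> exact trivial
  | cons x l ih =>
    intro b h
    cases b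
    · exact ⟨h.1, h.2.1, ih true h.2.2⟩
    · exact ⟨h.1, h.2.1, ih false h.2.2⟩

end

theorem t_SOLV : S_SOLV := by
  intro G _ U V hs _ H
  by_cases hUV : U ≤ V
  · exact Or.inl hUV
  by_cases hVU : V ≤ U
  · exact Or.inr (Or.inl hVU)
  refine Or.inr (Or.inr ⟨?_, ?_⟩)
  · obtain ⟨v, hv, hv'⟩ := SetLike.not_le_iff_exists.1 hVU
    intro x hx hx' y hy hy'
    by_contra h
    exact SOLV_core U V hs H x y v hx hx' hy hy' h hv hv'
  · obtain ⟨u, hu, hu'⟩ := SetLike.not_le_iff_exists.1 hUV
    intro x hx hx' y hy hy'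
    by_contra h
    refine SOLV_core V U hs ?_ x y u hx hx' hy hy' h hu hu'
    intro b l hl hA
    rw [inf_comm]
    exact H (!b) l hl (SOLV_swap U V l b hA)

end H114MF
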