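import Mathlib
import Pool.Agent.H114.MF.Defs4

/-! VNA: minimal normal subgroups of finitely generated nilpotent-by-abelian-by-finite groups are
finite. -/

set_option autoImplicit false

namespace H114MF

open H114MB

theorem t_VNA (h1 : S_ACT) (h2 : S_RFM) : S_VNA := by
  intro E _ S N hFG hS hab hmin hN hidx hnil
  classical
  by_cases hSb : S = ⊥
  · rw [hSb]; infer_instance
  obtain ⟨x, hxS, hx1⟩ : ∃ x ∈ S, x ≠ 1 := by
    by_contra hcon
    push Not at hcon
    exact hSb ((Subgroup.eq_bot_iff_forall S).2 hcon)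
  have iS := hS
  have iN := hN
  -- the second derived subgroup centralizes `S`
  have hcD : ∀ g ∈ (⁅N, N⁆ : Subgroup E), ∀ a ∈ S, g * a = a * g := by
    have hKn : (⁅S, (⁅N, N⁆ : Subgroup E)⁆ : Subgroup E).Normal := inferInstance
    rcases hmin ⁅S, (⁅N, N⁆ : Subgroup E)⁆ hKn (Subgroup.commutator_le_left S _) with h | h
    · intro g hg a ha
      have := (Subgroup.commutator_eq_bot_iff_le_centralizer).1 h ha
      exact (Subgroup.mem_centralizer_iff.1 this) g hg
    · exfalso
      have hle : S ≤ (⁅N, N⁆ : Subgroup E) := by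
        have := Subgroup.commutator_le_right S (⁅N, N⁆ : Subgroup E)
        rwa [h] at this
      have hall : ∀ k : ℕ, S ≤ (⁅N, N⁆ : Subgroup E).lowerCentralSeries k := by
        intro k
        induction k with
        | zero => exact hle
        | succ k ih =>
          rw [Subgroup.lowerCentralSeries_succ]
          calc S = ⁅S, (⁅N, N⁆ : Subgroup E)⁆ := h.symm
            _ ≤ _ := Subgroup.commutator_mono ih le_rfl
      obtain ⟨n, hn⟩ := (Subgroup.isNilpotent_iff_lowerCentralSeries _).1 hnil
      have := hall n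
      rw [hn] at this
      exact hSb (le_bot_iff.1 this)
  have hfi : N.FiniteIndex := ⟨hidx⟩
  have : Finite (E ⧸ N) := Subgroup.finite_quotient_of_finiteIndex
  -- `S ≤ N` or `S ⊓ N = ⊥`
  have hSNn : (S ⊓ N).Normal := inferInstance
  rcases hmin (S ⊓ N) hSNn inf_le_left with hSN | hSN
  · refine Finite.of_injective (fun a : S => (QuotientGroup.mk (a : E) : E ⧸ N)) ?_
    intro a b hab'
    have h3 : ((a : E))⁻¹ * b ∈ N := QuotientGroup.eq.1 hab'
    have h4 : ((a : E))⁻¹ * b ∈ S ⊓ N := ⟨S.mul_mem (S.inv_mem a.2) b.2, h3⟩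
    rw [hSN, Subgroup.mem_bot] at h4
    exact Subtype.ext (inv_mul_eq_one.1 h4)
  have hSN' : S ≤ N := inf_eq_left.1 hSN
  have : Group.FG E := hFG
  have hNfg : Group.FG N := inferInstance
  -- the module structure
  set A : Subgroup N := S.subgroupOf N with hA
  have hAn : A.Normal := inferInstance
  have hmemA : ∀ a : N, a ∈ A ↔ (a : E) ∈ S := fun a => Subgroup.mem_subgroupOf
  have hAab : ∀ a ∈ A, ∀ b ∈ A, a * b = b * a := by
    intro a ha b hb
    exact Subtype.ext (hab a ((hmemA a).1 ha) b ((hmemA b).1 hb))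
  have hAc : ∀ g ∈ commutator N, ∀ a ∈ A, g * a = a * g := by
    intro g hg a ha
    apply Subtype.ext
    refine hcD g ?_ a ((hmemA a).1 ha)
    rw [← Subgroup.map_subtype_commutator]
    exact Subgroup.mem_map_of_mem _ hg
  obtain ⟨R, M, iR, iM, iRM, f, hR, hbij, hadd, -, hK2⟩ := h1 N A hAn hNfg hAab hAc
  -- conjugation
  let cj : E → E → A := fun e s =>
    if hs : s ∈ S then ⟨⟨e * s * e⁻¹, hSN' (hS.conj_mem s hs e)⟩,
      (hmemA _).2 (hS.conj_mem s hs e)⟩ else 1
  have hcj : ∀ e s, s ∈ S → ((cj e s : N) : E) = e * s * e⁻¹ := by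
    intro e s hs
    simp only [cj, dif_pos hs]
  have hrep : ∀ g : E, ∃ n : N, g = n * (QuotientGroup.mk g : E ⧸ N).out := by
    intro g
    have h3 : (QuotientGroup.mk (QuotientGroup.mk g : E ⧸ N).out : E ⧸ N) = QuotientGroup.mk g :=
      Quotient.out_eq' _
    have h4 : ((QuotientGroup.mk g : E ⧸ N).out)⁻¹ * g ∈ N := QuotientGroup.eq.1 h3
    have h5 := hN.conj_mem _ h4 (QuotientGroup.mk g : E ⧸ N).out
    refine ⟨⟨_, h5⟩, ?_⟩
    simp
  have hf1 : f 1 = 0 := by
    have := hadd 1 1
    rw [mul_one] at this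
    exact left_eq_add.1 this
  have hsub : ∀ a b : A, f (a * b⁻¹) = f a - f b := by
    intro a b
    rw [eq_sub_iff_add_eq, ← hadd, inv_mul_cancel_right]
  -- the module is finitely generated
  have hfin : Module.Finite R M := by
    obtain ⟨K, hKn, hKS, hK⟩ := hK2
      (Submodule.span R (Set.range fun j : E ⧸ N => f (cj j.out x)))
    have hmem : ∀ j : E ⧸ N, ((cj j.out x : A) : N) ∈ K := fun j =>
      (hK _).1 (Submodule.subset_span ⟨j, rfl⟩)
    have hmem2 : ∀ g : E, g * x * g⁻¹ ∈ K.map N.subtype := by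
      intro g
      obtain ⟨n, hn⟩ := hrep g
      have h3 := hKn.conj_mem _ (hmem (QuotientGroup.mk g)) n
      refine ⟨_, h3, ?_⟩
      simp only [Subgroup.coe_subtype, Subgroup.coe_mul, Subgroup.coe_inv]
      rw [hcj _ _ hxS]
      conv_rhs => rw [hn]
      group
    have hncl : Subgroup.normalClosure ({x} : Set E) ≤ K.map N.subtype := by
      rw [Subgroup.normalClosure, Subgroup.closure_le]
      intro y hy
      rw [Group.mem_conjugatesOfSet_iff] at hy
      obtain ⟨z, hz, hzy⟩ := hy
      rw [Set.mem_singleton_iff] at hz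
      subst hz
      obtain ⟨c, hc⟩ := isConj_iff.1 hzy
      rw [← hc]
      exact hmem2 c
    have hnclS : Subgroup.normalClosure ({x} : Set E) = S := by
      rcases hmin _ Subgroup.normalClosure_normal
        (Subgroup.normalClosure_le_normal (show ({x} : Set E) ⊆ S from
          Set.singleton_subset_iff.2 hxS)) with h | h
      · exfalso
        have : x ∈ Subgroup.normalClosure ({x} : Set E) :=
          Subgroup.subset_normalClosure (Set.mem_singleton x)
        rw [h, Subgroup.mem_bot] at this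
        exact hx1 this
      · exact h
    rw [hnclS] at hncl
    have hKA : ∀ a : A, (a : N) ∈ K := by
      intro a
      obtain ⟨b, hb, hba⟩ := hncl ((hmemA a).1 a.2)
      have : b = (a : N) := Subtype.ext hba
      rwa [← this]
    have hfinr : (Set.range fun j : E ⧸ N => f (cj j.out x)).Finite := Set.finite_range _
    refine ⟨⟨hfinr.toFinset, ?_⟩⟩
    rw [eq_top_iff]
    intro m _
    obtain ⟨a, rfl⟩ := hbij.2 m
    rw [Set.Finite.coe_toFinset]
    exact (hK a).2 (hKA a)
  -- a submodule of finite index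
  have hfx : f (cj 1 x) ≠ 0 := by
    intro h
    have h3 : cj 1 x = 1 := hbij.1 (h.trans hf1.symm)
    have h4 := hcj 1 x hxS
    rw [h3] at h4
    simp at h4
    exact hx1 h4.symm
  obtain ⟨L, hxL, hLf⟩ := h2 R M hR hfin _ hfx
  obtain ⟨K, hKn, hKS, hK⟩ := hK2 L
  have hcore : (K.map N.subtype).normalCore = ⊥ := by
    rcases hmin (K.map N.subtype).normalCore inferInstance
      ((Subgroup.normalCore_le _).trans (by
        rintro _ ⟨b, hb, rfl⟩
        exact (hmemA b).1 (hKS hb))) with h | h
    · exact h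
    · exfalso
      have h3 : x ∈ (K.map N.subtype).normalCore := by rw [h]; exact hxS
      obtain ⟨b, hb, hbx⟩ := Subgroup.normalCore_le _ h3
      apply hxL
      apply (hK _).2
      have : b = ((cj 1 x : A) : N) := by
        apply Subtype.ext
        rw [hcj 1 x hxS]
        simpa using hbx
      rwa [← this]
  refine Finite.of_injective
    (fun (s : S) (j : E ⧸ N) => (Submodule.Quotient.mk (f (cj j.out s)) : M ⧸ L)) ?_
  intro s t hst
  have h3 : (s : E) * (t : E)⁻¹ ∈ (K.map N.subtype).normalCore := by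
    intro g
    obtain ⟨n, hn⟩ := hrep g
    have h4 := congrFun hst (QuotientGroup.mk g)
    have h5 : f (cj (QuotientGroup.mk g : E ⧸ N).out s) -
        f (cj (QuotientGroup.mk g : E ⧸ N).out t) ∈ L := (Submodule.Quotient.eq L).1 h4
    rw [← hsub] at h5
    have h6 := hKn.conj_mem _ ((hK _).1 h5) n
    refine ⟨_, h6, ?_⟩
    simp only [Subgroup.coe_subtype, Subgroup.coe_mul, Subgroup.coe_inv]
    rw [hcj _ _ s.2, hcj _ _ t.2]
    conv_rhs => rw [hn]
    group
  rw [hcore, Subgroup.mem_bot] at h3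
  exact Subtype.ext (mul_inv_eq_one.1 h3)

end H114MF
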